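import Mathlib

/-!
# PP5 section (e): lemma E1, a direction in which the section of the quadratic form is large

`G` symmetric with `|G i j| ≤ C l_i l_j / T`, `m` with `|m i| ≤ μ l_i` and equality somewhere.
There is `η` (`= l_i e_i` or `l_i e_i + l_j e_j`) with
`|A| ≥ |det G| T^2 μ^2 / (66 C^2)`, `A det G = (m.adj m)(η.adj η) - (m.adj η)^2`.
-/

set_option autoImplicit false

namespace Pool.Agent.PP5S

open Matrix

/-- `A det G = (m.adj m)(η.adj η) - (m.adj η)^2` -/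
def IsCm (G : Matrix (Fin 4) (Fin 4) ℝ) (m η : Fin 4 → ℝ) (A : ℝ) : Prop :=
  A * G.det = (m ⬝ᵥ (G.adjugate *ᵥ m)) * (η ⬝ᵥ (G.adjugate *ᵥ η)) - (m ⬝ᵥ (G.adjugate *ᵥ η)) ^ 2

/-- the compound matrix -/
noncomputable def cmB (G : Matrix (Fin 4) (Fin 4) ℝ) (m : Fin 4 → ℝ) : Matrix (Fin 4) (Fin 4) ℝ :=
  (G.det)⁻¹ • ((m ⬝ᵥ (G.adjugate *ᵥ m)) • G.adjugate -
    vecMulVec (G.adjugate *ᵥ m) (G.adjugate *ᵥ m))

theorem adj_symm {G : Matrix (Fin 4) (Fin 4) ℝ} (hG : G.IsSymm) : G.adjugate.IsSymm := by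
  unfold Matrix.IsSymm
  rw [adjugate_transpose, hG.eq]

theorem cm_gBg {G : Matrix (Fin 4) (Fin 4) ℝ} (hG : G.IsSymm) (hd : G.det ≠ 0) (m : Fin 4 → ℝ) :
    G * cmB G m * G = (m ⬝ᵥ (G.adjugate *ᵥ m)) • G - G.det • vecMulVec m m := by
  unfold cmB
  set a := m ⬝ᵥ (G.adjugate *ᵥ m) with ha
  have h1 : G *ᵥ (G.adjugate *ᵥ m) = G.det • m := by
    rw [mulVec_mulVec, mul_adjugate, smul_mulVec, one_mulVec]
  have h2 : (G.adjugate *ᵥ m) ᵥ* G = G.det • m := by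
    have : (G.adjugate *ᵥ m) ᵥ* G = Gᵀ *ᵥ (G.adjugate *ᵥ m) := by rw [mulVec_transpose]
    rw [this, hG.eq, h1]
  rw [Matrix.mul_smul, Matrix.smul_mul, Matrix.mul_sub, Matrix.sub_mul, Matrix.mul_smul,
    mul_adjugate, Matrix.smul_mul, Matrix.smul_mul, Matrix.one_mul, mul_vecMulVec, h1,
    vecMulVec_mul, h2]
  rw [smul_sub]
  congr 1
  · rw [smul_smul, smul_smul]
    congr 1
    field_simp
  · rw [smul_vecMulVec, vecMulVec_smul, smul_smul, smul_smul]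
    congr 1
    field_simp

theorem cm_tr {G : Matrix (Fin 4) (Fin 4) ℝ} (hG : G.IsSymm) (hd : G.det ≠ 0) (m : Fin 4 → ℝ) :
    (G * cmB G m).trace = 3 * (m ⬝ᵥ (G.adjugate *ᵥ m)) := by
  unfold cmB
  set a := m ⬝ᵥ (G.adjugate *ᵥ m) with ha
  have h1 : G *ᵥ (G.adjugate *ᵥ m) = G.det • m := by
    rw [mulVec_mulVec, mul_adjugate, smul_mulVec, one_mulVec]
  rw [Matrix.mul_smul, Matrix.mul_sub, Matrix.mul_smul, mul_adjugate, mul_vecMulVec, h1,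
    trace_smul, trace_sub, trace_smul, trace_smul, trace_one, trace_vecMulVec, smul_dotProduct]
  rw [← ha]
  simp only [smul_eq_mul, Fintype.card_fin]
  field_simp
  push_cast
  ring

theorem cm_quad (G : Matrix (Fin 4) (Fin 4) ℝ) (hG : G.IsSymm) (hd : G.det ≠ 0)
    (m η : Fin 4 → ℝ) : IsCm G m η (η ⬝ᵥ (cmB G m *ᵥ η)) := by
  unfold IsCm cmB
  set a := m ⬝ᵥ (G.adjugate *ᵥ m) with ha
  have h1 : (G.adjugate *ᵥ m) ⬝ᵥ η = m ⬝ᵥ (G.adjugate *ᵥ η) := by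
    rw [dotProduct_mulVec, ← mulVec_transpose, (adj_symm hG).eq]
  rw [smul_mulVec, sub_mulVec, smul_mulVec, dotProduct_smul, dotProduct_sub, dotProduct_smul,
    vecMulVec_mulVec]
  have h2 : η ⬝ᵥ (MulOpposite.op ((G.adjugate *ᵥ m) ⬝ᵥ η) • (G.adjugate *ᵥ m)) =
      ((G.adjugate *ᵥ m) ⬝ᵥ η) ^ 2 := by
    rw [dotProduct_smul]
    simp only [MulOpposite.smul_eq_mul_unop, MulOpposite.unop_op]
    rw [dotProduct_comm η, pow_two]
  rw [h2, h1]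
  simp only [smul_eq_mul]
  field_simp

end Pool.Agent.PP5S
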