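import Pool.Agent.PP5B.Igl
import Pool.Agent.PP5S.Cmp

/-!
# PP5 section (e): (E1c), the compact form of the conic theorem
-/

set_option autoImplicit false

namespace Pool.Agent.PP5S

open Matrix Pool.Agent.PP5B

/-- bilinear bound -/
theorem bil_le {a b p q : Fin 4 → ℝ} {M : Matrix (Fin 4) (Fin 4) ℝ} {α β γ : ℝ}
    (hp : ∀ i, 0 < p i) (hq : ∀ i, 0 < q i) (hγ : 0 ≤ γ)
    (ha : ∀ i, |a i| * p i ≤ α) (hb : ∀ i, |b i| * q i ≤ β)
    (hM : ∀ i j, |M i j| ≤ γ * (p i * q j)) :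
    |a ⬝ᵥ (M *ᵥ b)| ≤ 16 * (γ * (α * β)) := by
  have hα : 0 ≤ α := le_trans (mul_nonneg (abs_nonneg _) (hp 0).le) (ha 0)
  have h1 : ∀ i j, |a i * (M i j * b j)| ≤ γ * (α * β) := by
    intro i j
    rw [abs_mul, abs_mul]
    calc |a i| * (|M i j| * |b j|) ≤ |a i| * ((γ * (p i * q j)) * |b j|) :=
          mul_le_mul_of_nonneg_left (mul_le_mul_of_nonneg_right (hM i j) (abs_nonneg _)) (abs_nonneg _)
      _ = γ * ((|a i| * p i) * (|b j| * q j)) := by ring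
      _ ≤ γ * (α * β) := mul_le_mul_of_nonneg_left
          (mul_le_mul (ha i) (hb j) (mul_nonneg (abs_nonneg _) (hq j).le) hα) hγ
  have h2 : a ⬝ᵥ (M *ᵥ b) = ∑ i, ∑ j, a i * (M i j * b j) := by
    simp only [dotProduct, mulVec, Finset.mul_sum]
  rw [h2]
  calc |∑ i, ∑ j, a i * (M i j * b j)| ≤ ∑ i, |∑ j, a i * (M i j * b j)| := Finset.abs_sum_le_sum_abs _ _
    _ ≤ ∑ i : Fin 4, ∑ j : Fin 4, |a i * (M i j * b j)| :=
        Finset.sum_le_sum fun i _ => Finset.abs_sum_le_sum_abs _ _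
    _ ≤ ∑ _i : Fin 4, ∑ _j : Fin 4, γ * (α * β) :=
        Finset.sum_le_sum fun i _ => Finset.sum_le_sum fun j _ => h1 i j
    _ = 16 * (γ * (α * β)) := by simp; ring

/-- determinant bound -/
theorem det_le3 {M : Matrix (Fin 3) (Fin 3) ℝ} {p q : Fin 3 → ℝ} {γ : ℝ}
    (hM : ∀ i j, |M i j| ≤ γ * (p i * q j)) :
    |M.det| ≤ 6 * (γ ^ 3 * ((∏ i, p i) * ∏ i, q i)) := by
  rw [Matrix.det_apply]
  calc |∑ σ : Equiv.Perm (Fin 3), Equiv.Perm.sign σ • ∏ i, M (σ i) i|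
      ≤ ∑ σ : Equiv.Perm (Fin 3), |Equiv.Perm.sign σ • ∏ i, M (σ i) i| := Finset.abs_sum_le_sum_abs _ _
    _ ≤ ∑ _σ : Equiv.Perm (Fin 3), γ ^ 3 * ((∏ i, p i) * ∏ i, q i) := by
        refine Finset.sum_le_sum fun σ _ => ?_
        have h1 : |Equiv.Perm.sign σ • ∏ i, M (σ i) i| = ∏ i, |M (σ i) i| := by
          rcases Int.units_eq_one_or (Equiv.Perm.sign σ) with h | h
          · rw [h, one_smul, Finset.abs_prod]
          · rw [h, Units.neg_smul, one_smul, abs_neg, Finset.abs_prod]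
        rw [h1]
        calc ∏ i, |M (σ i) i| ≤ ∏ i, γ * (p (σ i) * q i) :=
              Finset.prod_le_prod (fun i _ => abs_nonneg _) (fun i _ => hM _ _)
          _ = γ ^ 3 * ((∏ i, p (σ i)) * ∏ i, q i) := by
              rw [Finset.prod_mul_distrib, Finset.prod_mul_distrib]; simp
          _ = _ := by rw [Equiv.prod_comp σ p]
    _ = _ := by
        rw [Finset.sum_const, Finset.card_univ, Fintype.card_perm, Fintype.card_fin]
        simp [Nat.factorial]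

/-- the entries of the adjugate -/
theorem adj_le {G : Matrix (Fin 4) (Fin 4) ℝ} {l : Fin 4 → ℝ} {γ : ℝ}
    (hl : ∀ i, 0 < l i) (hG : ∀ i j, |G i j| ≤ γ * (l i * l j)) (i j : Fin 4) :
    |G.adjugate i j| ≤ (6 * (γ ^ 3 * (∏ i, l i) ^ 2)) * ((l i)⁻¹ * (l j)⁻¹) := by
  rw [Matrix.adjugate_fin_succ_eq_det_submatrix, abs_mul, abs_pow, abs_neg, abs_one, one_pow, one_mul]
  have h := det_le3 (M := G.submatrix j.succAbove i.succAbove) (p := fun a => l (j.succAbove a))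
    (q := fun a => l (i.succAbove a)) (fun _ _ => hG _ _)
  refine h.trans (le_of_eq ?_)
  have e1 : ∏ i, l i = l j * ∏ a, l (j.succAbove a) := Fin.prod_univ_succAbove l j
  have e2 : ∏ i, l i = l i * ∏ a, l (i.succAbove a) := Fin.prod_univ_succAbove l i
  have hi := (hl i).ne'
  have hj := (hl j).ne'
  rw [pow_two]
  nth_rewrite 1 [e1]
  rw [e2]
  field_simp

/-- the choice of eta -/
theorem ex_eta {G : Matrix (Fin 4) (Fin 4) ℝ} {m l : Fin 4 → ℝ} {γ u : ℝ} (hsy : G.IsSymm)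
    (hd : G.det ≠ 0) (hγ : 0 < γ) (hu : 0 < u) (hl : ∀ i, 0 < l i)
    (hG : ∀ i j, |G i j| ≤ γ * (l i * l j)) (i0 : Fin 4) (hm0 : u * l i0 ≤ 2 * |m i0|) :
    ∃ η : Fin 4 → ℝ, (∃ i j : Fin 4, ∀ v : Fin 4 → ℝ, |η ⬝ᵥ v| ≤ l i * |v i| + l j * |v j|) ∧
      (∀ i, |η i| ≤ 2 * l i) ∧
      ∃ A : ℝ, IsCm G m η A ∧ |G.det| * u ^ 2 ≤ 128 * γ ^ 2 * |A| := by
  set B := cmB G m with hB
  set a := m ⬝ᵥ (G.adjugate *ᵥ m) with ha
  -- the maximum
  obtain ⟨⟨i1, j1⟩, hmax⟩ := Finite.exists_max (fun p : Fin 4 × Fin 4 => |B p.1 p.2| * (l p.1 * l p.2))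
  set b := |B i1 j1| * (l i1 * l j1) with hb
  have hb0 : 0 ≤ b := mul_nonneg (abs_nonneg _) (mul_pos (hl _) (hl _)).le
  have hBb : ∀ i j, |B i j| ≤ b * ((l i)⁻¹ * (l j)⁻¹) := by
    intro i j
    have h := hmax (i, j)
    simp only at h
    have hi := hl i
    have hj := hl j
    rw [← mul_inv, ← div_eq_mul_inv, le_div_iff₀ (mul_pos hi hj)]
    exact h
  have hBs : B.IsSymm := by
    rw [hB]; unfold cmB
    rw [Matrix.IsSymm, transpose_smul, transpose_sub, transpose_smul, (adj_symm hsy).eq]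
    congr 2
    ext i j
    simp [vecMulVec_apply, mul_comm]
  -- lower bound for b
  have hlow : |G.det| * u ^ 2 ≤ 256 / 3 * γ ^ 2 * b := by
    have h1 := cm_gBg hsy hd m
    have h2 := congrFun (congrFun h1 i0) i0
    have h3 : (G * B * G) i0 i0 = G i0 ⬝ᵥ (B *ᵥ G i0) := by
      have e : ∀ k, G k i0 = G i0 k := fun k => hsy.apply i0 k
      rw [Matrix.mul_assoc, Matrix.mul_apply]
      simp only [dotProduct, mulVec, Matrix.mul_apply, e]
    rw [← hB, h3, ← ha] at h2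
    simp only [Matrix.sub_apply, Matrix.smul_apply, smul_eq_mul, vecMulVec_apply] at h2
    have h4 : |G i0 ⬝ᵥ (B *ᵥ G i0)| ≤ 16 * (b * ((γ * l i0) * (γ * l i0))) := by
      refine bil_le (p := fun i => (l i)⁻¹) (q := fun i => (l i)⁻¹) (fun i => inv_pos.mpr (hl i))
        (fun i => inv_pos.mpr (hl i)) hb0 ?_ ?_ hBb
      · intro i
        rw [← div_eq_mul_inv, div_le_iff₀ (hl i)]
        calc _ ≤ γ * (l i0 * l i) := hG i0 i
          _ = _ := by ring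
      · intro i
        rw [← div_eq_mul_inv, div_le_iff₀ (hl i)]
        calc _ ≤ γ * (l i0 * l i) := hG i0 i
          _ = _ := by ring
    have h5 : |3 * a| ≤ 16 * (γ * b) := by
      rw [← cm_tr hsy hd m, ← hB, Matrix.trace]
      calc |∑ i, (G * B).diag i| ≤ ∑ i, |(G * B).diag i| := Finset.abs_sum_le_sum_abs _ _
        _ ≤ ∑ _i : Fin 4, 4 * (γ * b) := by
          refine Finset.sum_le_sum fun i _ => ?_
          rw [diag_apply, Matrix.mul_apply]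
          calc |∑ j, G i j * B j i| ≤ ∑ j, |G i j * B j i| := Finset.abs_sum_le_sum_abs _ _
            _ ≤ ∑ _j : Fin 4, γ * b := by
              refine Finset.sum_le_sum fun j _ => ?_
              rw [abs_mul]
              calc |G i j| * |B j i| ≤ (γ * (l i * l j)) * (b * ((l j)⁻¹ * (l i)⁻¹)) :=
                    mul_le_mul (hG i j) (hBb j i) (abs_nonneg _)
                      (mul_nonneg hγ.le (mul_pos (hl i) (hl j)).le)
                _ = γ * b := by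
                  have hi := (hl i).ne'
                  have hj := (hl j).ne'
                  field_simp
            _ = 4 * (γ * b) := by simp
        _ = 16 * (γ * b) := by simp; ring
    have h6 : |G.det| * (m i0) ^ 2 ≤ 64 / 3 * (γ ^ 2 * (l i0) ^ 2 * b) := by
      have e1 : G.det * (m i0 * m i0) = a * G i0 i0 - G i0 ⬝ᵥ (B *ᵥ G i0) := by linarith
      have e2 : |G.det| * (m i0) ^ 2 = |G.det * (m i0 * m i0)| := by
        rw [abs_mul, ← pow_two, abs_of_nonneg (sq_nonneg (m i0))]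
      rw [e2, e1]
      have e3 : |a| ≤ 16 / 3 * (γ * b) := by
        rw [abs_mul, abs_of_pos (by norm_num : (0 : ℝ) < 3)] at h5
        linarith
      have e4 : |a * G i0 i0| ≤ 16 / 3 * (γ * b) * (γ * (l i0 * l i0)) := by
        rw [abs_mul]
        exact mul_le_mul e3 (hG i0 i0) (abs_nonneg _) (by positivity)
      calc |a * G i0 i0 - G i0 ⬝ᵥ (B *ᵥ G i0)| ≤ |a * G i0 i0| + |G i0 ⬝ᵥ (B *ᵥ G i0)| := abs_sub _ _
        _ ≤ 16 / 3 * (γ * b) * (γ * (l i0 * l i0)) + 16 * (b * ((γ * l i0) * (γ * l i0))) :=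
          add_le_add e4 h4
        _ = _ := by ring
    have h7 : (u * l i0) ^ 2 ≤ 4 * (m i0) ^ 2 := by
      have := pow_le_pow_left₀ (mul_pos hu (hl i0)).le hm0 2
      rw [mul_pow 2, sq_abs] at this
      linarith
    have h8 : |G.det| * u ^ 2 * (l i0) ^ 2 ≤ 256 / 3 * γ ^ 2 * b * (l i0) ^ 2 := by
      have := mul_le_mul_of_nonneg_left h7 (abs_nonneg G.det)
      linarith
    exact le_of_mul_le_mul_right h8 (pow_pos (hl i0) 2)
  -- the diagonal values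
  set Q : (Fin 4 → ℝ) → ℝ := fun η => η ⬝ᵥ (B *ᵥ η) with hQ
  set x := Pi.single (M := fun _ : Fin 4 => ℝ) i1 (l i1) with hx
  set y := Pi.single (M := fun _ : Fin 4 => ℝ) j1 (l j1) with hy
  have hQx : Q x = B i1 i1 * (l i1 * l i1) := by
    simp only [hQ, hx, single_dotProduct, mulVec_single]; simp; ring
  have hQy : Q y = B j1 j1 * (l j1 * l j1) := by
    simp only [hQ, hy, single_dotProduct, mulVec_single]; simp; ring
  have hQxy : x ⬝ᵥ (B *ᵥ y) = B i1 j1 * (l i1 * l j1) := by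
    simp only [hx, hy, single_dotProduct, mulVec_single]; simp; ring
  have hQyx : y ⬝ᵥ (B *ᵥ x) = B i1 j1 * (l i1 * l j1) := by
    have e : B j1 i1 = B i1 j1 := hBs.apply i1 j1
    simp only [hx, hy, single_dotProduct, mulVec_single]; simp [e]; ring
  have hQs : Q (x + y) = Q x + Q y + 2 * (B i1 j1 * (l i1 * l j1)) := by
    simp only [hQ]
    rw [mulVec_add, dotProduct_add, add_dotProduct, add_dotProduct, hQxy, hQyx]
    ring
  have key : ∃ η, (η = x ∨ η = y ∨ η = x + y) ∧ 2 * b ≤ 3 * |Q η| := by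
    by_contra hcon
    push Not at hcon
    have c1 := hcon x (Or.inl rfl)
    have c2 := hcon y (Or.inr (Or.inl rfl))
    have c3 := hcon (x + y) (Or.inr (Or.inr rfl))
    have e1 : 2 * (B i1 j1 * (l i1 * l j1)) = Q (x + y) - Q x - Q y := by rw [hQs]; ring
    have e2 : b = |B i1 j1 * (l i1 * l j1)| := by
      rw [hb, abs_mul, abs_of_pos (mul_pos (hl i1) (hl j1))]
    have e3 : 2 * b ≤ |Q (x + y)| + |Q x| + |Q y| := by
      calc 2 * b = |2 * (B i1 j1 * (l i1 * l j1))| := by rw [e2, abs_mul]; norm_num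
        _ = |Q (x + y) - Q x - Q y| := by rw [e1]
        _ ≤ |Q (x + y) - Q x| + |Q y| := abs_sub _ _
        _ ≤ _ := by linarith [abs_sub (Q (x + y)) (Q x)]
    linarith
  obtain ⟨η, hη, hη2⟩ := key
  have hxv : ∀ v : Fin 4 → ℝ, |x ⬝ᵥ v| = l i1 * |v i1| := by
    intro v
    rw [hx, single_dotProduct, abs_mul, abs_of_pos (hl i1)]
  have hyv : ∀ v : Fin 4 → ℝ, |y ⬝ᵥ v| = l j1 * |v j1| := by
    intro v
    rw [hy, single_dotProduct, abs_mul, abs_of_pos (hl j1)]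
  have hxe : ∀ i, |x i| ≤ l i := by
    intro i
    by_cases h : i = i1
    · subst h; rw [hx, Pi.single_eq_same, abs_of_pos (hl i)]
    · rw [hx, Pi.single_eq_of_ne h, abs_zero]; exact (hl i).le
  have hye : ∀ i, |y i| ≤ l i := by
    intro i
    by_cases h : i = j1
    · subst h; rw [hy, Pi.single_eq_same, abs_of_pos (hl i)]
    · rw [hy, Pi.single_eq_of_ne h, abs_zero]; exact (hl i).le
  refine ⟨η, ⟨i1, j1, ?_⟩, ?_, Q η, ?_, ?_⟩
  · intro v
    have n1 : 0 ≤ l i1 * |v i1| := mul_nonneg (hl _).le (abs_nonneg _)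
    have n2 : 0 ≤ l j1 * |v j1| := mul_nonneg (hl _).le (abs_nonneg _)
    rcases hη with rfl | rfl | rfl
    · rw [hxv]; linarith
    · rw [hyv]; linarith
    · rw [add_dotProduct]
      calc _ ≤ |x ⬝ᵥ v| + |y ⬝ᵥ v| := abs_add_le _ _
        _ = _ := by rw [hxv, hyv]
  · intro i
    have := hl i
    rcases hη with rfl | rfl | rfl
    · linarith [hxe i]
    · linarith [hye i]
    · rw [Pi.add_apply]
      linarith [abs_add_le (x i) (y i), hxe i, hye i]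
  · exact cm_quad G hsy hd m η
  · linarith [sq_nonneg γ, mul_le_mul_of_nonneg_left hη2 (sq_nonneg γ)]

theorem log_le3 {K x y z : ℝ} (hK : 1 ≤ K) (hx : 0 ≤ x) (hy : 0 ≤ y) (hz0 : 0 ≤ z)
    (hz : z ≤ K * (x * y)) :
    Real.log (1 + z) ≤ Real.log K + Real.log (1 + x) + Real.log (1 + y) := by
  have h1 : 1 + z ≤ K * ((1 + x) * (1 + y)) := by
    linarith [mul_nonneg hx hy, mul_nonneg (sub_nonneg.mpr hK) (add_nonneg hx hy)]
  calc Real.log (1 + z) ≤ Real.log (K * ((1 + x) * (1 + y))) := Real.log_le_log (by linarith) h1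
    _ = Real.log K + (Real.log (1 + x) + Real.log (1 + y)) := by
      rw [Real.log_mul (by linarith) (by positivity), Real.log_mul (by linarith) (by linarith)]
    _ = _ := by ring

/-- (E1c), the compact form of the conic theorem. -/
theorem e1c (C : ℝ) (hC : 1 ≤ C) : ∃ K1 : ℝ, 0 < K1 ∧
    ∀ (G : Matrix (Fin 4) (Fin 4) ℤ), (∀ i j, G i j = G j i) → (∀ i, 2 ∣ G i i) → G.det ≠ 0 →
    ∀ c : Fin 4 → ℤ, Pr4 c → D2 G c ≠ 0 →
    ∀ S : Finset (Fin 4 → ℤ), (∀ v ∈ S, Pr4 v ∧ v ⬝ᵥ (G *ᵥ v) = 0 ∧ c ⬝ᵥ v = 0) →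
    ∀ (l : Fin 4 → ℝ) (T Y u : ℝ), (∀ i, 0 < l i) → 0 < T → 0 < Y → 0 < u →
    (∀ i j, |(G i j : ℝ)| ≤ C * (l i * l j) / T) →
    (∀ i, |(c i : ℝ)| ≤ u * l i) → (∃ i, u * l i ≤ 2 * |(c i : ℝ)|) →
    (∀ v ∈ S, ∀ i, |(v i : ℝ)| * l i ≤ Y) →
    (S.card : ℝ) ≤ K1 * ((omA G c : ℝ) *
      (1 + (Real.log (1 + (∏ i, l i) ^ 2 / (T ^ 4 * |(G.det : ℝ)|))
          + Real.log (1 + (∏ i, l i) ^ 2 * u ^ 2 / (T ^ 3 * |(D2 G c : ℝ)|)))) *
      (1 + Y * (sl G c : ℝ) / (T * u * √|(G.det : ℝ)|))) := by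
  set K : ℝ := 8 * 192 ^ 2 * C ^ 7 with hK
  have hC0 : 0 < C := by linarith
  have hK1 : 1 ≤ K := by
    have : 1 ≤ C ^ 7 := one_le_pow₀ hC
    rw [hK]; linarith
  have hlK : 0 ≤ Real.log K := Real.log_nonneg hK1
  refine ⟨2 * (2 + 2 * Real.log K) * (720 * C), by positivity, ?_⟩
  intro G hsym hev hdet c hc hD S hS l T Y u hl hT hY hu hG hcl ⟨i0, hi0⟩ hv
  set γ : ℝ := C / T with hγ
  have hγ0 : 0 < γ := div_pos hC0 hT
  set Lam := ∏ i, l i with hLam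
  have hLam0 : 0 < Lam := Finset.prod_pos fun i _ => hl i
  have hGs : (toR G).IsSymm := by
    ext i j; simp [toR, hsym i j]
  have hGd : (toR G).det ≠ 0 := by rw [toR_det]; exact_mod_cast hdet
  have hGl : ∀ i j, |(toR G) i j| ≤ γ * (l i * l j) := by
    intro i j
    have : (toR G) i j = (G i j : ℝ) := rfl
    rw [this]
    refine (hG i j).trans (le_of_eq ?_)
    rw [hγ]; ring
  obtain ⟨η, ⟨i1, j1, hη1⟩, hη2, A, hA1, hA2⟩ :=
    ex_eta (m := cvR c) hGs hGd hγ0 hu hl hGl i0 hi0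
  have hD2 : (D2 G c : ℝ) = cvR c ⬝ᵥ ((toR G).adjugate *ᵥ cvR c) := (cast_adj G c).symm
  have hdp : 0 < |(G.det : ℝ)| := abs_pos.mpr (by exact_mod_cast hdet)
  have hDp : 0 < |(D2 G c : ℝ)| := abs_pos.mpr (by exact_mod_cast hD)
  rw [toR_det] at hA2
  have hA0 : A ≠ 0 := by
    intro h0
    rw [h0, abs_zero, mul_zero] at hA2
    have : 0 < |(G.det : ℝ)| * u ^ 2 := by positivity
    linarith
  have hAp : 0 < |A| := abs_pos.mpr hA0
  have hAm : A * (G.det : ℝ) = (D2 G c : ℝ) * (η ⬝ᵥ ((toR G).adjugate *ᵥ η))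
      - (cvR c ⬝ᵥ ((toR G).adjugate *ᵥ η)) ^ 2 := by
    unfold IsCm at hA1
    rw [toR_det] at hA1
    rw [hA1, hD2]
  -- bilinear bound for G
  have hH : ∀ v ∈ S, ∀ w ∈ S, |((v ⬝ᵥ (G *ᵥ w) : ℤ) : ℝ)| ≤ 16 * (γ * (Y * Y)) := by
    intro v hvS w hwS
    have e : ((v ⬝ᵥ (G *ᵥ w) : ℤ) : ℝ) = cvR v ⬝ᵥ ((toR G) *ᵥ cvR w) := by
      rw [toR_mulVec]; simp [cvR, dotProduct]
    rw [e]
    exact bil_le hl hl hγ0.le (fun i => hv v hvS i) (fun i => hv w hwS i) hGl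
  have hYv : ∀ v ∈ S, |η ⬝ᵥ cvR v| ≤ 2 * Y := by
    intro v hvS
    have h1 := hη1 (cvR v)
    have h2 := hv v hvS i1
    have h3 := hv v hvS j1
    have h4 : |cvR v i1| = |(v i1 : ℝ)| := rfl
    have h5 : |cvR v j1| = |(v j1 : ℝ)| := rfl
    rw [h4, h5] at h1
    linarith
  have hmain := conic' G hsym hev hdet c hc hD S hS (16 * (γ * (Y * Y))) (2 * Y) A η (by positivity)
    hH (by positivity) hYv hA0 hAm
  -- upper bound for A
  set P : ℝ := 6 * (γ ^ 3 * Lam ^ 2) with hP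
  have hP0 : 0 ≤ P := by positivity
  have hadj : ∀ i j, |(toR G).adjugate i j| ≤ P * ((l i)⁻¹ * (l j)⁻¹) := adj_le hl hGl
  have hli : ∀ i, 0 < (l i)⁻¹ := fun i => inv_pos.mpr (hl i)
  have a1 : |η ⬝ᵥ ((toR G).adjugate *ᵥ η)| ≤ 16 * (P * (2 * 2)) := by
    refine bil_le hli hli hP0 ?_ ?_ hadj
    · intro i; rw [← div_eq_mul_inv, div_le_iff₀ (hl i)]; exact hη2 i
    · intro i; rw [← div_eq_mul_inv, div_le_iff₀ (hl i)]; exact hη2 i
  have a2 : |cvR c ⬝ᵥ ((toR G).adjugate *ᵥ η)| ≤ 16 * (P * (u * 2)) := by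
    refine bil_le hli hli hP0 ?_ ?_ hadj
    · intro i; rw [← div_eq_mul_inv, div_le_iff₀ (hl i)]; exact hcl i
    · intro i; rw [← div_eq_mul_inv, div_le_iff₀ (hl i)]; exact hη2 i
  have a3 : |(D2 G c : ℝ)| ≤ 16 * (P * (u * u)) := by
    rw [hD2]
    refine bil_le hli hli hP0 ?_ ?_ hadj
    · intro i; rw [← div_eq_mul_inv, div_le_iff₀ (hl i)]; exact hcl i
    · intro i; rw [← div_eq_mul_inv, div_le_iff₀ (hl i)]; exact hcl i
  have a4 : |A| * |(G.det : ℝ)| ≤ 2 * (32 * P * u) ^ 2 := by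
    rw [← abs_mul, hAm]
    calc |(D2 G c : ℝ) * (η ⬝ᵥ ((toR G).adjugate *ᵥ η)) - (cvR c ⬝ᵥ ((toR G).adjugate *ᵥ η)) ^ 2|
        ≤ |(D2 G c : ℝ) * (η ⬝ᵥ ((toR G).adjugate *ᵥ η))| + |(cvR c ⬝ᵥ ((toR G).adjugate *ᵥ η)) ^ 2| :=
          abs_sub _ _
      _ ≤ (16 * (P * (u * u))) * (16 * (P * (2 * 2))) + (16 * (P * (u * 2))) ^ 2 := by
          rw [abs_mul, abs_pow]
          exact add_le_add (mul_le_mul a3 a1 (abs_nonneg _) (by positivity))
            (pow_le_pow_left₀ (abs_nonneg _) a2 2)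
      _ = _ := by ring
  set X1 := Lam ^ 2 / (T ^ 4 * |(G.det : ℝ)|) with hX1
  set X2 := Lam ^ 2 * u ^ 2 / (T ^ 3 * |(D2 G c : ℝ)|) with hX2
  have hX10 : 0 ≤ X1 := by positivity
  have hX20 : 0 ≤ X2 := by positivity
  have b1 : 16 * (γ * (Y * Y)) * |A| / ((2 * Y) ^ 2 * |(D2 G c : ℝ)|) ≤ K * (X1 * X2) := by
    have e1 : 16 * (γ * (Y * Y)) * |A| / ((2 * Y) ^ 2 * |(D2 G c : ℝ)|) = 4 * γ * |A| / |(D2 G c : ℝ)| := by
      field_simp; ring
    rw [e1]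
    have e2 : |A| ≤ 2 * (32 * P * u) ^ 2 / |(G.det : ℝ)| := by
      rw [le_div_iff₀ hdp]; exact a4
    have e3 : 4 * γ * |A| / |(D2 G c : ℝ)| ≤ 4 * γ * (2 * (32 * P * u) ^ 2 / |(G.det : ℝ)|) / |(D2 G c : ℝ)| := by
      gcongr
    refine e3.trans (le_of_eq ?_)
    rw [hP, hX1, hX2, hγ, hK]
    field_simp
    ring
  have b2 : 1 + 2 * Real.log (1 + 16 * (γ * (Y * Y)) * |A| / ((2 * Y) ^ 2 * |(D2 G c : ℝ)|))
      ≤ (2 + 2 * Real.log K) * (1 + (Real.log (1 + X1) + Real.log (1 + X2))) := by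
    have h := log_le3 hK1 hX10 hX20 (by positivity) b1
    have l1 : 0 ≤ Real.log (1 + X1) := Real.log_nonneg (by linarith)
    have l2 : 0 ≤ Real.log (1 + X2) := Real.log_nonneg (by linarith)
    linarith [mul_nonneg hlK l1, mul_nonneg hlK l2]
  have b3 : 2 + 30 * (2 * Y) * (sl G c : ℝ) / √|A|
      ≤ 720 * C * (1 + Y * (sl G c : ℝ) / (T * u * √|(G.det : ℝ)|)) := by
    have h1 : √|(G.det : ℝ)| * u ≤ 12 * γ * √|A| := by
      have h2 : √(|(G.det : ℝ)| * u ^ 2) ≤ √((12 * γ) ^ 2 * |A|) := by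
        apply Real.sqrt_le_sqrt
        linarith [mul_nonneg (sq_nonneg γ) hAp.le]
      rw [Real.sqrt_mul (abs_nonneg _), Real.sqrt_sq hu.le, Real.sqrt_mul (sq_nonneg _),
        Real.sqrt_sq (by positivity)] at h2
      exact h2
    have hsA : 0 < √|A| := Real.sqrt_pos.mpr hAp
    have hsd : 0 < √|(G.det : ℝ)| := Real.sqrt_pos.mpr hdp
    have hsl : (0 : ℝ) ≤ (sl G c : ℝ) := Nat.cast_nonneg _
    have h3 : T * u * √|(G.det : ℝ)| ≤ 12 * C * √|A| := by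
      calc T * u * √|(G.det : ℝ)| = T * (√|(G.det : ℝ)| * u) := by ring
        _ ≤ T * (12 * γ * √|A|) := mul_le_mul_of_nonneg_left h1 hT.le
        _ = 12 * C * √|A| := by rw [hγ]; field_simp
    have h4 : Y * (sl G c : ℝ) / √|A| ≤ 12 * C * (Y * (sl G c : ℝ) / (T * u * √|(G.det : ℝ)|)) := by
      rw [div_le_iff₀ hsA]
      have h5 : (1 : ℝ) ≤ 12 * C * √|A| / (T * u * √|(G.det : ℝ)|) := by
        rw [le_div_iff₀ (by positivity)]; linarith
      calc Y * (sl G c : ℝ) = Y * (sl G c : ℝ) * 1 := by ring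
        _ ≤ Y * (sl G c : ℝ) * (12 * C * √|A| / (T * u * √|(G.det : ℝ)|)) :=
          mul_le_mul_of_nonneg_left h5 (mul_nonneg hY.le hsl)
        _ = _ := by ring
    have h6 : 30 * (2 * Y) * (sl G c : ℝ) / √|A| = 60 * (Y * (sl G c : ℝ) / √|A|) := by ring
    rw [h6]
    linarith
  have c1 : 0 ≤ 2 + 30 * (2 * Y) * (sl G c : ℝ) / √|A| := by positivity
  have c2 : 0 ≤ (2 + 2 * Real.log K) * (1 + (Real.log (1 + X1) + Real.log (1 + X2))) := by
    have l1 : 0 ≤ Real.log (1 + X1) := Real.log_nonneg (by linarith)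
    have l2 : 0 ≤ Real.log (1 + X2) := Real.log_nonneg (by linarith)
    positivity
  calc (S.card : ℝ) ≤ _ := hmain
    _ ≤ 2 * (omA G c : ℝ) * (((2 + 2 * Real.log K) * (1 + (Real.log (1 + X1) + Real.log (1 + X2)))) *
        (720 * C * (1 + Y * (sl G c : ℝ) / (T * u * √|(G.det : ℝ)|)))) :=
      mul_le_mul_of_nonneg_left (mul_le_mul b2 b3 c1 c2) (by positivity)
    _ = _ := by ring

end Pool.Agent.PP5S
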