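import Pool.Agent.PP5S.DPd
import Pool.Agent.PP5.DJ
import Pool.Agent.PP5.LFin

/-!
# PP5S/Xdx: the data attached to `x` exist
-/

set_option autoImplicit false

namespace Pool.Agent.PP5S

open Matrix Finset

theorem sum_smul_apply' (n : Fin 4 → ℤ) (b : Fin 4 → PP5.Sp) (a : Fin 12) :
    (∑ i, n i • b i) a = ∑ i, n i * b i a := by
  rw [Finset.sum_apply]
  exact Finset.sum_congr rfl fun i _ => by rw [Pi.smul_apply, smul_eq_mul]

theorem sum_single (i : Fin 4) (b : Fin 4 → PP5.Sp) :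
    ∑ k, (Pi.single i (1 : ℤ) : Fin 4 → ℤ) k • b k = b i := by
  rw [Finset.sum_eq_single i]
  · rw [Pi.single_eq_same, one_smul]
  · intro k _ hk
    rw [Pi.single_eq_of_ne hk, zero_smul]
  · intro h; exact absurd (Finset.mem_univ i) h

theorem XDx_exists : ∃ C : ℝ, 1 ≤ C ∧ XDx C := by
  obtain ⟨C, hC, h⟩ := PP5.dual_exists
  refine ⟨C, hC, ?_⟩
  intro t1 t2 h1 h2 x hx
  have h10 : 0 < t1 := by linarith
  have h20 : 0 < t2 := by linarith
  obtain ⟨⟨B0⟩, -⟩ := PP5L.Lx_summary hx.ff hx.pr hx.dn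
  have hr : Module.finrank ℤ (PP5L.Lx x) = 4 := by
    rw [Module.finrank_eq_card_basis B0, Fintype.card_fin]
  obtain ⟨b, G, D⟩ := h x t1 t2 ((PP5.FF_eq x).symm.trans hx.ff) hx.pr hr h10 h20
  obtain ⟨B, hB⟩ := D.bas
  have hG : ∀ i k j, PP5L.Bd (B i : Fin 16 → ℤ) (B k) j = G i k * x j := by
    intro i k j
    have h3 := D.pol (Pi.single i 1) (Pi.single k 1) j
    rw [sum_single, sum_single, ← hB, ← hB] at h3
    rw [h3]
    congr 1
    rw [single_one_dotProduct, mulVec_single_one]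
    rfl
  obtain ⟨f1, f2, f3, f4, f5, f6⟩ := PP5L.Lx_facts hx.ff hx.pr hx.dn B G hG
  obtain ⟨k, hk, hkd, hrk⟩ := PP5K.index_exists hx.ff hx.pr hx.dn B G hG
  have hwx : ∀ j, 0 < PP5.tx t1 t2 j := fun j => PP5.tx_pos h10 h20 j
  have hws : ∀ j, 0 < PP5.sg t1 t2 j := fun j => PP5.sg_pos h10 h20 j
  have hx0 : x ≠ 0 := by
    rintro rfl
    obtain ⟨j, hj⟩ := hx.pr 2 Nat.prime_two
    exact hj (dvd_zero _)
  have hT : 0 < PP5.nw (PP5.tx t1 t2) x := PP5.nw_pos hwx hx0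
  refine ⟨PP5.nw (PP5.tx t1 t2) x, b, G, fun i => PP5.nw (PP5.sg t1 t2) (b i), k, ?_⟩
  refine ⟨⟨f1, f2, f3, f4, f5, f6⟩, hT, ?_, ?_, ?_, ?_, ?_, D.prod, ?_, ?_, ?_, ?_, ?_, hk, hkd, hrk,
    ?_, ⟨B, hB⟩⟩
  · intro j
    exact PP5.le_nw hwx x j
  · by_contra hc
    push Not at hc
    have h3 : PP5.nw (PP5.tx t1 t2) x < PP5.nw (PP5.tx t1 t2) x := by
      conv_lhs => unfold PP5.nw
      rw [pi_norm_lt_iff hT]
      intro j
      rw [Real.norm_eq_abs, abs_div, abs_of_pos (hwx j), div_lt_iff₀ (hwx j)]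
      exact hc j
    exact lt_irrefl _ h3
  · intro i
    exact PP5.nw_pos hws (D.ne i)
  · exact ⟨D.mono 0 1 (by decide), D.mono 1 2 (by decide), D.mono 2 3 (by decide)⟩
  · intro i j
    rw [le_div_iff₀ hT]
    exact D.gle i j
  · intro P Y hP hY
    obtain ⟨c, hc⟩ := (D.span P).1 hP
    refine ⟨c, ?_, ?_⟩
    · intro a
      rw [hc, sum_smul_apply']
    · intro i
      have hY0 : 0 ≤ Y := by
        have h4 := (abs_nonneg _).trans (hY 0)
        exact nonneg_of_mul_nonneg_left h4 (hws 0)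
      have h5 := D.bd c i
      rw [← hc] at h5
      have h6 := (PP5.nw_le_iff hws hY0 (v := P)).2 hY
      exact h5.trans (mul_le_mul_of_nonneg_left h6 (by linarith))
  · intro n hn
    apply (D.qd n).1
    have e : (∑ i, n i • b i) = fun a => ∑ i, n i * b i a := by
      funext a; exact sum_smul_apply' n b a
    rw [e]; exact hn
  · intro i
    exact (D.span (b i)).2 ⟨Pi.single i 1, (sum_single i b).symm⟩
  · intro i a
    exact PP5.le_nw hws (b i) a
  · intro n hn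
    apply D.inj n 0
    funext a
    rw [sum_smul_apply', sum_smul_apply', hn a]
    simp
  · intro i j a
    have h3 := hG i j a
    rw [hB, hB] at h3
    exact h3

end Pool.Agent.PP5S
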