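import Pool.Agent.PP5S.Pxs
import Pool.Agent.PP5S.Eoc

/-!
# PP5 section (e): (E2), cubes near the cone of a quadratic form; cubes of a box
-/

set_option autoImplicit false

namespace Pool.Agent.PP5S

open Matrix Finset Pool.Agent.PP5B

theorem diam_card {S : Finset ℤ} {d : ℝ} (hd : 0 ≤ d)
    (h : ∀ s ∈ S, ∀ t ∈ S, |(s : ℝ) - t| ≤ d) : (S.card : ℝ) ≤ d + 1 := by
  rcases S.eq_empty_or_nonempty with h0 | h0
  · rw [h0]; simp; linarith
  · have h1 : S ⊆ Finset.Icc (S.min' h0) (S.max' h0) := fun s hs =>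
      Finset.mem_Icc.mpr ⟨S.min'_le s hs, S.le_max' s hs⟩
    have h2 := Finset.card_le_card h1
    rw [Int.card_Icc] at h2
    have h3 := h _ (S.max'_mem h0) _ (S.min'_mem h0)
    have h4 : S.min' h0 ≤ S.max' h0 := S.min'_le _ (S.max'_mem h0)
    have h5 : ((S.max' h0 + 1 - S.min' h0).toNat : ℝ) = (S.max' h0 : ℝ) + 1 - S.min' h0 := by
      have h6 : ((S.max' h0 + 1 - S.min' h0).toNat : ℤ) = S.max' h0 + 1 - S.min' h0 :=
        Int.toNat_of_nonneg (by omega)
      rw [← Int.cast_natCast (R := ℝ), h6]; push_cast; ring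
    have h8 : (S.card : ℝ) ≤ ((S.max' h0 + 1 - S.min' h0).toNat : ℝ) := by exact_mod_cast h2
    rw [h5] at h8
    have := le_abs_self ((S.max' h0 : ℝ) - S.min' h0)
    linarith

/-- integers where a quadratic polynomial is small -/
theorem quad_card {S : Finset ℤ} {α β γ E : ℝ} (hα : α ≠ 0) (hE : 0 ≤ E)
    (h : ∀ s ∈ S, |α * (s : ℝ) ^ 2 + β * s + γ| ≤ E) :
    (S.card : ℝ) ≤ 2 * (√(2 * (E / |α|)) + 1) := by
  classical
  set E' := E / |α| with hE'
  have hE0 : 0 ≤ E' := by positivity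
  set ρ := β / (2 * α) with hρ
  have key : ∀ s ∈ S, ∀ t ∈ S, |((s : ℝ) + ρ) ^ 2 - ((t : ℝ) + ρ) ^ 2| ≤ 2 * E' := by
    intro s hs t ht
    have h1 := h s hs
    have h2 := h t ht
    have h3 : α * (((s : ℝ) + ρ) ^ 2 - ((t : ℝ) + ρ) ^ 2) =
        (α * (s : ℝ) ^ 2 + β * s + γ) - (α * (t : ℝ) ^ 2 + β * t + γ) := by
      rw [hρ]; field_simp; ring
    have h4 : |α| * |((s : ℝ) + ρ) ^ 2 - ((t : ℝ) + ρ) ^ 2| ≤ 2 * E := by
      rw [← abs_mul, h3]
      exact (abs_sub _ _).trans (by linarith)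
    have h5 : 0 < |α| := abs_pos.mpr hα
    rw [hE', ← mul_div_assoc, le_div_iff₀ h5]
    linarith
  have part : ∀ S' : Finset ℤ, S' ⊆ S →
      (∀ s ∈ S', ∀ t ∈ S', 0 ≤ ((s : ℝ) + ρ) * ((t : ℝ) + ρ)) →
      (S'.card : ℝ) ≤ √(2 * E') + 1 := by
    intro S' hsub hsg
    refine diam_card (Real.sqrt_nonneg _) ?_
    intro s hs t ht
    have h1 := key s (hsub hs) t (hsub ht)
    have h2 := hsg s hs t ht
    have h3 : ((s : ℝ) - t) ^ 2 ≤ 2 * E' := by
      have h4 : ((s : ℝ) - t) ^ 2 ≤ |((s : ℝ) + ρ) ^ 2 - ((t : ℝ) + ρ) ^ 2| := by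
        have e1 : ((s : ℝ) + ρ) ^ 2 - ((t : ℝ) + ρ) ^ 2 = ((s : ℝ) - t) * (((s : ℝ) + ρ) + ((t : ℝ) + ρ)) := by
          ring
        rw [e1, abs_mul]
        have e2 : |(s : ℝ) - t| ≤ |((s : ℝ) + ρ) + ((t : ℝ) + ρ)| := by
          apply sq_le_sq.mp
          nlinarith
        rw [← sq_abs, pow_two]
        exact mul_le_mul_of_nonneg_left e2 (abs_nonneg _)
      linarith
    exact Real.abs_le_sqrt h3
  have p1 := part (S.filter (fun s : ℤ => 0 ≤ (s : ℝ) + ρ)) (Finset.filter_subset _ _) (by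
    intro s hs t ht
    rw [Finset.mem_filter] at hs ht
    exact mul_nonneg hs.2 ht.2)
  have p2 := part (S.filter (fun s : ℤ => ¬ 0 ≤ (s : ℝ) + ρ)) (Finset.filter_subset _ _) (by
    intro s hs t ht
    rw [Finset.mem_filter] at hs ht
    exact mul_nonneg_of_nonpos_of_nonpos (by linarith [hs.2]) (by linarith [ht.2]))
  have hsum : (S.card : ℝ) = ((S.filter (fun s : ℤ => 0 ≤ (s : ℝ) + ρ)).card : ℝ)
      + ((S.filter (fun s : ℤ => ¬ 0 ≤ (s : ℝ) + ρ)).card : ℝ) := by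
    rw [← Finset.card_filter_add_card_filter_not (s := S) (fun s : ℤ => 0 ≤ (s : ℝ) + ρ)]
    push_cast; rfl
  rw [hsum]; linarith

/-- cube index -/
theorem cz_abs {h : ℕ} (hh : 0 < h) {m : Fin 4 → ℤ} {B : ℝ} (i : Fin 4) (hB : (h : ℝ) ≤ B)
    (hm : |(m i : ℝ)| ≤ B) :
    |(cz h m i : ℝ)| * h ≤ 2 * B ∧ |(m i : ℝ) - h * (cz h m i : ℝ)| ≤ h := by
  have h1 := cz_spec hh m i
  have h2 : (h : ℝ) * (cz h m i : ℝ) ≤ m i := by exact_mod_cast h1.1
  have h3 : (m i : ℝ) < (h : ℝ) * ((cz h m i : ℝ) + 1) := by exact_mod_cast h1.2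
  have h0 : (0 : ℝ) < h := by exact_mod_cast hh
  have h4 : |(m i : ℝ) - h * (cz h m i : ℝ)| ≤ h := by
    rw [abs_le]; constructor <;> linarith
  refine ⟨?_, h4⟩
  have h5 : |(cz h m i : ℝ)| * h = |(h : ℝ) * (cz h m i : ℝ)| := by
    rw [abs_mul, abs_of_pos h0]; ring
  rw [h5]
  have h6 : (h : ℝ) * (cz h m i : ℝ) = m i - (m i - h * (cz h m i : ℝ)) := by ring
  rw [h6]
  exact (abs_sub _ _).trans (by linarith)

/-- a set of integer points in a box, one coordinate possibly frozen -/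
theorem box_card {W : Finset (Fin 4 → ℤ)} {x : Fin 4 → ℝ} (hx : ∀ i, 1 ≤ x i)
    (hW : ∀ w ∈ W, ∀ i, |(w i : ℝ)| ≤ 6 * x i) : (W.card : ℝ) ≤ 13 ^ 4 * ∏ i, x i := by
  classical
  have h1 : W ⊆ Fintype.piFinset (fun i => Finset.Icc (-⌊6 * x i⌋) (⌊6 * x i⌋)) := by
    intro w hw
    rw [Fintype.mem_piFinset]
    intro i
    have h2 := abs_le.mp (hW w hw i)
    rw [Finset.mem_Icc]
    constructor
    · rw [neg_le]; exact Int.le_floor.mpr (by push_cast; linarith)
    · exact Int.le_floor.mpr h2.2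
  have h2 := Finset.card_le_card h1
  rw [Fintype.card_piFinset] at h2
  have h3 : ∀ i, ((Finset.Icc (-⌊6 * x i⌋) (⌊6 * x i⌋)).card : ℝ) ≤ 13 * x i := by
    intro i
    have h4 : (0 : ℤ) ≤ ⌊6 * x i⌋ := Int.floor_nonneg.mpr (by linarith [hx i])
    rw [Int.card_Icc]
    have h5 : ((⌊6 * x i⌋ + 1 - -⌊6 * x i⌋).toNat : ℝ) = 2 * (⌊6 * x i⌋ : ℝ) + 1 := by
      have h6 : ((⌊6 * x i⌋ + 1 - -⌊6 * x i⌋).toNat : ℤ) = ⌊6 * x i⌋ + 1 - -⌊6 * x i⌋ :=
        Int.toNat_of_nonneg (by omega)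
      rw [← Int.cast_natCast (R := ℝ), h6]; push_cast; ring
    rw [h5]
    have h8 : (⌊6 * x i⌋ : ℝ) ≤ 6 * x i := Int.floor_le _
    linarith [hx i]
  calc (W.card : ℝ) ≤ ((∏ i, (Finset.Icc (-⌊6 * x i⌋) (⌊6 * x i⌋)).card : ℕ) : ℝ) := by exact_mod_cast h2
    _ = ∏ i, ((Finset.Icc (-⌊6 * x i⌋) (⌊6 * x i⌋)).card : ℝ) := by push_cast; rfl
    _ ≤ ∏ i, (13 * x i) := Finset.prod_le_prod (fun i _ => Nat.cast_nonneg _) (fun i _ => h3 i)
    _ = _ := by rw [Finset.prod_mul_distrib]; simp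

/-- the quadratic form on a line -/
theorem q_line (A : Matrix (Fin 4) (Fin 4) ℝ) (w e : Fin 4 → ℝ) (s : ℝ) :
    (w + s • e) ⬝ᵥ (A *ᵥ (w + s • e)) =
      (e ⬝ᵥ (A *ᵥ e)) * s ^ 2 + (w ⬝ᵥ (A *ᵥ e) + e ⬝ᵥ (A *ᵥ w)) * s + w ⬝ᵥ (A *ᵥ w) := by
  rw [mulVec_add, mulVec_smul, dotProduct_add, add_dotProduct, add_dotProduct, dotProduct_smul,
    dotProduct_smul, smul_dotProduct, smul_dotProduct]
  simp only [smul_eq_mul]
  ring

/-- the points of a box on which the quadratic form is small: fibring over a direction `e` -/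
theorem dir_card {A : Matrix (Fin 4) (Fin 4) ℝ} {l x : Fin 4 → ℝ} {M u E h : ℝ} (hh : 0 < h)
    (hu : 0 < u) (hl : ∀ i, 0 < l i) (hM : 0 < M) (hx : ∀ i, x i = u * l i / h) (hx1 : ∀ i, 1 ≤ x i)
    (hE : 0 ≤ E) {Z : Finset (Fin 4 → ℤ)} (hZ : ∀ z ∈ Z, ∀ i, |(z i : ℝ)| ≤ 2 * x i)
    (hq : ∀ z ∈ Z, |(fun i => (z i : ℝ)) ⬝ᵥ (A *ᵥ fun i => (z i : ℝ))| ≤ E * (M * u ^ 2) / h ^ 2)
    (e : Fin 4 → ℤ) (i : Fin 4) (hei : e i = 1) (he : ∀ k, |(e k : ℝ)| * l i ≤ 2 * l k)
    (hqe : M ≤ 4 * (l i ^ 2 * |(fun i => (e i : ℝ)) ⬝ᵥ (A *ᵥ fun i => (e i : ℝ))|)) :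
    (Z.card : ℝ) ≤ 2 * 13 ^ 4 * (√(8 * E) + (x i)⁻¹) * ∏ i, x i := by
  classical
  set q : (Fin 4 → ℝ) → ℝ := fun v => v ⬝ᵥ (A *ᵥ v) with hqd
  set eR : Fin 4 → ℝ := fun i => (e i : ℝ) with heR
  have hxi : 0 < x i := by linarith [hx1 i]
  set W : Finset (Fin 4 → ℤ) := Z.image (fun z => z - (z i) • e) with hW
  -- number of lines
  have hWc : (W.card : ℝ) ≤ 13 ^ 4 * ((x i)⁻¹ * ∏ k, x k) := by
    have h1 : ∀ w ∈ W, ∀ k, |(w k : ℝ)| ≤ 6 * (Function.update x i 1) k := by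
      intro w hw k
      obtain ⟨z, hz, rfl⟩ := Finset.mem_image.mp hw
      simp only [Pi.sub_apply, Pi.smul_apply, smul_eq_mul]
      by_cases hk : k = i
      · subst hk
        rw [hei, mul_one, sub_self, Function.update_self]
        norm_num
      · rw [Function.update_of_ne hk]
        push_cast
        have h2 := hZ z hz k
        have h3 := hZ z hz i
        have h4 : |(e k : ℝ)| * x i ≤ 2 * x k := by
          rw [hx i, hx k]
          have := mul_le_mul_of_nonneg_left (he k) (show 0 ≤ u / h by positivity)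
          calc |(e k : ℝ)| * (u * l i / h) = u / h * (|(e k : ℝ)| * l i) := by ring
            _ ≤ u / h * (2 * l k) := this
            _ = _ := by ring
        calc |(z k : ℝ) - z i * e k| ≤ |(z k : ℝ)| + |(z i : ℝ) * e k| := abs_sub _ _
          _ ≤ 2 * x k + 2 * x i * |(e k : ℝ)| := by
            rw [abs_mul]
            exact add_le_add h2 (mul_le_mul_of_nonneg_right h3 (abs_nonneg _))
          _ ≤ 6 * x k := by linarith
    have h5 := box_card (x := Function.update x i 1) (by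
      intro k
      by_cases hk : k = i
      · subst hk; rw [Function.update_self]
      · rw [Function.update_of_ne hk]; exact hx1 k) h1
    refine h5.trans (le_of_eq ?_)
    congr 1
    rw [Finset.prod_update_of_mem (Finset.mem_univ i), one_mul,
      ← Finset.mul_prod_erase Finset.univ x (Finset.mem_univ i), ← mul_assoc, inv_mul_cancel₀ hxi.ne',
      one_mul, Finset.sdiff_singleton_eq_erase]
  -- points on a line
  have hfib : ∀ w ∈ W, ((Z.filter (fun z => z - (z i) • e = w)).card : ℝ) ≤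
      2 * (√(8 * E) * x i + 1) := by
    intro w _
    set F := Z.filter (fun z => z - (z i) • e = w) with hF
    have hFz : ∀ z ∈ F, z = w + (z i) • e := by
      intro z hz
      rw [hF, Finset.mem_filter] at hz
      rw [← hz.2]; simp
    have hinj : Set.InjOn (fun z : Fin 4 → ℤ => z i) F := by
      intro z hz z' hz' h
      rw [hFz z hz, hFz z' hz']
      simp only at h
      rw [h]
    have hc : F.card = (F.image (fun z : Fin 4 → ℤ => z i)).card :=
      (Finset.card_image_of_injOn hinj).symm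
    have hqe0 : q eR ≠ 0 := by
      intro h0
      have : M ≤ 0 := by
        refine hqe.trans (le_of_eq ?_)
        rw [show (fun i => (e i : ℝ)) ⬝ᵥ (A *ᵥ fun i => (e i : ℝ)) = q eR from rfl, h0]
        simp
      linarith
    have h1 := quad_card (S := F.image (fun z : Fin 4 → ℤ => z i)) (α := q eR)
      (β := (fun i => (w i : ℝ)) ⬝ᵥ (A *ᵥ eR) + eR ⬝ᵥ (A *ᵥ fun i => (w i : ℝ)))
      (γ := q (fun i => (w i : ℝ))) (E := E * (M * u ^ 2) / h ^ 2) hqe0 (by positivity) (by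
        intro s hs
        obtain ⟨z, hz, rfl⟩ := Finset.mem_image.mp hs
        have h2 := hq z (Finset.mem_filter.mp hz).1
        have h3 : (fun k => (z k : ℝ)) = (fun k => (w k : ℝ)) + (z i : ℝ) • eR := by
          ext k
          have := congrFun (hFz z hz) k
          simp only [Pi.add_apply, Pi.smul_apply, smul_eq_mul] at this ⊢
          show (z k : ℝ) = (w k : ℝ) + (z i : ℝ) * (e k : ℝ)
          exact_mod_cast this
        rw [h3, q_line] at h2
        exact h2)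
    rw [hc]
    refine h1.trans ?_
    have h4 : E * (M * u ^ 2) / h ^ 2 / |q eR| ≤ 4 * E * (x i) ^ 2 := by
      have h5 : 0 < |q eR| := abs_pos.mpr hqe0
      rw [div_le_iff₀ h5, hx i, div_le_iff₀ (by positivity)]
      have h6 : E * u ^ 2 * M ≤ E * u ^ 2 * (4 * (l i ^ 2 * |q eR|)) :=
        mul_le_mul_of_nonneg_left hqe (by positivity)
      calc E * (M * u ^ 2) = E * u ^ 2 * M := by ring
        _ ≤ E * u ^ 2 * (4 * (l i ^ 2 * |q eR|)) := h6
        _ = _ := by field_simp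
    have h7 : √(2 * (E * (M * u ^ 2) / h ^ 2 / |q eR|)) ≤ √(8 * E) * x i := by
      calc √(2 * (E * (M * u ^ 2) / h ^ 2 / |q eR|)) ≤ √(8 * E * (x i) ^ 2) :=
            Real.sqrt_le_sqrt (by linarith)
        _ = _ := by rw [Real.sqrt_mul (by positivity), Real.sqrt_sq hxi.le]
    linarith
  have hZc : (Z.card : ℝ) = ∑ w ∈ W, ((Z.filter (fun z => z - (z i) • e = w)).card : ℝ) := by
    rw [Finset.card_eq_sum_card_fiberwise (f := fun z => z - (z i) • e) (t := W)
      (fun z hz => Finset.mem_image_of_mem _ hz)]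
    push_cast; rfl
  rw [hZc]
  have hP : 0 < ∏ k, x k := Finset.prod_pos fun k _ => by linarith [hx1 k]
  calc ∑ w ∈ W, ((Z.filter (fun z => z - (z i) • e = w)).card : ℝ)
      ≤ ∑ _w ∈ W, 2 * (√(8 * E) * x i + 1) := Finset.sum_le_sum hfib
    _ = (W.card : ℝ) * (2 * (√(8 * E) * x i + 1)) := by rw [Finset.sum_const, nsmul_eq_mul]
    _ ≤ (13 ^ 4 * ((x i)⁻¹ * ∏ k, x k)) * (2 * (√(8 * E) * x i + 1)) :=
        mul_le_mul_of_nonneg_right hWc (by positivity)
    _ = _ := by field_simp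

/-- perturbation of the quadratic form -/
theorem q_pert {A : Matrix (Fin 4) (Fin 4) ℝ} {l a b : Fin 4 → ℝ} {M u κ : ℝ} (hM : 0 ≤ M)
    (hl : ∀ i, 0 < l i) (hA : ∀ i j, |A i j| * (l i * l j) ≤ M)
    (ha : ∀ i, |a i| ≤ u * l i) (hb : ∀ i, |b i| ≤ 2 * u * l i)
    (hab : ∀ i, |a i - b i| ≤ κ * u * l i) :
    |a ⬝ᵥ (A *ᵥ a) - b ⬝ᵥ (A *ᵥ b)| ≤ 48 * κ * (M * u ^ 2) := by
  have hA' : ∀ i j, |A i j| ≤ M * ((l i)⁻¹ * (l j)⁻¹) := by
    intro i j
    rw [← mul_inv, ← div_eq_mul_inv, le_div_iff₀ (mul_pos (hl i) (hl j))]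
    exact hA i j
  have hli : ∀ i, 0 < (l i)⁻¹ := fun i => inv_pos.mpr (hl i)
  have e : a ⬝ᵥ (A *ᵥ a) - b ⬝ᵥ (A *ᵥ b) = (a - b) ⬝ᵥ (A *ᵥ a) + b ⬝ᵥ (A *ᵥ (a - b)) := by
    rw [sub_dotProduct, mulVec_sub, dotProduct_sub]; ring
  have h1 : |(a - b) ⬝ᵥ (A *ᵥ a)| ≤ 16 * (M * ((κ * u) * u)) := by
    refine bil_le hli hli hM ?_ ?_ hA'
    · intro i
      rw [← div_eq_mul_inv, div_le_iff₀ (hl i)]; exact hab i
    · intro i
      rw [← div_eq_mul_inv, div_le_iff₀ (hl i)]; exact ha i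
  have h2 : |b ⬝ᵥ (A *ᵥ (a - b))| ≤ 16 * (M * ((2 * u) * (κ * u))) := by
    refine bil_le hli hli hM ?_ ?_ hA'
    · intro i
      rw [← div_eq_mul_inv, div_le_iff₀ (hl i)]; exact hb i
    · intro i
      rw [← div_eq_mul_inv, div_le_iff₀ (hl i)]; exact hab i
  rw [e]
  refine (abs_add_le _ _).trans ?_
  nlinarith

theorem q_single (A : Matrix (Fin 4) (Fin 4) ℝ) (i : Fin 4) :
    (fun k => (((Pi.single i 1 : Fin 4 → ℤ) k : ℤ) : ℝ)) ⬝ᵥ
      (A *ᵥ fun k => (((Pi.single i 1 : Fin 4 → ℤ) k : ℤ) : ℝ)) = A i i := by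
  have e : (fun k => (((Pi.single i 1 : Fin 4 → ℤ) k : ℤ) : ℝ)) = Pi.single i (1 : ℝ) := by
    ext k
    by_cases h : k = i
    · subst h; simp
    · simp [h]
  rw [e, single_dotProduct, mulVec_single]
  simp

theorem q_two (A : Matrix (Fin 4) (Fin 4) ℝ) (hA : ∀ i j, A i j = A j i) (i j : Fin 4) (b : ℤ) :
    (fun k => (((Pi.single i 1 + b • Pi.single j 1 : Fin 4 → ℤ) k : ℤ) : ℝ)) ⬝ᵥ
      (A *ᵥ fun k => (((Pi.single i 1 + b • Pi.single j 1 : Fin 4 → ℤ) k : ℤ) : ℝ)) =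
      A i i + 2 * b * A i j + b ^ 2 * A j j := by
  have e : (fun k => (((Pi.single i 1 + b • Pi.single j 1 : Fin 4 → ℤ) k : ℤ) : ℝ)) =
      Pi.single i (1 : ℝ) + (b : ℝ) • Pi.single j (1 : ℝ) := by
    ext k
    simp only [Pi.add_apply, Pi.smul_apply, smul_eq_mul]
    push_cast
    congr 1
    · by_cases h : k = i
      · subst h; simp
      · simp [h]
    · by_cases h : k = j
      · subst h; simp
      · simp [h]
  rw [e, q_line]
  simp only [single_dotProduct, mulVec_single]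
  simp
  rw [hA j i]
  ring

/-- (E2) -/
theorem coneB : ∃ K2 : ℝ, 0 < K2 ∧ ConeB K2 ∧ BoxB K2 := by
  refine ⟨42 * 13 ^ 4, by norm_num, ?_, ?_⟩
  · intro A l M u κ σ h N hA hl hAM hMex hM hu hκ hκ1 hσ hh hhl hN hNq
    have h0 : (0 : ℝ) < h := by exact_mod_cast hh
    set x : Fin 4 → ℝ := fun i => u * l i / h with hx
    have hul : ∀ i, 0 < u * l i := fun i => mul_pos hu (hl i)
    have hhl' : ∀ i, (h : ℝ) ≤ u * l i := by
      intro i
      have := mul_le_mul_of_nonneg_right hκ1 (hul i).le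
      linarith [hhl i]
    have hx1 : ∀ i, 1 ≤ x i := by
      intro i
      rw [hx]
      simp only
      rw [le_div_iff₀ h0]; linarith [hhl' i]
    have hZ : ∀ z ∈ N.image (cz h), ∀ i, |(z i : ℝ)| ≤ 2 * x i := by
      intro z hz i
      obtain ⟨m, hm, rfl⟩ := Finset.mem_image.mp hz
      have h1 := (cz_abs hh i (hhl' i) (hN m hm i)).1
      rw [hx]
      simp only
      rw [← mul_div_assoc, le_div_iff₀ h0]
      exact h1
    have hq : ∀ z ∈ N.image (cz h), |(fun i => (z i : ℝ)) ⬝ᵥ (A *ᵥ fun i => (z i : ℝ))| ≤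
        (σ + 48 * κ) * (M * u ^ 2) / (h : ℝ) ^ 2 := by
      intro z hz
      obtain ⟨m, hm, rfl⟩ := Finset.mem_image.mp hz
      have h1 := q_pert (A := A) (l := l) (a := fun i => (m i : ℝ))
        (b := (h : ℝ) • fun i => (cz h m i : ℝ)) (M := M) (u := u) (κ := κ) hM.le hl hAM
        (hN m hm) (by
          intro i
          have h2 := (cz_abs hh i (hhl' i) (hN m hm i)).1
          simp only [Pi.smul_apply, smul_eq_mul]
          rw [abs_mul, abs_of_pos h0]
          linarith) (by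
          intro i
          have h2 := (cz_abs hh i (hhl' i) (hN m hm i)).2
          simp only [Pi.smul_apply, smul_eq_mul]
          refine h2.trans ?_
          have := hhl i
          linarith)
      have h3 := hNq m hm
      rw [mulVec_smul, dotProduct_smul, smul_dotProduct] at h1
      simp only [smul_eq_mul] at h1
      set P := (fun i => (cz h m i : ℝ)) ⬝ᵥ (A *ᵥ fun i => (cz h m i : ℝ)) with hP
      set Q := (fun i => (m i : ℝ)) ⬝ᵥ (A *ᵥ fun i => (m i : ℝ)) with hQ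
      rw [le_div_iff₀ (by positivity)]
      have h4 : |P| * (h : ℝ) ^ 2 = |(h : ℝ) * ((h : ℝ) * P)| := by
        rw [abs_mul, abs_mul, abs_of_pos h0]; ring
      rw [h4]
      have h5 : (h : ℝ) * ((h : ℝ) * P) = Q - (Q - (h : ℝ) * ((h : ℝ) * P)) := by ring
      rw [h5]
      refine (abs_sub _ _).trans ?_
      have : (σ + 48 * κ) * (M * u ^ 2) = σ * (M * u ^ 2) + 48 * κ * (M * u ^ 2) := by ring
      rw [this]
      exact add_le_add h3 h1
    have hE : 0 ≤ σ + 48 * κ := by positivity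
    have hxx : ∏ i, x i = u ^ 4 * (∏ i, l i) / (h : ℝ) ^ 4 := by
      rw [hx, Finset.prod_div_distrib, Finset.prod_mul_distrib]; simp
    -- conclusion from a direction
    have fin : ∀ (e : Fin 4 → ℤ) (i : Fin 4), e i = 1 → (∀ k, |(e k : ℝ)| * l i ≤ 2 * l k) →
        M ≤ 4 * (l i ^ 2 * |(fun i => (e i : ℝ)) ⬝ᵥ (A *ᵥ fun i => (e i : ℝ))|) →
        ((N.image (cz h)).card : ℝ) * (h : ℝ) ^ 4 ≤ 42 * 13 ^ 4 * √(σ + κ) * (u ^ 4 * ∏ i, l i) := by
      intro e i h1 h2 h3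
      have h4 := dir_card (A := A) (l := l) (x := x) (M := M) (u := u) (E := σ + 48 * κ) (h := h) h0 hu hl
        hM (fun _ => rfl) hx1 hE hZ hq e i h1 h2 h3
      have h5 : √(8 * (σ + 48 * κ)) ≤ 20 * √(σ + κ) := by
        calc √(8 * (σ + 48 * κ)) ≤ √(20 ^ 2 * (σ + κ)) := Real.sqrt_le_sqrt (by nlinarith)
          _ = 20 * √(σ + κ) := by
            rw [Real.sqrt_mul (by norm_num), Real.sqrt_sq (by norm_num)]
      have h6 : (x i)⁻¹ ≤ √(σ + κ) := by
        have h7 : (x i)⁻¹ ≤ κ := by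
          rw [hx]
          simp only
          rw [inv_div, div_le_iff₀ (hul i)]
          exact hhl i
        refine h7.trans (Real.le_sqrt_of_sq_le ?_)
        nlinarith
      have hP : 0 < ∏ k, x k := Finset.prod_pos fun k _ => by linarith [hx1 k]
      have h8 : ((N.image (cz h)).card : ℝ) ≤ 42 * 13 ^ 4 * √(σ + κ) * ∏ k, x k := by
        refine h4.trans ?_
        apply mul_le_mul_of_nonneg_right _ hP.le
        linarith
      rw [hxx] at h8
      have h9 : (0 : ℝ) < (h : ℝ) ^ 4 := by positivity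
      calc ((N.image (cz h)).card : ℝ) * (h : ℝ) ^ 4
          ≤ (42 * 13 ^ 4 * √(σ + κ) * (u ^ 4 * (∏ i, l i) / (h : ℝ) ^ 4)) * (h : ℝ) ^ 4 :=
            mul_le_mul_of_nonneg_right h8 h9.le
        _ = _ := by field_simp
    by_cases hcase : ∃ i, M ≤ 4 * (l i ^ 2 * |A i i|)
    · obtain ⟨i, hi⟩ := hcase
      refine fin (Pi.single i 1) i (by simp) ?_ (by rw [q_single]; exact hi)
      intro k
      by_cases hk : k = i
      · subst hk; simp; linarith [hl k]
      · simp [hk]; exact (hl k).le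
    · push Not at hcase
      obtain ⟨i0, j0, hij⟩ := hMex
      have hne : i0 ≠ j0 := by
        intro h1
        subst h1
        have := hcase i0
        have e : |A i0 i0| * (l i0 * l i0) = l i0 ^ 2 * |A i0 i0| := by ring
        rw [e] at hij
        linarith
      have key : ∀ i j : Fin 4, i ≠ j → M = |A i j| * (l i * l j) → l i ≤ l j →
          ((N.image (cz h)).card : ℝ) * (h : ℝ) ^ 4 ≤
            42 * 13 ^ 4 * √(σ + κ) * (u ^ 4 * ∏ i, l i) := by
        intro i j hne hij hle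
        set b : ℤ := ⌈l j / l i⌉ with hb
        have hli := hl i
        have hlj := hl j
        have b1 : l j / l i ≤ (b : ℝ) := Int.le_ceil _
        have b2 : (b : ℝ) < l j / l i + 1 := Int.ceil_lt_add_one _
        have b3 : 1 ≤ l j / l i := by rw [le_div_iff₀ hli]; linarith
        have b4 : (b : ℝ) * l i ≤ 2 * l j := by
          have : (b : ℝ) ≤ 2 * (l j / l i) := by linarith
          calc (b : ℝ) * l i ≤ 2 * (l j / l i) * l i := mul_le_mul_of_nonneg_right this hli.le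
            _ = 2 * l j := by field_simp
        have b5 : l j ≤ (b : ℝ) * l i := by
          rw [div_le_iff₀ hli] at b1; exact b1
        have b6 : (0 : ℝ) < b := by linarith
        refine fin (Pi.single i 1 + b • Pi.single j 1) i (by simp [hne]) ?_ ?_
        · intro k
          by_cases hk : k = i
          · subst hk
            simp [hne]; linarith
          · by_cases hk2 : k = j
            · subst hk2
              simp [hk]
              rw [abs_of_pos b6]; exact b4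
            · simp [hk, hk2]; exact (hl k).le
        · rw [q_two A hA]
          have c1 := hcase i
          have c2 := hcase j
          have c3 : 2 * (b : ℝ) * |A i j| - |A i i| - (b : ℝ) ^ 2 * |A j j| ≤
              |A i i + 2 * b * A i j + (b : ℝ) ^ 2 * A j j| := by
            have d1 : 2 * (b : ℝ) * A i j = (A i i + 2 * b * A i j + (b : ℝ) ^ 2 * A j j) - A i i -
              (b : ℝ) ^ 2 * A j j := by ring
            have d2 : |2 * (b : ℝ) * A i j| = 2 * (b : ℝ) * |A i j| := by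
              rw [abs_mul, abs_of_pos (by linarith : (0 : ℝ) < 2 * b)]
            have d3 : |(b : ℝ) ^ 2 * A j j| = (b : ℝ) ^ 2 * |A j j| := by
              rw [abs_mul, abs_of_nonneg (sq_nonneg (b : ℝ))]
            have d4 : |2 * (b : ℝ) * A i j| ≤ |A i i + 2 * b * A i j + (b : ℝ) ^ 2 * A j j| + |A i i| +
                |(b : ℝ) ^ 2 * A j j| := by
              conv_lhs => rw [d1]
              refine (abs_sub _ _).trans ?_
              linarith [abs_sub (A i i + 2 * b * A i j + (b : ℝ) ^ 2 * A j j) (A i i)]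
            rw [d2, d3] at d4
            linarith
          set t : ℝ := (b : ℝ) * l i / l j with ht
          have t1 : 1 ≤ t := by rw [ht, le_div_iff₀ hlj]; linarith
          have t2 : t ≤ 2 := by rw [ht, div_le_iff₀ hlj]; linarith
          have e1 : l i ^ 2 * (2 * (b : ℝ) * |A i j|) = 2 * t * M := by
            rw [hij, ht]; field_simp
          have e2 : l i ^ 2 * ((b : ℝ) ^ 2 * |A j j|) = t ^ 2 * (l j ^ 2 * |A j j|) := by
            rw [ht]; field_simp
          have e3 : t ^ 2 * (l j ^ 2 * |A j j|) ≤ t ^ 2 * (M / 4) :=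
            mul_le_mul_of_nonneg_left (by linarith) (sq_nonneg t)
          have e4 : l i ^ 2 * (2 * (b : ℝ) * |A i j| - |A i i| - (b : ℝ) ^ 2 * |A j j|) ≤
              l i ^ 2 * |A i i + 2 * b * A i j + (b : ℝ) ^ 2 * A j j| :=
            mul_le_mul_of_nonneg_left c3 (sq_nonneg _)
          have e5 : M / 4 ≤ 2 * t * M - M / 4 - t ^ 2 * (M / 4) := by
            nlinarith [mul_nonneg (sub_nonneg.mpr t1) (sub_nonneg.mpr t2), mul_nonneg (mul_nonneg (sub_nonneg.mpr t1) (sub_nonneg.mpr t2)) hM.le, mul_nonneg (sub_nonneg.mpr t1) hM.le]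
          nlinarith
      rcases le_total (l i0) (l j0) with hle | hle
      · exact key i0 j0 hne hij hle
      · refine key j0 i0 hne.symm ?_ hle
        rw [hij, hA i0 j0]; ring
  · intro l u h N hl hu hh hhl hN
    have h0 : (0 : ℝ) < h := by exact_mod_cast hh
    set x : Fin 4 → ℝ := fun i => u * l i / h with hx
    have hx1 : ∀ i, 1 ≤ x i := by
      intro i
      rw [hx]
      simp only
      rw [le_div_iff₀ h0]; linarith [hhl i]
    have hZ : ∀ z ∈ N.image (cz h), ∀ i, |(z i : ℝ)| ≤ 6 * x i := by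
      intro z hz i
      obtain ⟨m, hm, rfl⟩ := Finset.mem_image.mp hz
      have h1 := (cz_abs hh i (hhl i) (hN m hm i)).1
      have h2 : |(cz h m i : ℝ)| ≤ 2 * x i := by
        rw [hx]
        simp only
        rw [← mul_div_assoc, le_div_iff₀ h0]
        exact h1
      linarith [hx1 i]
    have h1 := box_card hx1 hZ
    have hxx : ∏ i, x i = u ^ 4 * (∏ i, l i) / (h : ℝ) ^ 4 := by
      rw [hx, Finset.prod_div_distrib, Finset.prod_mul_distrib]; simp
    have hP : 0 < ∏ k, x k := Finset.prod_pos fun k _ => by linarith [hx1 k]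
    have h2 : ((N.image (cz h)).card : ℝ) ≤ 42 * 13 ^ 4 * ∏ k, x k := by
      refine h1.trans ?_
      nlinarith
    rw [hxx] at h2
    have h9 : (0 : ℝ) < (h : ℝ) ^ 4 := by positivity
    calc ((N.image (cz h)).card : ℝ) * (h : ℝ) ^ 4
        ≤ (42 * 13 ^ 4 * (u ^ 4 * (∏ i, l i) / (h : ℝ) ^ 4)) * (h : ℝ) ^ 4 :=
          mul_le_mul_of_nonneg_right h2 h9.le
      _ = _ := by field_simp

/-- the adapter -/
theorem conB {C : ℝ} (hC : 1 ≤ C) : ∃ K1 : ℝ, 0 < K1 ∧ ConB C K1 := by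
  obtain ⟨K1, h0, h1⟩ := e1c C hC
  refine ⟨K1, h0, ?_⟩
  intro G hsym hev hdet c hc hD T Y u l hT hY hu hl hG hcl hi S hS
  have h2 := h1 G hsym hev hdet c hc hD S (fun v hv => ⟨(hS v hv).1, (hS v hv).2.1, (hS v hv).2.2.1⟩)
    l T Y u hl hT hY hu (fun i j => by
      have := hG i j
      rwa [mul_assoc] at this) hcl hi (fun v hv => (hS v hv).2.2.2)
  refine h2.trans (le_of_eq ?_)
  ring

end Pool.Agent.PP5S
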