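import Pool.Agent.PP5.DL
import Pool.Agent.PP5.DJ
import Pool.Agent.PP5.LId

/-!
# PP5S/Shx: shortest vectors of `E_P`
-/

set_option autoImplicit false

namespace Pool.Agent.PP5S

/-- `x` is a shortest vector of `E_P` -/
structure Shx (t1 t2 : ℝ) (P : PP5.Sp) (x : Fin 10 → ℤ) : Prop where
  ie : PP5.InE P x
  ne : x ≠ 0
  mn : ∀ x' : Fin 10 → ℤ, PP5.InE P x' → x' ≠ 0 →
    PP5.nw (PP5.tx t1 t2) x ≤ PP5.nw (PP5.tx t1 t2) x'

/-- the vectors of `E_P` are isotropic -/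
theorem FF_of_InE {P : PP5.Sp} {x : Fin 10 → ℤ} (hP : P ≠ 0) (h : PP5.InE P x) :
    PP5L.FF x = 0 := by
  obtain ⟨i, hi⟩ : ∃ i, P i ≠ 0 := by
    by_contra hc
    push Not at hc
    exact hP (funext hc)
  have h1 := (PP5.InE_iff P x).1 h
  have h2 := PP5L.HP_HH x (PP5.emb P) (PP5.ix i)
  rw [h1] at h2
  have h3 : PP5L.HP x (0 : Fin 16 → ℤ) (PP5.ix i) = 0 := by
    have := PP5L.HP_smul x (0 : ℤ) (0 : Fin 16 → ℤ)
    rw [zero_smul, zero_smul] at this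
    rw [this]; rfl
  rw [h3] at h2
  have h4 : PP5.emb P (PP5.ix i) = P i := by
    show P (PP5.ex (PP5.ix i)) = P i
    rw [PP5.ex_ix]
  rw [h4] at h2
  exact (mul_eq_zero.1 h2.symm).resolve_right hi

theorem nw_finite {N : ℕ} {w : Fin N → ℝ} (hw : ∀ i, 0 < w i) (M : ℝ) :
    {v : Fin N → ℤ | PP5.nw w v ≤ M}.Finite := by
  rcases lt_or_ge M 0 with hM | hM
  · convert Set.finite_empty
    ext v
    simp only [Set.mem_setOf_eq, Set.mem_empty_iff_false, iff_false, not_le]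
    exact hM.trans_le (PP5.nw_nonneg w v)
  · have h1 : ∀ i, (Set.Icc (-⌊M * w i⌋) ⌊M * w i⌋).Finite := fun i => Set.finite_Icc _ _
    refine (Set.Finite.pi' h1).subset ?_
    intro v hv i
    have h2 := (PP5.nw_le_iff hw hM).1 hv i
    have h3 : |v i| ≤ ⌊M * w i⌋ := by
      rw [Int.le_floor]
      push_cast
      exact h2
    exact Set.mem_Icc.2 (abs_le.1 h3)

/-- a shortest vector exists -/
theorem Shx_exists {P : PP5.Sp} {x0 : Fin 10 → ℤ} (h0 : PP5.InE P x0) (hx0 : x0 ≠ 0)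
    {t1 t2 : ℝ} (h1 : 0 < t1) (h2 : 0 < t2) :
    ∃ x, Shx t1 t2 P x ∧ PP5.nw (PP5.tx t1 t2) x ≤ PP5.nw (PP5.tx t1 t2) x0 := by
  have hw : ∀ j, 0 < PP5.tx t1 t2 j := fun j => PP5.tx_pos h1 h2 j
  set M := PP5.nw (PP5.tx t1 t2) x0 with hM
  set A : Set (Fin 10 → ℤ) := {x | (PP5.InE P x ∧ x ≠ 0) ∧ PP5.nw (PP5.tx t1 t2) x ≤ M} with hA
  have hAf : A.Finite := (nw_finite hw M).subset fun x hx => hx.2
  obtain ⟨x, hxA, hx⟩ := Set.exists_min_image A (fun x => PP5.nw (PP5.tx t1 t2) x) hAf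
    ⟨x0, ⟨h0, hx0⟩, le_refl _⟩
  refine ⟨x, ⟨hxA.1.1, hxA.1.2, ?_⟩, hxA.2⟩
  intro x' hE hx'
  rcases le_or_gt (PP5.nw (PP5.tx t1 t2) x') M with h | h
  · exact hx x' ⟨⟨hE, hx'⟩, h⟩
  · exact hxA.2.trans h.le

/-- a shortest vector is primitive -/
theorem Shx.pr {t1 t2 : ℝ} (h1 : 0 < t1) (h2 : 0 < t2) {P : PP5.Sp} {x : Fin 10 → ℤ}
    (h : Shx t1 t2 P x) : ∀ p : ℕ, p.Prime → ∃ j, ¬ (p : ℤ) ∣ x j := by
  intro p hp
  by_contra hc
  push Not at hc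
  have hw : ∀ j, 0 < PP5.tx t1 t2 j := fun j => PP5.tx_pos h1 h2 j
  choose q hq using hc
  have hp0 : (p : ℤ) ≠ 0 := by exact_mod_cast hp.ne_zero
  have hq0 : q ≠ 0 := by
    rintro rfl
    apply h.ne
    funext j
    rw [hq j]; simp
  have hqE : PP5.InE P q := PP5.InE_prop hp0 (fun i => by rw [hq i]; ring) h.ie (B := 1)
  have h3 := h.mn q hqE hq0
  have hp2 : (2 : ℝ) ≤ p := by exact_mod_cast hp.two_le
  have h4 : PP5.nw (PP5.tx t1 t2) q ≤ PP5.nw (PP5.tx t1 t2) x / 2 := by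
    rw [PP5.nw_le_iff hw (by have := PP5.nw_nonneg (PP5.tx t1 t2) x; positivity)]
    intro j
    have h5 := PP5.le_nw hw x j
    rw [hq j] at h5
    push_cast at h5
    rw [abs_mul, abs_of_nonneg (by positivity : (0 : ℝ) ≤ p)] at h5
    have h6 := abs_nonneg (q j : ℝ)
    nlinarith
  have h5 := PP5.nw_pos hw h.ne
  linarith

end Pool.Agent.PP5S
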