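import Pool.Agent.PP5S.Xdx

/-!
# PP5S/Xe: the data attached to `x`, `D(x) = 0` allowed
-/

set_option autoImplicit false

namespace Pool.Agent.PP5S

open Matrix Finset

/-- the data attached to `x` (`T` is the scaled norm of `x`), `D(x) = 0` allowed -/
structure XE (C t1 t2 T : ℝ) (x : Fin 10 → ℤ) (b : Fin 4 → PP5.Sp)
    (G : Matrix (Fin 4) (Fin 4) ℤ) (l : Fin 4 → ℝ) : Prop where
  T0 : 0 < T
  Tle : ∀ j, |(x j : ℝ)| ≤ T * PP5.tx t1 t2 j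
  Tge : ∃ j, T * PP5.tx t1 t2 j ≤ |(x j : ℝ)|
  lp : ∀ i, 0 < l i
  mono : l 0 ≤ l 1 ∧ l 1 ≤ l 2 ∧ l 2 ≤ l 3
  gram : ∀ i j, |(G i j : ℝ)| ≤ C * l i * l j / T
  prod : ∏ i, l i ≤ C * T ^ 4
  span : ∀ (P : PP5.Sp) (Y : ℝ), PP5.InE P x → (∀ i, |(P i : ℝ)| ≤ Y * PP5.sg t1 t2 i) →
    ∃ n : Fin 4 → ℤ, (∀ a, P a = ∑ i, n i * b i a) ∧ ∀ i, |(n i : ℝ)| * l i ≤ C * Y
  quad : ∀ n : Fin 4 → ℤ, PP5.Qd (fun a => ∑ i, n i * b i a) → n ⬝ᵥ (G *ᵥ n) = 0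
  bE : ∀ i, PP5.InE (b i) x
  bl : ∀ i a, |(b i a : ℝ)| ≤ l i * PP5.sg t1 t2 a
  ind : ∀ n : Fin 4 → ℤ, (∀ a, ∑ i, n i * b i a = 0) → n = 0
  sym : ∀ i j, G i j = G j i
  ev : ∀ i, (2 : ℤ) ∣ G i i
  pol : ∀ i j a, PP5L.Bd (PP5.emb (b i)) (PP5.emb (b j)) a = G i j * x a
  bas : ∃ B : Module.Basis (Fin 4) ℤ (PP5L.Lx x), ∀ i, (B i : Fin 16 → ℤ) = PP5.emb (b i)

theorem XD.xe {C t1 t2 T : ℝ} {x : Fin 10 → ℤ} {b : Fin 4 → PP5.Sp}
    {G : Matrix (Fin 4) (Fin 4) ℤ} {l : Fin 4 → ℝ} {k : ℕ} (h : XD C t1 t2 T x b G l k) :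
    XE C t1 t2 T x b G l :=
  ⟨h.T0, h.Tle, h.Tge, h.lp, h.mono, h.gram, h.prod, h.span, h.quad, h.bE, h.bl, h.ind, h.xg.sym,
    h.xg.ev, h.pol, h.bas⟩

theorem Bd_add_l (s s' t : Fin 16 → ℤ) (j : Fin 10) :
    PP5L.Bd (s + s') t j = PP5L.Bd s t j + PP5L.Bd s' t j := by
  fin_cases j <;> (simp only [Fin.zero_eta, Fin.mk_one, Fin.reduceFinMk, PP5L.Bd, Matrix.cons_val]; simp only [Pi.add_apply]; ring)

theorem Bd_add_r (s t t' : Fin 16 → ℤ) (j : Fin 10) :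
    PP5L.Bd s (t + t') j = PP5L.Bd s t j + PP5L.Bd s t' j := by
  fin_cases j <;> (simp only [Fin.zero_eta, Fin.mk_one, Fin.reduceFinMk, PP5L.Bd, Matrix.cons_val]; simp only [Pi.add_apply]; ring)

theorem Bd_smul_l (c : ℤ) (s t : Fin 16 → ℤ) (j : Fin 10) :
    PP5L.Bd (c • s) t j = c * PP5L.Bd s t j := by
  fin_cases j <;>
    (simp only [Fin.zero_eta, Fin.mk_one, Fin.reduceFinMk, PP5L.Bd, Matrix.cons_val]; simp only [Pi.smul_apply, smul_eq_mul]; ring)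

theorem Bd_smul_r (c : ℤ) (s t : Fin 16 → ℤ) (j : Fin 10) :
    PP5L.Bd s (c • t) j = c * PP5L.Bd s t j := by
  fin_cases j <;>
    (simp only [Fin.zero_eta, Fin.mk_one, Fin.reduceFinMk, PP5L.Bd, Matrix.cons_val]; simp only [Pi.smul_apply, smul_eq_mul]; ring)

theorem Bd_self (s : Fin 16 → ℤ) (j : Fin 10) : PP5L.Bd s s j = 2 * PP5L.Qd s j := by
  fin_cases j <;> (simp only [Fin.zero_eta, Fin.mk_one, Fin.reduceFinMk, PP5L.Bd, PP5L.Qd, Matrix.cons_val]; ring)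

/-- the polar form on the span of the basis -/
theorem XE.pol' {C t1 t2 T : ℝ} {x : Fin 10 → ℤ} {b : Fin 4 → PP5.Sp}
    {G : Matrix (Fin 4) (Fin 4) ℤ} {l : Fin 4 → ℝ} (h : XE C t1 t2 T x b G l)
    (n m : Fin 4 → ℤ) (j : Fin 10) :
    PP5L.Bd (PP5.emb (∑ i, n i • b i)) (PP5.emb (∑ i, m i • b i)) j = (n ⬝ᵥ (G *ᵥ m)) * x j := by
  rw [PP5.emb_sum, PP5.emb_sum]
  simp only [Fin.sum_univ_four, Bd_add_l, Bd_add_r, Bd_smul_l, Bd_smul_r, h.pol, dotProduct,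
    mulVec]
  ring

theorem XE.quad' {C t1 t2 T : ℝ} {x : Fin 10 → ℤ} {b : Fin 4 → PP5.Sp}
    {G : Matrix (Fin 4) (Fin 4) ℤ} {l : Fin 4 → ℝ} (h : XE C t1 t2 T x b G l)
    (n : Fin 4 → ℤ) (hn : n ⬝ᵥ (G *ᵥ n) = 0) : PP5.Qd (fun a => ∑ i, n i * b i a) := by
  have e : (∑ i, n i • b i) = fun a => ∑ i, n i * b i a := by
    funext a; exact sum_smul_apply' n b a
  rw [← e, PP5.Qd_iff]
  intro j
  have h1 := h.pol' n n j
  rw [hn, zero_mul, Bd_self] at h1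
  omega

/-- the data exist -/
theorem XEx_exists : ∃ C : ℝ, 1 ≤ C ∧ ∀ t1 t2 : ℝ, 1 ≤ t1 → 1 ≤ t2 → ∀ x : Fin 10 → ℤ,
    (∀ p : ℕ, p.Prime → ∃ j, ¬ (p : ℤ) ∣ x j) → PP5L.FF x = 0 →
    Module.finrank ℤ (PP5L.Lx x) = 4 →
    ∃ (T : ℝ) (b : Fin 4 → PP5.Sp) (G : Matrix (Fin 4) (Fin 4) ℤ) (l : Fin 4 → ℝ),
      XE C t1 t2 T x b G l ∧ (∀ i, l i = PP5.nw (PP5.sg t1 t2) (b i)) ∧
      T = PP5.nw (PP5.tx t1 t2) x := by
  obtain ⟨C, hC, h⟩ := PP5.dual_exists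
  refine ⟨C, hC, ?_⟩
  intro t1 t2 h1 h2 x hpr hff hr
  have h10 : 0 < t1 := by linarith
  have h20 : 0 < t2 := by linarith
  obtain ⟨b, G, D⟩ := h x t1 t2 ((PP5.FF_eq x).symm.trans hff) hpr hr h10 h20
  obtain ⟨B, hB⟩ := D.bas
  have hG : ∀ i k j, PP5L.Bd (B i : Fin 16 → ℤ) (B k) j = G i k * x j := by
    intro i k j
    have h3 := D.pol (Pi.single i 1) (Pi.single k 1) j
    rw [sum_single, sum_single, ← hB, ← hB] at h3
    rw [h3]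
    congr 1
    rw [single_one_dotProduct, mulVec_single_one]
    rfl
  have hwx : ∀ j, 0 < PP5.tx t1 t2 j := fun j => PP5.tx_pos h10 h20 j
  have hws : ∀ j, 0 < PP5.sg t1 t2 j := fun j => PP5.sg_pos h10 h20 j
  have hx0 : x ≠ 0 := by
    rintro rfl
    obtain ⟨j, hj⟩ := hpr 2 Nat.prime_two
    exact hj (dvd_zero _)
  have nwge : ∀ {N : ℕ} {w : Fin N → ℝ} (_ : ∀ i, 0 < w i) {v : Fin N → ℤ} (_ : v ≠ 0),
      ∃ j, PP5.nw w v * w j ≤ |(v j : ℝ)| := by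
    intro N w hw v hv
    by_contra hc
    push Not at hc
    have hT := PP5.nw_pos hw hv
    have h3 : PP5.nw w v < PP5.nw w v := by
      conv_lhs => unfold PP5.nw
      rw [pi_norm_lt_iff hT]
      intro j
      rw [Real.norm_eq_abs, abs_div, abs_of_pos (hw j), div_lt_iff₀ (hw j)]
      exact hc j
    exact lt_irrefl _ h3
  have hT : 0 < PP5.nw (PP5.tx t1 t2) x := PP5.nw_pos hwx hx0
  have hqe : ∀ n : Fin 4 → ℤ, (∑ i, n i • b i) = fun a => ∑ i, n i * b i a := by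
    intro n
    funext a; exact sum_smul_apply' n b a
  refine ⟨PP5.nw (PP5.tx t1 t2) x, b, G, fun i => PP5.nw (PP5.sg t1 t2) (b i), ?_,
    fun i => rfl, rfl⟩
  refine ⟨hT, ?_, nwge hwx hx0, ?_, ?_, ?_, D.prod, ?_, ?_, ?_, ?_, ?_, D.sym, D.even,
    ?_, ⟨B, hB⟩⟩
  · intro j
    exact PP5.le_nw hwx x j
  · intro i
    exact PP5.nw_pos hws (D.ne i)
  · exact ⟨D.mono 0 1 (by decide), D.mono 1 2 (by decide), D.mono 2 3 (by decide)⟩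
  · intro i j
    rw [le_div_iff₀ hT]
    exact D.gle i j
  · intro P Y hP hY
    obtain ⟨c, hc⟩ := (D.span P).1 hP
    refine ⟨c, ?_, ?_⟩
    · intro a
      rw [hc, sum_smul_apply']
    · intro i
      have hY0 : 0 ≤ Y := by
        have h4 := (abs_nonneg _).trans (hY 0)
        exact nonneg_of_mul_nonneg_left h4 (hws 0)
      have h5 := D.bd c i
      rw [← hc] at h5
      have h6 := (PP5.nw_le_iff hws hY0 (v := P)).2 hY
      exact h5.trans (mul_le_mul_of_nonneg_left h6 (by linarith))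
  · intro n hn
    apply (D.qd n).1
    rw [hqe]; exact hn
  · intro i
    exact (D.span (b i)).2 ⟨Pi.single i 1, (sum_single i b).symm⟩
  · intro i a
    exact PP5.le_nw hws (b i) a
  · intro n hn
    apply D.inj n 0
    funext a
    rw [sum_smul_apply', sum_smul_apply', hn a]
    simp
  · intro i j a
    have h3 := hG i j a
    rw [hB, hB] at h3
    exact h3

end Pool.Agent.PP5S
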