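import Pool.Agent.PP5S.Sel
import Pool.Agent.PP5S.Shx
import Pool.Agent.PP5S.Xe

/-!
# PP5S/DPh: the three inputs of the assembly of (D')

`Gx c0 ...`: `x` is good (parameter `c0`).  `Nv`: the zeros of `G` in the box of the data.
(G) good `x`: few zeros have a bad `m`.  (E) exceptional `x`, `D(x) ≠ 0`.  (Z) `D(x) = 0`.
-/

set_option autoImplicit false

namespace Pool.Agent.PP5S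

open Matrix Finset Pool.Agent.PP5B

/-- `v` is a zero of `G` of the box of height `H` -/
structure Zv (G : Matrix (Fin 4) (Fin 4) ℤ) (l : Fin 4 → ℝ) (H : ℝ) (v : Fin 4 → ℤ) : Prop where
  pr : Pr4 v
  q : v ⬝ᵥ (G *ᵥ v) = 0
  bx : ∀ i, |(v i : ℝ)| * l i ≤ H

/-- `x` is good at `y`, with parameter `c0` -/
structure Gd (y c0 T : ℝ) (x : Fin 10 → ℤ) (G : Matrix (Fin 4) (Fin 4) ℤ) (l : Fin 4 → ℝ)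
    (k : ℕ) : Prop where
  Tlo : y ^ (2 / 5 - c0) ≤ T
  Dlo : T ^ 4 ≤ y ^ c0 * |(((PP5L.SS x).det : ℤ) : ℝ)|
  kup : (k : ℝ) ≤ y ^ c0
  l0 : y ^ (2 / 5 - c0) ≤ l 0
  A : ∀ n : ℕ, (∀ i j a b, (n : ℤ) ∣ G i a * G j b - G i b * G j a) → (n : ℝ) ≤ y ^ c0
  sq : ∀ f : ℤ, f ≠ 0 → |(f : ℝ)| ≤ y ^ (1000 * c0) → ¬ IsSquare (f * (PP5L.SS x).det)

/-- `m` is bad at `y`, with parameter `c` -/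
def Bm (y c C1 : ℝ) (G : Matrix (Fin 4) (Fin 4) ℤ) (l : Fin 4 → ℝ) (m : Fin 4 → ℤ) : Prop :=
  D2 G m = 0 ∨ y ^ c < (sl G m : ℝ) ∨
    ∀ i, y ^ c * |(m i : ℝ)| < C1 * (y / ∏ i, l i) ^ (1 / 3 : ℝ) * l i

/-- (NI): a plane of zeros through `v` has covolume at least `T ^ 3`, up to `y ^ c1` -/
def NI (y c1 T : ℝ) (G : Matrix (Fin 4) (Fin 4) ℤ) (l : Fin 4 → ℝ) (v : Fin 4 → ℤ) : Prop :=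
  ∀ w : Fin 4 → ℤ, w ⬝ᵥ (G *ᵥ w) = 0 → v ⬝ᵥ (G *ᵥ w) = 0 → (∃ i j, v i * w j ≠ v j * w i) →
    ∃ i j, T ^ 3 ≤ y ^ c1 * |((v i * w j - v j * w i : ℤ) : ℝ)| * l i * l j

/-- (LN) for the data: if `x` is a shortest vector of `E_P`, the planes of pure points through `P`
have covolume at least `T ^ 3` -/
def HLN (Cx : ℝ) : Prop := ∃ a C : ℝ, 0 ≤ a ∧ 1 ≤ C ∧ ∀ (t1 t2 T : ℝ) (x : Fin 10 → ℤ)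
  (b : Fin 4 → PP5.Sp) (G : Matrix (Fin 4) (Fin 4) ℤ) (l : Fin 4 → ℝ) (P : PP5.Sp)
  (v w : Fin 4 → ℤ), 1 ≤ t1 → 1 ≤ t2 → XE Cx t1 t2 T x b G l → PP5.Qd P →
  (∀ a, P a = ∑ i, v i * b i a) → Shx t1 t2 P x → v ⬝ᵥ (G *ᵥ v) = 0 → w ⬝ᵥ (G *ᵥ w) = 0 →
  v ⬝ᵥ (G *ᵥ w) = 0 → (∃ i j, v i * w j ≠ v j * w i) →
  ∃ i j, T ^ 3 ≤ C * (t1 * t2) ^ a * |((v i * w j - v j * w i : ℤ) : ℝ)| * l i * l j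

/-- (G): for good `x` few zeros are orthogonal to a bad `m` of the box -/
def HG (Cx C1 : ℝ) : Prop := ∀ c : ℝ, 0 < c → ∃ c0 η y0 C : ℝ, 0 < c0 ∧ c0 ≤ c ∧
  c0 ≤ 1 / 1000000 ∧ 0 < η ∧ 1 ≤ y0 ∧ 0 ≤ C ∧ ∀ y t1 t2 T : ℝ, y0 ≤ y → 1 ≤ t1 → 1 ≤ t2 →
  t1 * t2 ≤ y ^ c0 →
  ∀ (x : Fin 10 → ℤ) (b : Fin 4 → PP5.Sp) (G : Matrix (Fin 4) (Fin 4) ℤ) (l : Fin 4 → ℝ) (k : ℕ),
  Xok x → XD Cx t1 t2 T x b G l k → T ≤ C1 * y ^ (2 / 5 : ℝ) → Gd y c0 T x G l k →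
  ∀ V : Finset (Fin 4 → ℤ), (∀ v ∈ V, Zv G l (16 * Cx * y) v ∧ ∃ m : Fin 4 → ℤ, Pr4 m ∧
    m ⬝ᵥ v = 0 ∧ (∀ i, |(m i : ℝ)| ≤ C1 * (y / ∏ i, l i) ^ (1 / 3 : ℝ) * l i) ∧
    Bm y c C1 G l m) → (V.card : ℝ) ≤ C * y ^ (4 / 5 - η)

/-- (E): the exceptional `x` with `D(x) ≠ 0`; `v` comes from a point `P` of which `x` is a
shortest vector -/
def HE (Cx C1 : ℝ) : Prop := ∀ c0 : ℝ, 0 < c0 → c0 ≤ 1 / 1000000 → ∃ c1 d0 η y0 C : ℝ, 0 < c1 ∧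
  0 < d0 ∧ 0 < η ∧ 1 ≤ y0 ∧ 0 ≤ C ∧ ∀ y t1 t2 : ℝ, y0 ≤ y → 1 ≤ t1 → 1 ≤ t2 → t1 * t2 ≤ y ^ d0 →
  ∀ (Tf : (Fin 10 → ℤ) → ℝ) (bf : (Fin 10 → ℤ) → Fin 4 → PP5.Sp)
    (Gf : (Fin 10 → ℤ) → Matrix (Fin 4) (Fin 4) ℤ) (lf : (Fin 10 → ℤ) → Fin 4 → ℝ)
    (kf : (Fin 10 → ℤ) → ℕ) (E : Finset (Fin 10 → ℤ)) (Vf : (Fin 10 → ℤ) → Finset (Fin 4 → ℤ)),
  (∀ x ∈ E, Xok x ∧ XD Cx t1 t2 (Tf x) x (bf x) (Gf x) (lf x) (kf x) ∧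
    Tf x ≤ C1 * y ^ (2 / 5 : ℝ) ∧ ¬ Gd y c0 (Tf x) x (Gf x) (lf x) (kf x) ∧
    ∀ v ∈ Vf x, Zv (Gf x) (lf x) (16 * Cx * y) v ∧ NI y c1 (Tf x) (Gf x) (lf x) v) →
  ∑ x ∈ E, ((Vf x).card : ℝ) ≤ C * y ^ (4 - η)

/-- (Z): the points `P` with a shortest vector `x` of `E_P` with `D(x) = 0` -/
def HZ (C1 : ℝ) : Prop := ∃ d0 η y0 C : ℝ, 0 < d0 ∧ 0 < η ∧ 1 ≤ y0 ∧ 0 ≤ C ∧
  ∀ y t1 t2 : ℝ, y0 ≤ y → 1 ≤ t1 → 1 ≤ t2 → t1 * t2 ≤ y ^ d0 → ∀ S : Finset PP5.Sp,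
  (∀ P ∈ S, PP5.InP 16 (y ^ 4) y t1 t2 P ∧ ∃ x : Fin 10 → ℤ,
    (∀ p : ℕ, p.Prime → ∃ j, ¬ (p : ℤ) ∣ x j) ∧ PP5L.FF x = 0 ∧ (PP5L.SS x).det = 0 ∧
    Shx t1 t2 P x ∧ Module.finrank ℤ (PP5L.Lx x) = 4 ∧
    ∀ j, |(x j : ℝ)| ≤ C1 * y ^ (2 / 5 : ℝ) * PP5.tx t1 t2 j) →
  (S.card : ℝ) ≤ C * y ^ (4 - η)

end Pool.Agent.PP5S
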