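import Pool.Agent.PP5S.DPh
import Pool.Agent.PP5.DL
import Pool.Agent.PP5D.Ten

/-!
# PP5S/DPa: the top level of (D')
-/

set_option autoImplicit false

namespace Pool.Agent.PP5S

open Matrix Finset Pool.Agent.PP5B

/-- the number of `x` -/
theorem x_count {η C1 : ℝ} (hη : 0 < η) (hC1 : 1 ≤ C1) : ∃ d0 C : ℝ, 0 < d0 ∧ 0 ≤ C ∧
    ∀ y t1 t2 : ℝ, 1 ≤ y → 1 ≤ t1 → 1 ≤ t2 → t1 * t2 ≤ y ^ d0 → ∀ X : Finset (Fin 10 → ℤ),
    (∀ x ∈ X, PP5L.FF x = 0 ∧ ∀ j, |(x j : ℝ)| ≤ C1 * y ^ (2 / 5 : ℝ) * PP5.tx t1 t2 j) →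
    (X.card : ℝ) ≤ C * y ^ (16 / 5 + η) := by
  set eps : ℝ := min 1 (η / 4) with heps
  have he0 : 0 < eps := lt_min one_pos (by linarith)
  have he1 : eps ≤ 1 := min_le_left _ _
  have he2 : eps ≤ η / 4 := min_le_right _ _
  obtain ⟨C, hC, hten⟩ := PP5D.ten eps he0
  refine ⟨η / 36, C * C1 ^ (8 + eps), by linarith, by positivity, ?_⟩
  intro y t1 t2 hy h1 h2 ht X hX
  have hy0 : 0 < y := by linarith
  have hC10 : 0 < C1 := by linarith
  have htt : (t1 * t2) ^ 2 ≤ y ^ (2 * (η / 36)) := by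
    have h0 : 0 ≤ t1 * t2 := by positivity
    calc (t1 * t2) ^ 2 ≤ (y ^ (η / 36)) ^ 2 := pow_le_pow_left₀ h0 ht 2
      _ = _ := by
        rw [← Real.rpow_natCast, ← Real.rpow_mul hy0.le]; congr 1; push_cast; ring
  set T : ℝ := C1 * (y ^ (2 / 5 : ℝ) * y ^ (2 * (η / 36))) with hT
  have hT1 : 1 ≤ T := by
    have a1 : 1 ≤ y ^ (2 / 5 : ℝ) := Real.one_le_rpow hy (by norm_num)
    have a2 : 1 ≤ y ^ (2 * (η / 36)) := Real.one_le_rpow hy (by linarith)
    have a3 : 1 ≤ y ^ (2 / 5 : ℝ) * y ^ (2 * (η / 36)) := one_le_mul_of_one_le_of_one_le a1 a2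
    rw [hT]; nlinarith
  have h3 := hten T hT1 X (by
    intro x hx
    obtain ⟨hF, hb⟩ := hX x hx
    refine ⟨?_, ?_⟩
    · rw [← hF]; unfold PP5D.F10 PP5L.FF; ring
    · intro j
      refine (hb j).trans ?_
      have h4 := (tx_le h1 h2 j).2.trans htt
      rw [hT]
      calc C1 * y ^ (2 / 5 : ℝ) * PP5.tx t1 t2 j ≤ C1 * y ^ (2 / 5 : ℝ) * y ^ (2 * (η / 36)) :=
            mul_le_mul_of_nonneg_left h4 (by positivity)
        _ = _ := by ring)
  refine h3.trans ?_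
  have hT0 : 0 < T := by linarith
  have e1 : T ^ eps * T ^ 8 = T ^ (8 + eps) := by
    rw [← Real.rpow_natCast T 8, ← Real.rpow_add hT0]; congr 1; push_cast; ring
  rw [mul_assoc, e1, hT, Real.mul_rpow hC10.le (by positivity), ← Real.rpow_add hy0,
    ← Real.rpow_mul hy0.le]
  have e2 : y ^ ((2 / 5 + 2 * (η / 36)) * (8 + eps)) ≤ y ^ (16 / 5 + η) := by
    apply Real.rpow_le_rpow_of_exponent_le hy
    nlinarith
  calc C * (C1 ^ (8 + eps) * y ^ ((2 / 5 + 2 * (η / 36)) * (8 + eps)))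
      ≤ C * (C1 ^ (8 + eps) * y ^ (16 / 5 + η)) := by gcongr
    _ = _ := by ring

/-- `T ≤ Cp y ^ (2/5)` -/
theorem XD.T_le {C t1 t2 T : ℝ} {x : Fin 10 → ℤ} {b : Fin 4 → PP5.Sp}
    {G : Matrix (Fin 4) (Fin 4) ℤ} {l : Fin 4 → ℝ} {k : ℕ} (h : XD C t1 t2 T x b G l k)
    (h1 : 0 < t1) (h2 : 0 < t2) {M : ℝ} (hM : ∀ j, |(x j : ℝ)| ≤ M * PP5.tx t1 t2 j) : T ≤ M := by
  obtain ⟨j, hj⟩ := h.Tge
  exact le_of_mul_le_mul_right (hj.trans (hM j)) (PP5.tx_pos h1 h2 j)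

/-- the points of a fibre are determined by their coordinates -/
theorem card_fib {S : Finset PP5.Sp} {xf : PP5.Sp → Fin 10 → ℤ} {nf : PP5.Sp → Fin 4 → ℤ}
    {bf : (Fin 10 → ℤ) → Fin 4 → PP5.Sp} (hs : ∀ P ∈ S, ∀ a, P a = ∑ i, nf P i * bf (xf P) i a) :
    (S.card : ℝ) = ∑ x ∈ S.image xf, ((((S.filter (fun P => xf P = x)).image nf).card : ℕ) : ℝ) := by
  classical
  have h1 : S.card = ∑ x ∈ S.image xf, (S.filter (fun P => xf P = x)).card :=
    Finset.card_eq_sum_card_fiberwise (fun P hP => Finset.mem_image_of_mem _ hP)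
  rw [h1]
  push_cast
  refine Finset.sum_congr rfl fun x _ => ?_
  rw [Finset.card_image_of_injOn]
  intro P hP Q hQ hPQ
  obtain ⟨hP1, hP2⟩ := Finset.mem_filter.1 hP
  obtain ⟨hQ1, hQ2⟩ := Finset.mem_filter.1 hQ
  funext a
  rw [hs P hP1 a, hs Q hQ1 a, hPQ, hP2, hQ2]

theorem dp_of (hG : ∀ Cx C1 : ℝ, 1 ≤ Cx → 1 ≤ C1 → HG Cx C1)
    (hE : ∀ Cx C1 : ℝ, 1 ≤ Cx → 1 ≤ C1 → HE Cx C1) (hZ : ∀ C1 : ℝ, 1 ≤ C1 → HZ C1)
    (hN : ∀ Cx : ℝ, 1 ≤ Cx → HLN Cx)
    (Cx : ℝ) (hCx : 1 ≤ Cx) : ∃ C1 : ℝ, 1 ≤ C1 ∧ DP Cx C1 := by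
  classical
  set Cp : ℝ := 16 * 16 ^ (2 / 5 : ℝ) with hCp
  have hCp1 : 1 ≤ Cp := by
    have : (1 : ℝ) ≤ 16 ^ (2 / 5 : ℝ) := Real.one_le_rpow (by norm_num) (by norm_num)
    rw [hCp]; linarith
  obtain ⟨C1, hC1a, hC1, hsel⟩ := sel hCx hCp1
  refine ⟨C1, hC1, ?_⟩
  intro c hc
  obtain ⟨c0, η1, y1, K1, hc0, hc0c, hc0k, hη1, hy1, hK1, HGc⟩ := hG Cx C1 hCx hC1 c hc
  obtain ⟨c1, d2, η2, y2, K2, hc1, hd2, hη2, hy2, hK2, HEc⟩ := hE Cx C1 hCx hC1 c0 hc0 hc0k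
  obtain ⟨aN, CN, haN, hCN, HN⟩ := hN Cx hCx
  obtain ⟨d3, η3, y3, K3, hd3, hη3, hy3, hK3, HZc⟩ := hZ C1 hC1
  obtain ⟨d4, K4, hd4, hK4, hxc⟩ := x_count (η := η1 / 2) (C1 := C1) (by linarith) hC1
  set d5 : ℝ := c1 / (2 * (aN + 1)) with hd5
  have hd5p : 0 < d5 := by positivity
  set y5 : ℝ := CN ^ (2 / c1) with hy5
  have hy5one : 1 ≤ y5 := Real.one_le_rpow hCN (by positivity)
  set d0 : ℝ := min (min d2 d3) (min (min d4 d5) c0) with hd0
  set η : ℝ := min (η1 / 2) (min η2 η3) with hη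
  have hd02 : d0 ≤ d2 := (min_le_left _ _).trans (min_le_left _ _)
  have hd03 : d0 ≤ d3 := (min_le_left _ _).trans (min_le_right _ _)
  have hd04 : d0 ≤ d4 := ((min_le_right _ _).trans (min_le_left _ _)).trans (min_le_left _ _)
  have hd05 : d0 ≤ d5 := ((min_le_right _ _).trans (min_le_left _ _)).trans (min_le_right _ _)
  have hd0c : d0 ≤ c0 := (min_le_right _ _).trans (min_le_right _ _)
  have hηa : η ≤ η1 / 2 := min_le_left _ _
  have hηb : η ≤ η2 := (min_le_right _ _).trans (min_le_left _ _)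
  have hηc : η ≤ η3 := (min_le_right _ _).trans (min_le_right _ _)
  refine ⟨d0, η, max y1 (max y2 (max y3 y5)), K4 * K1 + K2 + K3,
    lt_min (lt_min hd2 hd3) (lt_min (lt_min hd4 hd5p) hc0), lt_min (by linarith) (lt_min hη2 hη3), hy1.trans (le_max_left _ _), by positivity, ?_⟩
  intro y t1 t2 hy h1 h2 ht Tf bf Gf lf kf hXD S hS
  have hya : y1 ≤ y := (le_max_left _ _).trans hy
  have hyb : y2 ≤ y := ((le_max_left _ _).trans (le_max_right _ _)).trans hy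
  have hyc : y3 ≤ y :=
    (((le_max_left _ _).trans (le_max_right _ _)).trans (le_max_right _ _)).trans hy
  have hyd : y5 ≤ y :=
    (((le_max_right _ _).trans (le_max_right _ _)).trans (le_max_right _ _)).trans hy
  have hyone : 1 ≤ y := hy1.trans hya
  have hy0 : 0 < y := by linarith
  have h10 : 0 < t1 := by linarith
  have h20 : 0 < t2 := by linarith
  have htd : ∀ d : ℝ, d0 ≤ d → t1 * t2 ≤ y ^ d := fun d hd =>
    ht.trans (Real.rpow_le_rpow_of_exponent_le hyone hd)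
  have hCNy : CN * (t1 * t2) ^ aN ≤ y ^ c1 := by
    have q1 : CN ≤ y ^ (c1 / 2) := by
      have q2 : CN = y5 ^ (c1 / 2) := by
        rw [hy5, ← Real.rpow_mul (by linarith)]
        have : 2 / c1 * (c1 / 2) = 1 := by field_simp
        rw [this, Real.rpow_one]
      rw [q2]
      exact Real.rpow_le_rpow (by linarith) hyd (by positivity)
    have q3 : (t1 * t2) ^ aN ≤ y ^ (c1 / 2) := by
      calc (t1 * t2) ^ aN ≤ (y ^ d5) ^ aN :=
            Real.rpow_le_rpow (by positivity) (htd d5 hd05) haN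
        _ = y ^ (d5 * aN) := by rw [← Real.rpow_mul hy0.le]
        _ ≤ y ^ (c1 / 2) := by
            apply Real.rpow_le_rpow_of_exponent_le hyone
            rw [hd5, div_mul_eq_mul_div, div_le_div_iff₀ (by positivity) (by norm_num)]
            nlinarith
    calc CN * (t1 * t2) ^ aN ≤ y ^ (c1 / 2) * y ^ (c1 / 2) :=
          mul_le_mul q1 q3 (by positivity) (by positivity)
      _ = y ^ c1 := by rw [← Real.rpow_add hy0]; congr 1; ring
  -- the choice of `x`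
  have hex : ∀ P : PP5.Sp, ∃ x : Fin 10 → ℤ, P ∈ S →
      (∀ p : ℕ, p.Prime → ∃ j, ¬ (p : ℤ) ∣ x j) ∧ PP5L.FF x = 0 ∧ Shx t1 t2 P x ∧
      Module.finrank ℤ (PP5L.Lx x) = 4 ∧
      ∀ j, |(x j : ℝ)| ≤ Cp * y ^ (2 / 5 : ℝ) * PP5.tx t1 t2 j := by
    intro P
    by_cases hP : P ∈ S
    · obtain ⟨xx, b1, b2, b3, b4, b5⟩ := PP5.pair_x (C := 16) (by norm_num) hy0 h10 h20 (hS P hP)
      have b6 : xx ≠ 0 := by
        rintro rfl
        obtain ⟨j, hj⟩ := b1 2 Nat.prime_two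
        exact hj (dvd_zero _)
      have hP0 : P ≠ 0 := by
        rintro rfl
        exact (hS 0 hP).pr 2 Nat.prime_two (fun i => dvd_zero _)
      obtain ⟨x, a3, a4'⟩ := Shx_exists b3 b6 h10 h20
      have a4 := a4'.trans b4
      have a1 := a3.pr h10 h20
      have a2 := FF_of_InE hP0 a3.ie
      have a5 := PP5.rank4 (hS P hP).nd a3.ie ((PP5.FF_eq x).symm.trans a2) a1
      refine ⟨x, fun _ => ⟨a1, a2, a3, a5, ?_⟩⟩
      intro j
      have hwx : ∀ j, 0 < PP5.tx t1 t2 j := fun j => PP5.tx_pos h10 h20 j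
      have h3 := PP5.le_nw hwx x j
      refine h3.trans (mul_le_mul_of_nonneg_right ?_ (hwx j).le)
      refine a4.trans (le_of_eq ?_)
      rw [hCp, Real.mul_rpow (by norm_num) hy0.le]; ring
    · exact ⟨0, fun h => absurd h hP⟩
  choose xf hxf using hex
  have hxC1 : ∀ P ∈ S, ∀ j, |(xf P j : ℝ)| ≤ C1 * y ^ (2 / 5 : ℝ) * PP5.tx t1 t2 j := by
    intro P hP j
    refine ((hxf P hP).2.2.2.2 j).trans ?_
    apply mul_le_mul_of_nonneg_right _ (PP5.tx_pos h10 h20 j).le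
    exact mul_le_mul_of_nonneg_right hC1a (by positivity)
  -- the points with `D(x) ≠ 0`
  set N : Finset PP5.Sp := S.filter (fun P => (PP5L.SS (xf P)).det ≠ 0) with hN
  have hok : ∀ P ∈ N, Xok (xf P) := by
    intro P hP
    obtain ⟨hPS, hPd⟩ := Finset.mem_filter.1 hP
    obtain ⟨a1, a2, -⟩ := hxf P hPS
    exact ⟨a1, a2, hPd⟩
  have hex2 : ∀ P : PP5.Sp, ∃ m n : Fin 4 → ℤ, P ∈ N →
      (∀ a, P a = ∑ i, n i * bf (xf P) i a) ∧
      (∀ i, |(n i : ℝ)| * lf (xf P) i ≤ 16 * Cx * y) ∧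
      Pr4 n ∧ n ⬝ᵥ (Gf (xf P) *ᵥ n) = 0 ∧ Pr4 m ∧ m ⬝ᵥ n = 0 ∧
      ∀ i, |(m i : ℝ)| ≤ C1 * (y / ∏ i, lf (xf P) i) ^ (1 / 3 : ℝ) * lf (xf P) i := by
    intro P
    by_cases hP : P ∈ N
    · have hPS := (Finset.mem_filter.1 hP).1
      have hX := hXD (xf P) (hok P hP)
      obtain ⟨m, n, h⟩ := hsel y t1 t2 (Tf (xf P)) (xf P) (bf (xf P)) (Gf (xf P)) (lf (xf P))
        (kf (xf P)) P hyone hX (hX.T_le h10 h20 (hxf P hPS).2.2.2.2) (hS P hPS) (hxf P hPS).2.2.1.ie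
      exact ⟨m, n, fun _ => h⟩
    · exact ⟨0, 0, fun h => absurd h hP⟩
  choose mf nf hmn using hex2
  set GD : PP5.Sp → Prop := fun P =>
    Gd y c0 (Tf (xf P)) (xf P) (Gf (xf P)) (lf (xf P)) (kf (xf P)) with hGD
  set BM : PP5.Sp → Prop := fun P => Bm y c C1 (Gf (xf P)) (lf (xf P)) (mf P) with hBM
  set B1 := N.filter (fun P => GD P ∧ BM P) with hB1
  set B2 := N.filter (fun P => ¬ GD P) with hB2
  set B3 := S.filter (fun P => (PP5L.SS (xf P)).det = 0) with hB3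
  refine ⟨B1 ∪ B2 ∪ B3, ?_, ?_, ?_⟩
  · intro P hP
    rw [Finset.mem_union, Finset.mem_union] at hP
    rcases hP with (hP | hP) | hP
    · exact (Finset.mem_filter.1 (Finset.mem_filter.1 hP).1).1
    · exact (Finset.mem_filter.1 (Finset.mem_filter.1 hP).1).1
    · exact (Finset.mem_filter.1 hP).1
  · -- the count
    have c1 : (B1.card : ℝ) ≤ K4 * K1 * y ^ (4 - η) := by
      rw [card_fib (S := B1) (xf := xf) (nf := nf) (bf := bf) (fun P hP => (hmn P (Finset.mem_filter.1 hP).1).1)]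
      have h3 : ∀ x ∈ B1.image xf, ((((B1.filter (fun P => xf P = x)).image nf).card : ℕ) : ℝ) ≤
          K1 * y ^ (4 / 5 - η1) := by
        intro x hx
        obtain ⟨P0, hP0, hxP0⟩ := Finset.mem_image.1 hx
        obtain ⟨hP0N, hP0g, -⟩ := Finset.mem_filter.1 hP0
        have hP0S := (Finset.mem_filter.1 hP0N).1
        have hX := hXD (xf P0) (hok P0 hP0N)
        have hXok := hok P0 hP0N
        have hT := hX.T_le h10 h20 (hxC1 P0 hP0S)
        change Gd y c0 (Tf (xf P0)) (xf P0) (Gf (xf P0)) (lf (xf P0)) (kf (xf P0)) at hP0g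
        rw [hxP0] at hX hT hP0g hXok
        apply HGc y t1 t2 (Tf x) hya h1 h2 (htd c0 hd0c) x (bf x) (Gf x) (lf x) (kf x) hXok
          hX hT hP0g
        intro v hv
        obtain ⟨P, hP, rfl⟩ := Finset.mem_image.1 hv
        obtain ⟨hPB, hPx⟩ := Finset.mem_filter.1 hP
        obtain ⟨hPN, -, hPb⟩ := Finset.mem_filter.1 hPB
        obtain ⟨-, n2, n3, n4, m1, m2, m3⟩ := hmn P hPN
        change Bm y c C1 (Gf (xf P)) (lf (xf P)) (mf P) at hPb
        rw [hPx] at n2 n4 m3 hPb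
        exact ⟨⟨n3, n4, n2⟩, mf P, m1, m2, m3, hPb⟩
      refine (Finset.sum_le_sum h3).trans ?_
      rw [Finset.sum_const, nsmul_eq_mul]
      have h4 := hxc y t1 t2 hyone h1 h2 (htd d4 hd04) (B1.image xf) (by
        intro x hx
        obtain ⟨P0, hP0, rfl⟩ := Finset.mem_image.1 hx
        have hP0N := (Finset.mem_filter.1 hP0).1
        have hP0S := (Finset.mem_filter.1 hP0N).1
        exact ⟨(hok P0 hP0N).ff, hxC1 P0 hP0S⟩)
      calc ((B1.image xf).card : ℝ) * (K1 * y ^ (4 / 5 - η1))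
          ≤ (K4 * y ^ (16 / 5 + η1 / 2)) * (K1 * y ^ (4 / 5 - η1)) :=
            mul_le_mul_of_nonneg_right h4 (by positivity)
        _ = K4 * K1 * (y ^ (16 / 5 + η1 / 2) * y ^ (4 / 5 - η1)) := by ring
        _ = K4 * K1 * y ^ (4 - η1 / 2) := by
            rw [← Real.rpow_add hy0]; congr 2; ring
        _ ≤ _ := by
            apply mul_le_mul_of_nonneg_left _ (by positivity)
            exact Real.rpow_le_rpow_of_exponent_le hyone (by linarith)
    have c2 : (B2.card : ℝ) ≤ K2 * y ^ (4 - η) := by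
      rw [card_fib (S := B2) (xf := xf) (nf := nf) (bf := bf) (fun P hP => (hmn P (Finset.mem_filter.1 hP).1).1)]
      refine (HEc y t1 t2 hyb h1 h2 (htd d2 hd02) Tf bf Gf lf kf (B2.image xf)
        (fun x => (B2.filter (fun P => xf P = x)).image nf) ?_).trans ?_
      · intro x hx
        obtain ⟨P0, hP0, hxP0⟩ := Finset.mem_image.1 hx
        obtain ⟨hP0N, hP0g⟩ := Finset.mem_filter.1 hP0
        have hP0S := (Finset.mem_filter.1 hP0N).1
        have hX := hXD (xf P0) (hok P0 hP0N)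
        have hXok := hok P0 hP0N
        have hT := hX.T_le h10 h20 (hxC1 P0 hP0S)
        change ¬ Gd y c0 (Tf (xf P0)) (xf P0) (Gf (xf P0)) (lf (xf P0)) (kf (xf P0)) at hP0g
        rw [hxP0] at hX hT hP0g hXok
        refine ⟨hXok, hX, hT, hP0g, ?_⟩
        intro v hv
        obtain ⟨P, hP, rfl⟩ := Finset.mem_image.1 hv
        obtain ⟨hPB, hPx⟩ := Finset.mem_filter.1 hP
        obtain ⟨hPN, -⟩ := Finset.mem_filter.1 hPB
        obtain ⟨n1, n2, n3, n4, -, -, -⟩ := hmn P hPN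
        have hPS := (Finset.mem_filter.1 hPN).1
        have hsh := (hxf P hPS).2.2.1
        rw [hPx] at n1 n2 n4 hsh
        refine ⟨⟨n3, n4, n2⟩, ?_⟩
        intro w w1 w2 w3
        obtain ⟨i, j, hij⟩ := HN t1 t2 (Tf x) x (bf x) (Gf x) (lf x) P (nf P) w h1 h2 hX.xe
          (hS P hPS).qd n1 hsh n4 w1 w2 w3
        refine ⟨i, j, hij.trans ?_⟩
        have hli := (hX.lp i).le
        have hlj := (hX.lp j).le
        gcongr
      · apply mul_le_mul_of_nonneg_left _ hK2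
        exact Real.rpow_le_rpow_of_exponent_le hyone (by linarith)
    have c3 : (B3.card : ℝ) ≤ K3 * y ^ (4 - η) := by
      refine (HZc y t1 t2 hyc h1 h2 (htd d3 hd03) B3 ?_).trans ?_
      · intro P hP
        obtain ⟨hPS, hPd⟩ := Finset.mem_filter.1 hP
        obtain ⟨a1, a2, a3, a4, -⟩ := hxf P hPS
        exact ⟨hS P hPS, xf P, a1, a2, hPd, a3, a4, hxC1 P hPS⟩
      · apply mul_le_mul_of_nonneg_left _ hK3
        exact Real.rpow_le_rpow_of_exponent_le hyone (by linarith)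
    have h5 : ((B1 ∪ B2 ∪ B3).card : ℝ) ≤ B1.card + B2.card + B3.card := by
      have h6 := Finset.card_union_le (B1 ∪ B2) B3
      have h7 := Finset.card_union_le B1 B2
      have : (B1 ∪ B2 ∪ B3).card ≤ B1.card + B2.card + B3.card := by omega
      exact_mod_cast this
    calc _ ≤ K4 * K1 * y ^ (4 - η) + K2 * y ^ (4 - η) + K3 * y ^ (4 - η) := by linarith
      _ = _ := by ring
  · -- the good points
    intro P hP hPB
    rw [Finset.mem_union, Finset.mem_union, not_or, not_or] at hPB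
    obtain ⟨⟨q1, q2⟩, q3⟩ := hPB
    have hdet : (PP5L.SS (xf P)).det ≠ 0 := fun h => q3 (Finset.mem_filter.2 ⟨hP, h⟩)
    have hPN : P ∈ N := Finset.mem_filter.2 ⟨hP, hdet⟩
    have hgd : GD P := by
      by_contra h
      exact q2 (Finset.mem_filter.2 ⟨hPN, h⟩)
    have hbm : ¬ BM P := fun h => q1 (Finset.mem_filter.2 ⟨hPN, hgd, h⟩)
    have hX := hXD (xf P) (hok P hPN)
    obtain ⟨n1, n2, n3, n4, m1, m2, m3⟩ := hmn P hPN
    have hmono : ∀ a b : ℝ, a ≤ b → y ^ a ≤ y ^ b := fun a b h =>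
      Real.rpow_le_rpow_of_exponent_le hyone h
    change ¬ Bm y c C1 (Gf (xf P)) (lf (xf P)) (mf P) at hbm
    simp only [Bm, not_or] at hbm
    obtain ⟨w1, w2, w3⟩ := hbm
    push Not at w2 w3
    refine ⟨xf P, mf P, nf P, ?_⟩
    exact {
      ok := hok P hPN
      inE := (hxf P hP).2.2.1.ie
      sum := n1
      Tlo := (hmono _ _ (by linarith)).trans hgd.Tlo
      Tup := hX.T_le h10 h20 (hxC1 P hP)
      Dlo := hgd.Dlo.trans (mul_le_mul_of_nonneg_right (hmono _ _ hc0c) (abs_nonneg _))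
      kup := hgd.kup.trans (hmono _ _ hc0c)
      l0 := (hmono _ _ (by linarith)).trans hgd.l0
      mp := m1
      mn := m2
      D2n := w1
      slu := w2
      mup := m3
      mlo := w3 }

end Pool.Agent.PP5S
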