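import Pool.Agent.PP5S.DPa
import Pool.Agent.PP5Q.Hg
import Pool.Agent.PP5P.Hh
import Pool.Agent.PP5Z.Fin
import Pool.Agent.PP5G.LnF

/-!
# PP5S/DPall: (D'), unconditional
-/

set_option autoImplicit false

namespace Pool.Agent.PP5S

theorem dp_all (Cx : ℝ) (hCx : 1 ≤ Cx) : ∃ C1 : ℝ, 1 ≤ C1 ∧ DP Cx C1 :=
  dp_of (fun Cx C1 h h' => PP5Q.hg Cx C1 h h') (fun Cx C1 h _ => PP5P.he Cx C1 h)
    (fun C1 _ => PP5Z.hz C1) (fun Cx _ => PP5G.hln Cx) Cx hCx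

end Pool.Agent.PP5S
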