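import Pool.Agent.PP5S.Shl
import Pool.Agent.PP5K.Kcc
import Pool.Agent.PP5A.Main

/-!
# PP5S/Adc: theorem C and the archimedean count, in the form used in section (e) (difficulty 1)

`CC_exists`: `PP5K.cck δ A`, `c3 := min c3 ck`.  `ACB_exists`: `PP5A.arch_count` with `p = 3/8`.
-/

set_option autoImplicit false

namespace Pool.Agent.PP5S

theorem CC_exists {δ A : ℝ} (hδ : 0 < δ) (hA : 0 < A) : ∃ δ1 c3 Cc T0 : ℝ, 0 < δ1 ∧ 0 < c3 ∧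
    0 < Cc ∧ 2 ≤ T0 ∧ ∀ y : ℝ, T0 ≤ y → ∃ Θ : (Fin 10 → ℤ) → ℝ, CC y δ δ1 A c3 Cc Θ := by
  obtain ⟨δ1, c3, ck, C, T0, hδ1, hc3, hck, hC, hT0, h⟩ := PP5K.cck δ A hδ hA
  refine ⟨δ1, min c3 ck, C, T0, hδ1, lt_min hc3 hck, hC, hT0, ?_⟩
  intro y hy
  have hy1 : 1 ≤ y := by linarith
  obtain ⟨Θ, h0, h1, h2⟩ := h y hy
  have e3 : y ^ min c3 ck ≤ y ^ c3 := Real.rpow_le_rpow_of_exponent_le hy1 (min_le_left _ _)
  have ek : y ^ min c3 ck ≤ y ^ ck := Real.rpow_le_rpow_of_exponent_le hy1 (min_le_right _ _)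
  refine ⟨Θ, h0, ?_, ?_⟩
  · intro x hx hD c hc1 hc2 A0 H hH om ix S hS
    refine h1 x hx hD c hc1 hc2 A0 H hH om ix S ?_
    intro m hm
    obtain ⟨a1, a2, a3, a4, a5, a6⟩ := hS m hm
    exact ⟨a1, a2, a3, a4, a5, a6.trans e3⟩
  · intro ρ R τ Y j hs S kf hS
    refine h2 ρ R τ Y j hs S (fun x hx => (hS x hx).1) kf ?_
    intro x hx
    obtain ⟨-, a1, a2, a3⟩ := hS x hx
    exact ⟨a1, a3.trans ek, a2⟩

theorem ACB_exists {C0 : ℝ} (hC0 : 1 ≤ C0) : ∃ CA : ℝ, 0 ≤ CA ∧ ACB C0 CA := by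
  obtain ⟨C', h0, h⟩ := PP5A.arch_count (p := 3 / 8) (by norm_num) (by norm_num) hC0
  refine ⟨C', h0, ?_⟩
  intro K ε hK h1 h2 Ns hN
  have hC : 0 < C0 := by linarith
  have h3 := h K ε hK h1 h2 Ns (by
    intro k hk
    obtain ⟨a1, ⟨j, a2⟩, a3, a4⟩ := hN k hk
    refine ⟨a1, ⟨j, ?_⟩, a3, ?_⟩
    · rw [div_le_iff₀ hC]; linarith
    · linarith)
  have e : (2 * (3 / 8 : ℝ)) = 3 / 4 := by norm_num
  rw [e] at h3
  linarith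

end Pool.Agent.PP5S
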