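import Mathlib

/-!
# PP5S/ShF: the sum over the dyadic shells
-/

set_option autoImplicit false

namespace Pool.Agent.PP5S

open Finset

theorem shells {α : Type} [DecidableEq α] (Ps : Finset α) (T : α → ℝ) {M B : ℝ} (hM : 0 < M)
    (hB : 0 ≤ B) (hT : ∀ P ∈ Ps, 0 < T P ∧ T P ≤ M)
    (h : ∀ R : ℝ, 0 < R → ∀ Qs ⊆ Ps, (∀ P ∈ Qs, T P ≤ R ∧ R ≤ 2 * T P) →
      (Qs.card : ℝ) ≤ B * R ^ 5) :
    (Ps.card : ℝ) ≤ 2 * B * M ^ 5 := by
  classical
  set f : α → ℕ := fun P => Nat.log 2 ⌊M / T P⌋₊ with hf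
  have hfib : Ps.card = ∑ i ∈ Ps.image f, (Ps.filter (fun P => f P = i)).card :=
    Finset.card_eq_sum_card_fiberwise (fun P hP => Finset.mem_image_of_mem _ hP)
  have hone : ∀ i ∈ Ps.image f, ((Ps.filter (fun P => f P = i)).card : ℝ) ≤
      B * M ^ 5 * (1 / 32 : ℝ) ^ i := by
    intro i _
    have h1 := h (M / 2 ^ i) (by positivity) (Ps.filter (fun P => f P = i))
      (Finset.filter_subset _ _) (by
        intro P hP
        rw [Finset.mem_filter] at hP
        obtain ⟨hP1, hP2⟩ := hP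
        obtain ⟨t0, t1⟩ := hT P hP1
        have a1 : 1 ≤ M / T P := by rw [le_div_iff₀ t0]; linarith
        have a2 : 1 ≤ ⌊M / T P⌋₊ := Nat.le_floor (by exact_mod_cast a1)
        have b1 := Nat.pow_log_le_self 2 (show ⌊M / T P⌋₊ ≠ 0 by omega)
        have b2 := Nat.lt_pow_succ_log_self (show 1 < 2 by norm_num) ⌊M / T P⌋₊
        have e : Nat.log 2 ⌊M / T P⌋₊ = i := hP2
        rw [e] at b1 b2
        have c1 : (2 : ℝ) ^ i ≤ M / T P := by
          have : ((2 ^ i : ℕ) : ℝ) ≤ (⌊M / T P⌋₊ : ℝ) := by exact_mod_cast b1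
          push_cast at this
          exact this.trans (Nat.floor_le (by positivity))
        have c2 : M / T P < 2 ^ (i + 1) := by
          have : ((⌊M / T P⌋₊ + 1 : ℕ) : ℝ) ≤ ((2 ^ (i + 1) : ℕ) : ℝ) := by exact_mod_cast b2
          push_cast at this
          exact lt_of_lt_of_le (Nat.lt_floor_add_one _) this
        have hp : (0 : ℝ) < 2 ^ i := by positivity
        constructor
        · rw [le_div_iff₀ hp]
          rw [le_div_iff₀ t0] at c1
          linarith
        · rw [div_le_iff₀ hp]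
          rw [div_lt_iff₀ t0, pow_succ] at c2
          nlinarith)
    refine h1.trans (le_of_eq ?_)
    rw [div_pow, one_div, inv_pow, ← pow_mul, mul_comm i 5, pow_mul]
    norm_num
    ring
  have hsum : Summable (fun i : ℕ => (1 / 32 : ℝ) ^ i) :=
    summable_geometric_of_lt_one (by norm_num) (by norm_num)
  have hts : ∑ i ∈ Ps.image f, (1 / 32 : ℝ) ^ i ≤ 2 := by
    refine (hsum.sum_le_tsum _ (fun i _ => by positivity)).trans ?_
    rw [tsum_geometric_of_lt_one (by norm_num) (by norm_num)]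
    norm_num
  rw [hfib]
  push_cast
  refine (Finset.sum_le_sum hone).trans ?_
  rw [← Finset.mul_sum]
  calc B * M ^ 5 * ∑ i ∈ Ps.image f, (1 / 32 : ℝ) ^ i ≤ B * M ^ 5 * 2 :=
        mul_le_mul_of_nonneg_left hts (by positivity)
    _ = _ := by ring

end Pool.Agent.PP5S
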