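import Pool.Agent.PP5.Defs

/-!
# PP5S/Ysm: bounded `y`, and comparison of powers
-/

set_option autoImplicit false

namespace Pool.Agent.PP5S

open Pool.Agent.PP5

/-- every scale is at most `(t1 t2) ^ 2` -/
theorem sg_le {t1 t2 : ℝ} (h1 : 1 ≤ t1) (h2 : 1 ≤ t2) (i : Fin 12) :
    sg t1 t2 i ≤ (t1 * t2) ^ 2 := by
  have p1 : 0 < t1 := by linarith
  have p2 : 0 < t2 := by linarith
  have a1 : (1 : ℝ) ≤ t1 ^ 2 := one_le_pow₀ h1
  have a2 : (1 : ℝ) ≤ t2 ^ 2 := one_le_pow₀ h2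
  have b1 : t1 ≤ t1 ^ 2 := by nlinarith
  have b2 : t2 ≤ t2 ^ 2 := by nlinarith
  have m1 : t1 ^ 2 ≤ (t1 * t2) ^ 2 := by
    rw [mul_pow]; exact le_mul_of_one_le_right (by positivity) a2
  have m2 : t2 ^ 2 ≤ (t1 * t2) ^ 2 := by
    rw [mul_pow]; exact le_mul_of_one_le_left (by positivity) a1
  have m3 : (1 : ℝ) ≤ (t1 * t2) ^ 2 := a1.trans m1
  have m4 : t1 ^ 2 * t2 ≤ (t1 * t2) ^ 2 := by
    rw [mul_pow]; exact mul_le_mul_of_nonneg_left b2 (by positivity)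
  have m5 : t1 * t2 ^ 2 ≤ (t1 * t2) ^ 2 := by
    rw [mul_pow]; exact mul_le_mul_of_nonneg_right b1 (by positivity)
  have d1 : ∀ z : ℝ, 1 ≤ z → 1 / z ≤ 1 := fun z hz => by
    rw [div_le_one (by linarith)]; exact hz
  have d2 : ∀ x z : ℝ, 0 ≤ x → 1 ≤ z → x / z ≤ x := fun x z hx hz => div_le_self hx hz
  fin_cases i
  · exact (d1 _ (one_le_mul_of_one_le_of_one_le a1 h2)).trans m3
  · exact (d1 _ h2).trans m3
  · exact (d2 _ _ (by positivity) h2).trans m1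
  · exact (d2 _ _ (by positivity) a1).trans (b2.trans m2)
  · exact b2.trans m2
  · exact m4
  · exact (d1 _ (one_le_mul_of_one_le_of_one_le h1 a2)).trans m3
  · exact (d1 _ h1).trans m3
  · exact (d2 _ _ (by positivity) h1).trans m2
  · exact (d2 _ _ (by positivity) a2).trans (b1.trans m1)
  · exact b1.trans m1
  · exact m5

theorem small (C c y0 : ℝ) : ∃ B : ℝ, 0 ≤ B ∧ ∀ y t1 t2 : ℝ, 1 ≤ y → y ≤ y0 → 1 ≤ t1 → 1 ≤ t2 →
    t1 * t2 ≤ y ^ c → ∀ S : Finset Sp, (∀ P ∈ S, InP C (y ^ 4) y t1 t2 P) →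
      (S.card : ℝ) ≤ B := by
  set M : ℝ := |C| * y0 * (y0 ^ |c|) ^ 2 with hM
  set N : ℤ := ⌈M⌉ with hN
  refine ⟨((Fintype.piFinset fun _ : Fin 12 => Finset.Icc (-N) N).card : ℝ), Nat.cast_nonneg _,
    ?_⟩
  intro y t1 t2 hy hy0 h1 h2 ht S hS
  have hsub : S ⊆ Fintype.piFinset fun _ : Fin 12 => Finset.Icc (-N) N := by
    intro P hP
    rw [Fintype.mem_piFinset]
    intro i
    have hb := (hS P hP).bx i
    have hs := sg_le h1 h2 i
    have hs0 : 0 ≤ sg t1 t2 i := by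
      have p1 : 0 < t1 := by linarith
      have p2 : 0 < t2 := by linarith
      fin_cases i <;> simp [sg] <;> positivity
    have hc : y ^ c ≤ y0 ^ |c| :=
      (Real.rpow_le_rpow_of_exponent_le hy (le_abs_self c)).trans
        (Real.rpow_le_rpow (by linarith) hy0 (abs_nonneg c))
    have ht0 : 0 ≤ t1 * t2 := by positivity
    have h3 : (t1 * t2) ^ 2 ≤ (y0 ^ |c|) ^ 2 := pow_le_pow_left₀ ht0 (ht.trans hc) 2
    have h4 : C * y * sg t1 t2 i ≤ M := by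
      calc C * y * sg t1 t2 i ≤ |C| * y * sg t1 t2 i := by
            apply mul_le_mul_of_nonneg_right _ hs0
            exact mul_le_mul_of_nonneg_right (le_abs_self C) (by linarith)
        _ ≤ |C| * y0 * (y0 ^ |c|) ^ 2 := by
            apply mul_le_mul _ (hs.trans h3) hs0
            · exact mul_nonneg (abs_nonneg C) (by linarith)
            · exact mul_le_mul_of_nonneg_left hy0 (abs_nonneg C)
    have h5 : |(P i : ℝ)| ≤ (N : ℝ) := (hb.trans h4).trans (Int.le_ceil M)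
    have h6 : |P i| ≤ N := by exact_mod_cast h5
    rw [Finset.mem_Icc]
    exact abs_le.1 h6
  exact_mod_cast Finset.card_le_card hsub

theorem pw1 (a b C : ℝ) (hab : a < b) : ∃ y0 : ℝ, 1 ≤ y0 ∧ ∀ y : ℝ, y0 ≤ y →
    C * y ^ a ≤ y ^ b := by
  obtain ⟨Y, hY⟩ := Filter.eventually_atTop.1
    ((tendsto_rpow_atTop (sub_pos.2 hab)).eventually_ge_atTop C)
  refine ⟨max Y 1, le_max_right _ _, ?_⟩
  intro y hy
  have hy1 : 1 ≤ y := (le_max_right _ _).trans hy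
  have hy0 : 0 < y := by linarith
  have h := hY y ((le_max_left _ _).trans hy)
  have e : y ^ b = y ^ (b - a) * y ^ a := by
    rw [← Real.rpow_add hy0]
    congr 1
    ring
  rw [e]
  exact mul_le_mul_of_nonneg_right h (Real.rpow_nonneg hy0.le _)

theorem pw2 (b C : ℝ) (hb : 0 < b) : ∃ y0 : ℝ, 1 ≤ y0 ∧ ∀ y : ℝ, y0 ≤ y →
    C * Real.log y + C ≤ y ^ b := by
  obtain ⟨y1, hy1, h1⟩ := pw1 (b / 2) b (|C| * (2 / b + 1)) (by linarith)
  refine ⟨y1, hy1, ?_⟩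
  intro y hy
  have hy1' : 1 ≤ y := hy1.trans hy
  have hy0 : 0 < y := by linarith
  have h3 := h1 y hy
  have h4 : Real.log y ≤ y ^ (b / 2) / (b / 2) := Real.log_le_rpow_div hy0.le (by linarith)
  have h5 : (1 : ℝ) ≤ y ^ (b / 2) := Real.one_le_rpow hy1' (by linarith)
  have h6 : 0 ≤ Real.log y := Real.log_nonneg hy1'
  have hC := le_abs_self C
  have hC0 := abs_nonneg C
  have e1 : y ^ (b / 2) / (b / 2) = 2 / b * y ^ (b / 2) := by
    field_simp
  calc C * Real.log y + C ≤ |C| * Real.log y + |C| := by nlinarith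
    _ ≤ |C| * (2 / b * y ^ (b / 2)) + |C| * y ^ (b / 2) := by
      rw [e1] at h4
      nlinarith [mul_le_mul_of_nonneg_left h4 hC0, mul_le_mul_of_nonneg_left h5 hC0]
    _ = |C| * (2 / b + 1) * y ^ (b / 2) := by ring
    _ ≤ y ^ b := h3

/-- the same with a power in front -/
theorem pw3 (a b C : ℝ) (hab : a < b) : ∃ y0 : ℝ, 1 ≤ y0 ∧ ∀ y : ℝ, y0 ≤ y →
    C * (1 + Real.log y) * y ^ a ≤ y ^ b := by
  obtain ⟨y1, hy1, h1⟩ := pw2 (b - a) C (by linarith)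
  refine ⟨y1, hy1, ?_⟩
  intro y hy
  have hy1' : 1 ≤ y := hy1.trans hy
  have hy0 : 0 < y := by linarith
  have h := h1 y hy
  have e : y ^ b = y ^ (b - a) * y ^ a := by
    rw [← Real.rpow_add hy0]
    congr 1
    ring
  rw [e]
  apply mul_le_mul_of_nonneg_right _ (Real.rpow_nonneg hy0.le _)
  linarith

end Pool.Agent.PP5S
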