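import Pool.Agent.PP5S.Shl
import Pool.Agent.PP5S.Ysm

/-!
# PP5S/Yoe: the choice of the parameters (difficulty 2, long)

`h = ⌈y ^ δ⌉₊`, `κ = y ^ (-δ)`, `K = 16 y ^ c`, `2 ^ J0 ∈ [y ^ c, 4 y ^ c]` (`J0 = Nat.clog 2 ⌈y ^ c⌉₊`),
`J = ⌈2 logb 2 y⌉₊` (`y ^ 2 ≤ 2 ^ J`, `J ≤ 3 log y + 1`... , `J √κ = J y ^ (-δ/2) ≤ 1` by `pw2`).
(a1): `(y / Λ) ^ (1/3) ≥ (C C1 ^ 4) ^ (-1/3) y ^ (-1/5)`, so the right side is `≥ (s0 / 4) y ^ (1/5 - 2c - δ)`,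
`s0 = C1 (C C1 ^ 4) ^ (-1/3)`, and `h ≤ 2 y ^ δ`; `2δ + 2c < 1/5`, `pw1`.
(a2), (a2'): the left side is `24 C ^ 3 C1 ^ 2 Λ ^ (4/3) y ^ (2/3) / T ^ 3 ≤ const T ^ (7/3) y ^ (2/3) ≤ const y ^ (8/5)`.
(a5): `≤ const y ^ (8/5)`.
-/

set_option autoImplicit false

namespace Pool.Agent.PP5S

/-- the lower bound for `(y / Λ) ^ (1/3)` -/
theorem yo_lo {C C1 y T Λ : ℝ} (hC : 1 ≤ C) (hC1 : 1 ≤ C1) (hy : 1 ≤ y) (hT0 : 0 < T)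
    (hT : T ≤ C1 * y ^ (2 / 5 : ℝ)) (hΛ0 : 0 < Λ) (hΛ : Λ ≤ C * T ^ 4) :
    (C * C1 ^ 4) ^ (-(1 / 3) : ℝ) * y ^ (-(1 / 5) : ℝ) ≤ (y / Λ) ^ (1 / 3 : ℝ) := by
  have hy0 : 0 < y := by linarith
  have hC0 : 0 < C := by linarith
  have hC10 : 0 < C1 := by linarith
  have h1 : T ^ 4 ≤ C1 ^ 4 * y ^ (8 / 5 : ℝ) := by
    have h := pow_le_pow_left₀ hT0.le hT 4
    rw [mul_pow, ← Real.rpow_natCast (y ^ (2 / 5 : ℝ)), ← Real.rpow_mul hy0.le] at h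
    have e : (2 / 5 : ℝ) * ((4 : ℕ) : ℝ) = 8 / 5 := by push_cast; norm_num
    rwa [e] at h
  have h2 : Λ ≤ C * C1 ^ 4 * y ^ (8 / 5 : ℝ) := by
    have := mul_le_mul_of_nonneg_left h1 hC0.le
    linarith
  have h3 : (C * C1 ^ 4)⁻¹ * y ^ (-(3 / 5) : ℝ) ≤ y / Λ := by
    rw [le_div_iff₀ hΛ0]
    calc (C * C1 ^ 4)⁻¹ * y ^ (-(3 / 5) : ℝ) * Λ ≤
        (C * C1 ^ 4)⁻¹ * y ^ (-(3 / 5) : ℝ) * (C * C1 ^ 4 * y ^ (8 / 5 : ℝ)) :=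
          mul_le_mul_of_nonneg_left h2 (by positivity)
      _ = ((C * C1 ^ 4)⁻¹ * (C * C1 ^ 4)) * (y ^ (-(3 / 5) : ℝ) * y ^ (8 / 5 : ℝ)) := by ring
      _ = y := by
        rw [inv_mul_cancel₀ (by positivity), one_mul, ← Real.rpow_add hy0]
        norm_num
  calc (C * C1 ^ 4) ^ (-(1 / 3) : ℝ) * y ^ (-(1 / 5) : ℝ) =
      ((C * C1 ^ 4)⁻¹ * y ^ (-(3 / 5) : ℝ)) ^ (1 / 3 : ℝ) := by
        have hZ : 0 < C * C1 ^ 4 := by positivity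
        set Z := C * C1 ^ 4
        rw [Real.mul_rpow (inv_nonneg.2 hZ.le) (Real.rpow_nonneg hy0.le _),
          ← Real.rpow_mul hy0.le, Real.inv_rpow hZ.le, Real.rpow_neg hZ.le]
        norm_num
    _ ≤ (y / Λ) ^ (1 / 3 : ℝ) := Real.rpow_le_rpow (by positivity) h3 (by norm_num)

/-- the upper bound for `Λ ^ 2 (y / Λ) ^ (2/3) / T ^ 3` -/
theorem yo_up {C C1 y T Λ : ℝ} (hC : 1 ≤ C) (hC1 : 1 ≤ C1) (hy : 1 ≤ y) (hT0 : 0 < T)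
    (hT : T ≤ C1 * y ^ (2 / 5 : ℝ)) (hΛ0 : 0 < Λ) (hΛ : Λ ≤ C * T ^ 4) :
    Λ ^ 2 / T ^ 3 * ((y / Λ) ^ (1 / 3 : ℝ)) ^ 2 ≤ C ^ 4 * C1 ^ 7 * y ^ (8 / 5 : ℝ) := by
  have hy0 : 0 < y := by linarith
  have hC0 : 0 < C := by linarith
  have hC10 : 0 < C1 := by linarith
  set u : ℝ := (y / Λ) ^ (1 / 3 : ℝ) with hu
  have hu0 : 0 < u := Real.rpow_pos_of_pos (by positivity) _
  have hu3 : u ^ 3 * Λ = y := by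
    rw [hu, ← Real.rpow_natCast, ← Real.rpow_mul (by positivity)]
    norm_num
    field_simp
  have hT7 : T ^ 7 ≤ C1 ^ 7 * y ^ (14 / 5 : ℝ) := by
    have h := pow_le_pow_left₀ hT0.le hT 7
    rw [mul_pow, ← Real.rpow_natCast (y ^ (2 / 5 : ℝ)), ← Real.rpow_mul hy0.le] at h
    have e : (2 / 5 : ℝ) * ((7 : ℕ) : ℝ) = 14 / 5 := by push_cast; norm_num
    rwa [e] at h
  have h1 : (Λ ^ 2 / T ^ 3 * u ^ 2) ^ 3 = Λ ^ 4 * y ^ 2 / T ^ 9 := by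
    rw [← hu3]
    field_simp
  have h2 : Λ ^ 4 ≤ C ^ 4 * T ^ 16 := by
    have h := pow_le_pow_left₀ hΛ0.le hΛ 4
    calc Λ ^ 4 ≤ (C * T ^ 4) ^ 4 := h
      _ = C ^ 4 * T ^ 16 := by ring
  have h3 : Λ ^ 4 * y ^ 2 / T ^ 9 ≤ C ^ 4 * C1 ^ 7 * (y ^ (14 / 5 : ℝ) * y ^ 2) := by
    rw [div_le_iff₀ (by positivity)]
    calc Λ ^ 4 * y ^ 2 ≤ C ^ 4 * T ^ 16 * y ^ 2 := mul_le_mul_of_nonneg_right h2 (by positivity)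
      _ = C ^ 4 * T ^ 9 * y ^ 2 * T ^ 7 := by ring
      _ ≤ C ^ 4 * T ^ 9 * y ^ 2 * (C1 ^ 7 * y ^ (14 / 5 : ℝ)) :=
        mul_le_mul_of_nonneg_left hT7 (by positivity)
      _ = C ^ 4 * C1 ^ 7 * (y ^ (14 / 5 : ℝ) * y ^ 2) * T ^ 9 := by ring
  have h4 : y ^ (14 / 5 : ℝ) * y ^ 2 = (y ^ (8 / 5 : ℝ)) ^ 3 := by
    rw [← Real.rpow_natCast y 2, ← Real.rpow_add hy0, ← Real.rpow_natCast (y ^ (8 / 5 : ℝ)),
      ← Real.rpow_mul hy0.le]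
    norm_num
  have h5 : C ^ 4 * C1 ^ 7 * (y ^ (8 / 5 : ℝ)) ^ 3 ≤ (C ^ 4 * C1 ^ 7 * y ^ (8 / 5 : ℝ)) ^ 3 := by
    rw [mul_pow]
    apply mul_le_mul_of_nonneg_right _ (by positivity)
    have h6 : 1 ≤ C ^ 4 * C1 ^ 7 :=
      one_le_mul_of_one_le_of_one_le (one_le_pow₀ hC) (one_le_pow₀ hC1)
    exact le_self_pow₀ h6 (by norm_num)
  have h6 : (Λ ^ 2 / T ^ 3 * u ^ 2) ^ 3 ≤ (C ^ 4 * C1 ^ 7 * y ^ (8 / 5 : ℝ)) ^ 3 := by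
    rw [h1]
    rw [h4] at h3
    exact h3.trans h5
  exact le_of_pow_le_pow_left₀ (by norm_num) (by positivity) h6

theorem Yo_exists {C C1 δ δ1 c3 c d0 : ℝ} (hC : 1 ≤ C) (hC1 : 1 ≤ C1) (hδ : 0 < δ) (hc : 0 < c)
    (hδc : 2 * δ + 2 * c < 1 / 5) (hc1 : c < δ1) (hc3 : c ≤ c3) (hd : 2 * d0 ≤ δ1) :
    ∃ y0 : ℝ, 1 ≤ y0 ∧ ∀ y : ℝ, y0 ≤ y → ∃ (h J0 J : ℕ) (κ K : ℝ),
      Yo C C1 δ δ1 c3 c d0 2 y h J0 J κ K := by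
  have hC0 : 0 < C := by linarith
  have hC10 : 0 < C1 := by linarith
  set s0 : ℝ := C1 * (C * C1 ^ 4) ^ (-(1 / 3) : ℝ) with hs0
  have hs0p : 0 < s0 := mul_pos hC10 (Real.rpow_pos_of_pos (by positivity) _)
  obtain ⟨Y1, hY1, p1⟩ := pw1 δ (1 / 5 - 2 * c - δ) (8 / s0) (by linarith)
  obtain ⟨Y2, hY2, p2⟩ := pw1 (8 / 5) 2 (384 * C ^ 3 * C1 ^ 2 * (C ^ 4 * C1 ^ 7)) (by norm_num)
  obtain ⟨Y3, hY3, p3⟩ := pw2 (δ / 2) 3 (by linarith)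
  obtain ⟨Y4, hY4, p4⟩ := pw1 (8 / 5) 2 (768 * (2 * C1) ^ 4) (by norm_num)
  obtain ⟨Y5, hY5, p5⟩ := pw1 c δ1 16 hc1
  obtain ⟨Y6, hY6, p6⟩ := pw1 (δ + c) (2 / 5 - c) 16 (by linarith)
  refine ⟨max (max (max Y1 Y2) (max Y3 Y4)) (max Y5 Y6), ?_, ?_⟩
  · exact hY1.trans ((le_max_left _ _).trans ((le_max_left _ _).trans (le_max_left _ _)))
  intro y hy
  have q12 := (le_max_left _ _).trans hy
  have q1 : Y1 ≤ y := (le_max_left _ _).trans ((le_max_left _ _).trans q12)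
  have q2 : Y2 ≤ y := (le_max_right _ _).trans ((le_max_left _ _).trans q12)
  have q3 : Y3 ≤ y := (le_max_left _ _).trans ((le_max_right _ _).trans q12)
  have q4 : Y4 ≤ y := (le_max_right _ _).trans ((le_max_right _ _).trans q12)
  have q5 : Y5 ≤ y := (le_max_left _ _).trans ((le_max_right _ _).trans hy)
  have q6 : Y6 ≤ y := (le_max_right _ _).trans ((le_max_right _ _).trans hy)
  have r1 := p1 y q1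
  have r2 := p2 y q2
  have r3 := p3 y q3
  have r4 := p4 y q4
  have r5 := p5 y q5
  have r6 := p6 y q6
  have hy1 : 1 ≤ y := hY1.trans q1
  have hy0 : 0 < y := by linarith
  have hyδ : 0 < y ^ δ := Real.rpow_pos_of_pos hy0 _
  have hyδ1 : 1 ≤ y ^ δ := Real.one_le_rpow hy1 hδ.le
  have hyc : 0 < y ^ c := Real.rpow_pos_of_pos hy0 _
  have hyc1 : 1 ≤ y ^ c := Real.one_le_rpow hy1 hc.le
  have hlog : 0 ≤ Real.log y := Real.log_nonneg hy1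
  -- the exponent `J`
  have hJ : y ^ (2 : ℝ) ≤ 2 ^ ⌈2 * Real.logb 2 y⌉₊ := by
    rw [← Real.rpow_natCast 2]
    calc y ^ (2 : ℝ) = (2 : ℝ) ^ (2 * Real.logb 2 y) := by
          rw [mul_comm, Real.rpow_mul (by norm_num), Real.rpow_logb (by norm_num) (by norm_num) hy0]
      _ ≤ 2 ^ ((⌈2 * Real.logb 2 y⌉₊ : ℕ) : ℝ) :=
        Real.rpow_le_rpow_of_exponent_le (by norm_num) (Nat.le_ceil _)
  have hJ2 : ((⌈2 * Real.logb 2 y⌉₊ : ℕ) : ℝ) ≤ 3 * Real.log y + 3 := by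
    have hlb : 0 ≤ Real.logb 2 y := Real.logb_nonneg (by norm_num) hy1
    have h1 := (Nat.ceil_lt_add_one (by positivity : 0 ≤ 2 * Real.logb 2 y)).le
    have h2 : 2 * Real.logb 2 y ≤ 3 * Real.log y := by
      unfold Real.logb
      have h3 : (0.6931471803 : ℝ) < Real.log 2 := Real.log_two_gt_d9
      rw [← mul_div_assoc, div_le_iff₀ (by linarith)]
      nlinarith
    linarith
  -- the exponent `J0`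
  have hJ0 : y ^ c ≤ 2 ^ Nat.clog 2 ⌈y ^ c⌉₊ := by
    have h1 : ⌈y ^ c⌉₊ ≤ 2 ^ Nat.clog 2 ⌈y ^ c⌉₊ := Nat.le_pow_clog (by norm_num) _
    calc y ^ c ≤ (⌈y ^ c⌉₊ : ℝ) := Nat.le_ceil _
      _ ≤ 2 ^ Nat.clog 2 ⌈y ^ c⌉₊ := by exact_mod_cast h1
  have hJ0' : (2 : ℝ) ^ Nat.clog 2 ⌈y ^ c⌉₊ ≤ 4 * y ^ c := by
    have h0 : (⌈y ^ c⌉₊ : ℝ) ≤ 2 * y ^ c := by
      have := (Nat.ceil_lt_add_one hyc.le).le
      linarith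
    have h1 : 2 ^ Nat.clog 2 ⌈y ^ c⌉₊ ≤ 2 * ⌈y ^ c⌉₊ := by
      set n := ⌈y ^ c⌉₊ with hn
      have hn1 : 1 ≤ n := Nat.one_le_ceil_iff.2 hyc
      rcases Nat.lt_or_ge 1 n with h | h
      · have h2 := Nat.pow_pred_clog_lt_self (b := 2) (by norm_num) h
        have h3 : 0 < Nat.clog 2 n := Nat.clog_pos (by norm_num) h
        obtain ⟨m, hm⟩ : ∃ m, Nat.clog 2 n = m + 1 := ⟨_, (Nat.succ_pred_eq_of_pos h3).symm⟩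
        rw [hm, Nat.pred_succ] at h2
        rw [hm, pow_succ]
        omega
      · have h2 : n = 1 := by omega
        rw [h2]
        simp
    have h2 : (2 : ℝ) ^ Nat.clog 2 ⌈y ^ c⌉₊ ≤ 2 * (⌈y ^ c⌉₊ : ℝ) := by exact_mod_cast h1
    linarith
  have h2J0 : (0 : ℝ) < 2 ^ Nat.clog 2 ⌈y ^ c⌉₊ := by positivity
  have hh2 : (⌈y ^ δ⌉₊ : ℝ) ≤ 2 * y ^ δ := by
    have := (Nat.ceil_lt_add_one hyδ.le).le
    linarith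
  have hlow : ∀ T : ℝ, y ^ (2 / 5 - c) ≤ T → 0 < T := fun T hT =>
    lt_of_lt_of_le (Real.rpow_pos_of_pos hy0 _) hT
  have hup : ∀ T Λ : ℝ, y ^ (2 / 5 - c) ≤ T → T ≤ C1 * y ^ (2 / 5 : ℝ) → 0 < Λ → Λ ≤ C * T ^ 4 →
      16 * (24 * C ^ 3 * Λ ^ 2 / T ^ 3 * (C1 * (y / Λ) ^ (1 / 3 : ℝ)) ^ 2) ≤ y ^ (2 : ℝ) := by
    intro T Λ hT1 hT2 hΛ0 hΛ
    have h1 := yo_up hC hC1 hy1 (hlow T hT1) hT2 hΛ0 hΛ
    calc 16 * (24 * C ^ 3 * Λ ^ 2 / T ^ 3 * (C1 * (y / Λ) ^ (1 / 3 : ℝ)) ^ 2) =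
        384 * C ^ 3 * C1 ^ 2 * (Λ ^ 2 / T ^ 3 * ((y / Λ) ^ (1 / 3 : ℝ)) ^ 2) := by ring
      _ ≤ 384 * C ^ 3 * C1 ^ 2 * (C ^ 4 * C1 ^ 7 * y ^ (8 / 5 : ℝ)) :=
        mul_le_mul_of_nonneg_left h1 (by positivity)
      _ = 384 * C ^ 3 * C1 ^ 2 * (C ^ 4 * C1 ^ 7) * y ^ (8 / 5 : ℝ) := by ring
      _ ≤ y ^ (2 : ℝ) := r2
  refine ⟨⌈y ^ δ⌉₊, Nat.clog 2 ⌈y ^ c⌉₊, ⌈2 * Real.logb 2 y⌉₊, y ^ (-δ), 16 * y ^ c, ?_⟩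
  constructor
  · exact hy1
  · exact Nat.ceil_pos.2 hyδ
  · exact Nat.le_ceil _
  · exact Real.rpow_pos_of_pos hy0 _
  · exact Real.rpow_le_one_of_one_le_of_nonpos hy1 (by linarith)
  · intro T Λ l0 hT1 hT2 hΛ0 hΛ hl0
    have h1 := yo_lo hC hC1 hy1 (hlow T hT1) hT2 hΛ0 hΛ
    have h3 : 8 * y ^ δ ≤ s0 * y ^ (1 / 5 - 2 * c - δ) := by
      rw [div_mul_eq_mul_div, div_le_iff₀ hs0p] at r1
      linarith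
    have e1 : y ^ (1 / 5 - 2 * c - δ) =
        y ^ (-δ) * (y ^ (-(1 / 5) : ℝ) / y ^ c * y ^ (2 / 5 - c)) := by
      rw [← Real.rpow_sub hy0, ← Real.rpow_add hy0, ← Real.rpow_add hy0]
      congr 1
      ring
    have hyn : 0 < y ^ (-δ) := Real.rpow_pos_of_pos hy0 _
    have hyl : 0 < y ^ (2 / 5 - c) := Real.rpow_pos_of_pos hy0 _
    have h4 : C1 * ((C * C1 ^ 4) ^ (-(1 / 3) : ℝ) * y ^ (-(1 / 5) : ℝ)) / (4 * y ^ c) *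
        y ^ (2 / 5 - c) ≤ C1 * (y / Λ) ^ (1 / 3 : ℝ) / 2 ^ Nat.clog 2 ⌈y ^ c⌉₊ * l0 := by
      apply mul_le_mul _ hl0 hyl.le (by positivity)
      exact div_le_div₀ (by positivity) (mul_le_mul_of_nonneg_left h1 hC10.le) h2J0 hJ0'
    have h5 := mul_le_mul_of_nonneg_left h4 hyn.le
    have e2 : y ^ (-δ) * (C1 * ((C * C1 ^ 4) ^ (-(1 / 3) : ℝ) * y ^ (-(1 / 5) : ℝ)) / (4 * y ^ c) *
        y ^ (2 / 5 - c)) = s0 * y ^ (1 / 5 - 2 * c - δ) / 4 := by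
      rw [e1, hs0]
      field_simp
    rw [e2] at h5
    linarith
  · intro T Λ hT1 hT2 hΛ0 hΛ
    have h1 := hup T Λ hT1 hT2 hΛ0 hΛ
    have h0 : 0 ≤ 24 * C ^ 3 * Λ ^ 2 / T ^ 3 * (C1 * (y / Λ) ^ (1 / 3 : ℝ)) ^ 2 := by
      have := hlow T hT1
      positivity
    linarith
  · exact hup
  · have e : √(y ^ (-δ)) = (y ^ (δ / 2))⁻¹ := by
      rw [Real.sqrt_eq_rpow, ← Real.rpow_mul hy0.le, ← Real.rpow_neg hy0.le]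
      congr 1
      ring
    rw [e, ← div_eq_mul_inv, div_le_one (Real.rpow_pos_of_pos hy0 _)]
    exact hJ2.trans r3
  · exact hJ0
  · intro R hR hR2
    have h1 := pow_le_pow_left₀ hR.le hR2 4
    have e : (2 * (C1 * y ^ (2 / 5 : ℝ))) ^ 4 = (2 * C1) ^ 4 * y ^ (8 / 5 : ℝ) := by
      rw [← mul_assoc, mul_pow, ← Real.rpow_natCast (y ^ (2 / 5 : ℝ)), ← Real.rpow_mul hy0.le]
      congr 2
      norm_num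
    rw [e] at h1
    calc 768 * R ^ 4 ≤ 768 * ((2 * C1) ^ 4 * y ^ (8 / 5 : ℝ)) := by linarith
      _ = 768 * (2 * C1) ^ 4 * y ^ (8 / 5 : ℝ) := by ring
      _ ≤ y ^ (2 : ℝ) := r4
  · linarith
  · exact le_refl _
  · exact r5
  · calc y ^ δ * (16 * y ^ c) = 16 * y ^ (δ + c) := by
          rw [Real.rpow_add hy0]
          ring
      _ ≤ y ^ (2 / 5 - c) := r6
  · exact Real.rpow_le_rpow_of_exponent_le hy1 hd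
  · exact Real.rpow_le_rpow_of_exponent_le hy1 hc3

end Pool.Agent.PP5S
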