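import Pool.Agent.PP5S.Sh3
import Pool.Agent.PP5S.ShF
import Pool.Agent.PP5S.Xdx
import Pool.Agent.PP5S.Yoe
import Pool.Agent.PP5S.Adc
import Pool.Agent.PP5S.Cne
import Pool.Agent.PP5.E2Sum

/-!
# PP5S/Fin: the box theorem, from (D')
-/

set_option autoImplicit false

namespace Pool.Agent.PP5S

open Matrix Finset Pool.Agent.PP5B

theorem box_fin (hD : ∀ Cx : ℝ, 1 ≤ Cx → ∃ C1 : ℝ, 1 ≤ C1 ∧ DP Cx C1) :
    ∃ c C : ℝ, 0 < c ∧ 0 ≤ C ∧ PP5.Box c C 1 := by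
  classical
  obtain ⟨Cx, hCx, hXD⟩ := XDx_exists
  obtain ⟨C1, hC1, hDP⟩ := hD Cx hCx
  obtain ⟨K1, hK1, hcon⟩ := conB hCx
  obtain ⟨K2, hK2, hcone, hbox⟩ := coneB
  obtain ⟨CA, hCA, hAC⟩ := ACB_exists (C0 := 13000) (by norm_num)
  obtain ⟨δ1, c3, Cc, T0, hδ1, hc3, hCc, hT0, hCC⟩ :=
    CC_exists (δ := 1 / 50) (A := 2) (by norm_num) (by norm_num)
  set c : ℝ := min (1 / 50) (min (δ1 / 2) c3) with hc
  have hc0 : 0 < c := lt_min (by norm_num) (lt_min (by linarith) hc3)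
  have hca : c ≤ 1 / 50 := min_le_left _ _
  have hcb : c ≤ δ1 / 2 := (min_le_right _ _).trans (min_le_left _ _)
  have hcc : c ≤ c3 := (min_le_right _ _).trans (min_le_right _ _)
  obtain ⟨d0', η, y1, Cd, hd0', hη, hy1, hCd, hDP'⟩ := hDP c hc0
  set d0 : ℝ := min d0' (δ1 / 2) with hd0
  have hd00 : 0 < d0 := lt_min hd0' (by linarith)
  have hd0a : d0 ≤ d0' := min_le_left _ _
  have hd0b : d0 ≤ δ1 / 2 := min_le_right _ _
  obtain ⟨y2, hy2, hYo⟩ := Yo_exists (C := Cx) (C1 := C1) (δ := 1 / 50) (δ1 := δ1) (c3 := c3)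
    (c := c) (d0 := d0) hCx hC1 (by norm_num) hc0 (by linarith) (by linarith) hcc (by linarith)
  set y0 : ℝ := max (max y1 y2) T0 with hy0
  obtain ⟨B, hB, hsm⟩ := small 16 d0 y0
  set Ksh : ℝ := 42 * K1 * K2 * Fc Cx C1 * (26 * CA * Cc) * (16 * Cx) ^ 2 with hKsh
  have hF : 0 ≤ Fc Cx C1 := by
    have : 0 < Cx := by linarith
    have : 0 < C1 := by linarith
    unfold Fc; positivity
  have hKsh0 : 0 ≤ Ksh := by
    have : 0 < Cx := by linarith
    positivity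
  refine ⟨d0 / 4, Cd + 2 * Ksh * C1 ^ 5 + B, by linarith, by positivity, ?_⟩
  intro X y t1 t2 hX hy h1 h2 hyX ht S hS
  have hy1' : 1 ≤ y := by
    by_contra hlt
    push Not at hlt
    have : y ^ 4 < 1 := pow_lt_one₀ hy.le hlt (by norm_num)
    linarith
  have htt : t1 * t2 ≤ y ^ d0 := by
    refine ht.trans (le_of_eq ?_)
    rw [← hyX, ← Real.rpow_natCast, ← Real.rpow_mul hy.le]
    congr 1
    push_cast
    ring
  have e1 : (t1 * t2) ^ (2 - 2 * (1 : ℝ)) = 1 := by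
    have : (2 - 2 * (1 : ℝ)) = 0 := by norm_num
    rw [this, Real.rpow_zero]
  rw [e1, mul_one, ← hyX]
  have hS' : ∀ P ∈ S, PP5.InP 16 (y ^ 4) y t1 t2 P := by rw [hyX]; exact hS
  have hy4 : (1 : ℝ) ≤ y ^ 4 := one_le_pow₀ hy1'
  by_cases hyy : y ≤ y0
  · have h3 := hsm y t1 t2 hy1' hyy h1 h2 htt S hS'
    have h4 : 0 ≤ Cd + 2 * Ksh * C1 ^ 5 := by positivity
    nlinarith
  · push Not at hyy
    have hya : y1 ≤ y := ((le_max_left _ _).trans (le_max_left _ _)).trans hyy.le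
    have hyb : y2 ≤ y := ((le_max_right _ _).trans (le_max_left _ _)).trans hyy.le
    have hyc : T0 ≤ y := (le_max_right _ _).trans hyy.le
    have hex : ∀ x : Fin 10 → ℤ, ∃ (T : ℝ) (b : Fin 4 → PP5.Sp) (G : Matrix (Fin 4) (Fin 4) ℤ)
        (l : Fin 4 → ℝ) (k : ℕ), Xok x → XD Cx t1 t2 T x b G l k := by
      intro x
      by_cases hx : Xok x
      · obtain ⟨T, b, G, l, k, h⟩ := hXD t1 t2 h1 h2 x hx
        exact ⟨T, b, G, l, k, fun _ => h⟩
      · exact ⟨0, fun _ => 0, 0, 0, 0, fun h => absurd h hx⟩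
    choose Tf bf Gf lf kf hf using hex
    obtain ⟨Bad, hsub, hcard, hgood⟩ := hDP' y t1 t2 hya h1 h2
      (htt.trans (Real.rpow_le_rpow_of_exponent_le hy1' hd0a)) Tf bf Gf lf kf hf S hS'
    have hex2 : ∀ P : PP5.Sp, ∃ (x : Fin 10 → ℤ) (m n : Fin 4 → ℤ), P ∈ S \ Bad →
        GP y c C1 (Tf x) x (bf x) (Gf x) (lf x) (kf x) P m n := by
      intro P
      by_cases hP : P ∈ S \ Bad
      · rw [Finset.mem_sdiff] at hP
        obtain ⟨x, m, n, h⟩ := hgood P hP.1 hP.2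
        exact ⟨x, m, n, fun _ => h⟩
      · exact ⟨0, 0, 0, fun h => absurd h hP⟩
    choose xf mf nf hxf using hex2
    obtain ⟨Θ, hΘ⟩ := hCC y hyc
    obtain ⟨h, J0, J, κ, K, hY⟩ := hYo y hyb
    have hgs : (((S \ Bad).card : ℕ) : ℝ) ≤ 2 * (Ksh * y ^ 2) * (C1 * y ^ (2 / 5 : ℝ)) ^ 5 := by
      apply shells (S \ Bad) (fun P => Tf (xf P)) (by positivity) (by positivity)
      · intro P hP
        have g := hxf P hP
        exact ⟨(hf (xf P) g.ok).T0, g.Tup⟩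
      · intro R hR Qs hQs hQR
        refine (shell_fin hCx hC1 hK1.le hK2.le hcon hcone hbox hAC (le_refl _) hCA hCc.le hΘ hY h1
          h2 htt hR Tf bf Gf lf kf Qs xf mf nf (fun P hP => hf (xf P) (hxf P (hQs hP)).ok)
          (fun P hP => ⟨hS' P (Finset.mem_sdiff.1 (hQs hP)).1, hxf P (hQs hP)⟩) hQR).trans
          (le_of_eq ?_)
        rw [hKsh]; ring
    have e2 : 2 * (Ksh * y ^ 2) * (C1 * y ^ (2 / 5 : ℝ)) ^ 5 = 2 * Ksh * C1 ^ 5 * y ^ 4 := by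
      have : (y ^ (2 / 5 : ℝ)) ^ 5 = y ^ 2 := by
        rw [← Real.rpow_natCast, ← Real.rpow_mul hy.le, ← Real.rpow_natCast y 2]
        congr 1
        norm_num
      rw [mul_pow, this]; ring
    rw [e2] at hgs
    have h5 : y ^ (4 - η) ≤ y ^ 4 := by
      rw [← Real.rpow_natCast y 4]
      apply Real.rpow_le_rpow_of_exponent_le hy1'
      push_cast
      linarith
    have h6 : (S.card : ℝ) ≤ Bad.card + (S \ Bad).card := by
      have := Finset.card_sdiff_add_card S Bad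
      have h7 : S.card ≤ (S \ Bad).card + Bad.card := by
        calc S.card ≤ (S ∪ Bad).card := Finset.card_le_card Finset.subset_union_left
          _ = _ := this.symm
      have h8 : (S.card : ℝ) ≤ (((S \ Bad).card + Bad.card : ℕ) : ℝ) := by exact_mod_cast h7
      push_cast at h8
      linarith
    have h9 : Cd * y ^ (4 - η) ≤ Cd * y ^ 4 := mul_le_mul_of_nonneg_left h5 hCd
    have h10 : 0 ≤ B * y ^ 4 := by positivity
    calc (S.card : ℝ) ≤ Bad.card + (S \ Bad).card := h6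
      _ ≤ Cd * y ^ 4 + 2 * Ksh * C1 ^ 5 * y ^ 4 := by linarith
      _ ≤ _ := by linarith

end Pool.Agent.PP5S
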