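import Pool.Agent.PP5S.Sh2

/-!
# PP5 section (e): the points whose good pair has `R / 2 ≤ |x| ≤ R`
-/

namespace Pool.Agent.PP5S

open Matrix Finset Pool.Agent.PP5B

theorem shell_fin {C C0 C1 CA K1 K2 δ δ1 c3 Cc c d0 A y κ K t1 t2 R : ℝ} {h J0 J : ℕ}
    (hC : 1 ≤ C) (hC1 : 1 ≤ C1) (hK1 : 0 ≤ K1) (hK2 : 0 ≤ K2) (hcon : ConB C K1)
    (hcone : ConeB K2) (hbox : BoxB K2) (hAC : ACB C0 CA) (hC0 : 13000 ≤ C0) (hCA : 0 ≤ CA)
    (hCc : 0 ≤ Cc) {Θ : (Fin 10 → ℤ) → ℝ} (hCC : CC y δ δ1 A c3 Cc Θ)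
    (hY : Yo C C1 δ δ1 c3 c d0 A y h J0 J κ K) (h1 : 1 ≤ t1) (h2 : 1 ≤ t2)
    (ht : t1 * t2 ≤ y ^ d0) (hR0 : 0 < R)
    (Tf : (Fin 10 → ℤ) → ℝ) (bf : (Fin 10 → ℤ) → Fin 4 → PP5.Sp)
    (Gf : (Fin 10 → ℤ) → Matrix (Fin 4) (Fin 4) ℤ) (lf : (Fin 10 → ℤ) → Fin 4 → ℝ)
    (kf : (Fin 10 → ℤ) → ℕ)
    (Ps : Finset PP5.Sp) (xf : PP5.Sp → Fin 10 → ℤ) (mf nf : PP5.Sp → Fin 4 → ℤ)
    (hXD : ∀ P ∈ Ps, XD C t1 t2 (Tf (xf P)) (xf P) (bf (xf P)) (Gf (xf P)) (lf (xf P)) (kf (xf P)))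
    (hGP : ∀ P ∈ Ps, PP5.InP 16 (y ^ 4) y t1 t2 P ∧
      GP y c C1 (Tf (xf P)) (xf P) (bf (xf P)) (Gf (xf P)) (lf (xf P)) (kf (xf P)) P (mf P) (nf P))
    (hR : ∀ P ∈ Ps, Tf (xf P) ≤ R ∧ R ≤ 2 * Tf (xf P)) :
    (Ps.card : ℝ) ≤ 42 * K1 * K2 * Fc C C1 * (26 * CA * Cc) * (16 * C) ^ 2 * (y ^ 2 * R ^ 5) := by
  classical
  have hy1 := hY.y1
  have hy0 : 0 < y := by linarith
  have hC0' : 0 < C := by linarith
  have hC10 : 0 < C1 := by linarith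
  have hF : 0 ≤ Fc C C1 := by unfold Fc; positivity
  have h10 : 0 < t1 := by linarith
  have h20 : 0 < t2 := by linarith
  rcases Ps.eq_empty_or_nonempty with he | hne
  · subst he
    simp only [Finset.card_empty, Nat.cast_zero]
    positivity
  -- the fibres
  have hfib := fib Ps xf mf nf (by
    intro P hP Q hQ hx hn
    funext a
    rw [(hGP P hP).2.sum a, (hGP Q hQ).2.sum a, hn, hx])
  have hfibR : (Ps.card : ℝ) = ∑ x ∈ Ps.image xf, ∑ m ∈ (Ps.filter (fun P => xf P = x)).image mf,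
      ((((((Ps.filter (fun P => xf P = x)).filter (fun P => mf P = m)).image nf)).card : ℕ) : ℝ) := by
    rw [hfib]; push_cast; rfl
  set W : (Fin 10 → ℤ) → ℝ := fun x => (kf x : ℝ) ^ (5 / 4 : ℝ) * Θ x with hW
  have hone : ∀ x ∈ Ps.image xf, ∑ m ∈ (Ps.filter (fun P => xf P = x)).image mf,
      ((((((Ps.filter (fun P => xf P = x)).filter (fun P => mf P = m)).image nf)).card : ℕ) : ℝ) ≤
      42 * K1 * K2 * Fc C C1 * ((16 * C * y) ^ 2 / R ^ 3) *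
        (W x * (R ^ 4 / |(((PP5L.SS x).det : ℤ) : ℝ)|) ^ (5 / 8 : ℝ)) := by
    intro x hx
    obtain ⟨P0, hP0, hxP0⟩ := Finset.mem_image.1 hx
    have hX := hXD P0 hP0
    rw [hxP0] at hX
    obtain ⟨r1, r2⟩ := hR P0 hP0
    rw [hxP0] at r1 r2
    have h3 := one_x hC hC1 hK1 hK2 hcon hcone hbox hCC hY h10 h20 hX r1 r2
      (Ps.filter (fun P => xf P = x)) mf nf (by
        intro P hP
        rw [Finset.mem_filter] at hP
        obtain ⟨a1, a2⟩ := hGP P hP.1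
        rw [hP.2] at a2
        exact ⟨a1, a2⟩) ⟨P0, by rw [Finset.mem_filter]; exact ⟨hP0, hxP0⟩⟩
    refine h3.trans (le_of_eq ?_)
    rw [hW]
    ring
  rw [hfibR]
  refine (Finset.sum_le_sum hone).trans ?_
  rw [← Finset.mul_sum]
  have hPdata : ∀ x ∈ Ps.image xf, Xok x ∧ (∀ j, |(x j : ℝ)| ≤ R * PP5.tx t1 t2 j) ∧
      (∃ j, R * PP5.tx t1 t2 j ≤ 2 * |(x j : ℝ)|) ∧ 1 ≤ kf x ∧
      PP5K.RK (kf x) x ∧ (kf x : ℝ) ≤ y ^ c ∧ R ^ 4 ≤ K * |(((PP5L.SS x).det : ℤ) : ℝ)| ∧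
      y ^ (2 / 5 - c) ≤ R ∧ R ≤ 2 * (C1 * y ^ (2 / 5 : ℝ)) := by
    intro x hx
    obtain ⟨P0, hP0, hxP0⟩ := Finset.mem_image.1 hx
    have hX := hXD P0 hP0
    have hG := (hGP P0 hP0).2
    rw [hxP0] at hX hG
    obtain ⟨r1, r2⟩ := hR P0 hP0
    rw [hxP0] at r1 r2
    refine ⟨hG.ok, ?_, ?_, hX.k1, hX.rk, hG.kup, ?_, hG.Tlo.trans r1, ?_⟩
    · intro j
      exact (hX.Tle j).trans (mul_le_mul_of_nonneg_right r1 (tx_pos h10 h20 j).le)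
    · obtain ⟨j, hj⟩ := hX.Tge
      refine ⟨j, ?_⟩
      have := tx_pos h10 h20 j
      nlinarith
    · have h4 : R ^ 4 ≤ (2 * Tf x) ^ 4 := pow_le_pow_left₀ hR0.le r2 4
      have h5 := hG.Dlo
      have h6 := hY.k2
      calc R ^ 4 ≤ (2 * Tf x) ^ 4 := h4
        _ = 16 * Tf x ^ 4 := by ring
        _ ≤ 16 * (y ^ c * |(((PP5L.SS x).det : ℤ) : ℝ)|) := by linarith
        _ = 16 * y ^ c * |(((PP5L.SS x).det : ℤ) : ℝ)| := by ring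
        _ ≤ _ := mul_le_mul_of_nonneg_right h6 (abs_nonneg _)
    · have := hG.Tup
      linarith
  have hRr : y ^ (2 / 5 - c) ≤ R ∧ R ≤ 2 * (C1 * y ^ (2 / 5 : ℝ)) := by
    obtain ⟨P0, hP0⟩ := hne
    exact (hPdata (xf P0) (Finset.mem_image_of_mem _ hP0)).2.2.2.2.2.2.2
  have hK16 := hY.k1
  have hKpos : 0 < K := by linarith
  have hsx := shell_x (Cw := Cc) hAC hC0 hCA hCc hR0 (by linarith) h10 h20 (Ps.image xf) W
    (fun x _ => by have := hCC.nn x; simp only [hW]; positivity)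
    (fun x hx => by
      obtain ⟨a1, a2, a3, -, -, -, a7, -, -⟩ := hPdata x hx
      exact ⟨a1.ff, a2, a3, a7⟩)
    (fun k0 => by
      have h3 := cells hCC hY h1 h2 ht hRr.1 hRr.2 (Ps.image xf) kf (fun x hx => by
        obtain ⟨a1, a2, a3, a4, a5, a6, a7, -, -⟩ := hPdata x hx
        exact ⟨a1, a2, a4, a5, a6⟩) k0
      by_cases hj : ∃ j, K ≤ 4 * |(k0 j : ℝ)|
      · rw [if_pos hj] at h3
        exact h3
      · have hem : (Ps.image xf).filter (fun x => cell R K t1 t2 x = k0) = ∅ := by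
          rw [Finset.filter_eq_empty_iff]
          intro x hx hc
          obtain ⟨a1, a2, a3, -⟩ := hPdata x hx
          obtain ⟨-, b2, -⟩ := cell_facts hR0 (by linarith : 4 ≤ K) h10 h20 a1.ff a2 a3
          rw [hc] at b2
          exact hj b2
        rw [hem, Finset.sum_empty]
        positivity)
  have hpos : 0 ≤ 42 * K1 * K2 * Fc C C1 * ((16 * C * y) ^ 2 / R ^ 3) := by positivity
  refine (mul_le_mul_of_nonneg_left hsx hpos).trans (le_of_eq ?_)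
  field_simp

end Pool.Agent.PP5S
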