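import Mathlib

/-!
# PP5 section (e): the dual pigeonhole

A vector `n` of `Z^4` with `|n i| l i ≤ N` is orthogonal to a primitive `m` with `|m i| ≤ S l i`
as soon as `S^4 l0 l1 l2 l3 > 8 S N + 1`.
-/

set_option autoImplicit false

namespace Pool.Agent.PP5S

/-- a primitive vector of `Z^4` -/
def Prm (m : Fin 4 → ℤ) : Prop := ∀ d : ℤ, (∀ i, d ∣ m i) → IsUnit d

private theorem pig_prm (m : Fin 4 → ℤ) (hm : m ≠ 0) :
    ∃ (d : ℤ) (m' : Fin 4 → ℤ), 1 ≤ d ∧ (∀ i, m i = d * m' i) ∧ Prm m' := by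
  have hg : (Finset.univ : Finset (Fin 4)).gcd m ≠ 0 := by
    intro h
    rw [Finset.gcd_eq_zero_iff] at h
    exact hm (funext (fun i => h i (Finset.mem_univ i)))
  set d := (Finset.univ : Finset (Fin 4)).gcd m with hd
  have hd0 : 0 < d := by
    have h1 : normalize d = d := by rw [hd]; exact Finset.normalize_gcd
    have h2 : 0 ≤ d := by
      rw [← h1]; exact Int.nonneg_of_normalize_eq_self (by rw [h1, h1])
    exact lt_of_le_of_ne h2 (Ne.symm hg)
  refine ⟨d, fun i => m i / d, hd0, fun i => ?_, ?_⟩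
  · have : d ∣ m i := Finset.gcd_dvd (Finset.mem_univ i)
    exact (Int.mul_ediv_cancel' this).symm
  · intro e he
    have h1 : d * e ∣ d := by
      rw [hd]
      refine Finset.dvd_gcd (fun i _ => ?_)
      rw [← hd]
      have h2 : d ∣ m i := Finset.gcd_dvd (Finset.mem_univ i)
      obtain ⟨c, hc⟩ := he i
      refine ⟨c, ?_⟩
      have h3 : d * (m i / d) = m i := Int.mul_ediv_cancel' h2
      have hc' : m i / d = e * c := hc
      rw [← h3, hc']; ring
    have h4 : e ∣ 1 := by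
      have := (mul_dvd_mul_iff_left hd0.ne').mp (by simpa using h1 : d * e ∣ d * 1)
      exact this
    exact isUnit_of_dvd_one h4

theorem pig {N S : ℝ} (l : Fin 4 → ℝ) (n : Fin 4 → ℤ) (hl : ∀ i, 0 < l i)
    (hn : ∀ i, |(n i : ℝ)| * l i ≤ N) (hS : 0 < S)
    (h : 8 * S * N + 1 < S ^ 4 * ∏ i, l i) :
    ∃ m : Fin 4 → ℤ, Prm m ∧ (∀ i, |(m i : ℝ)| ≤ S * l i) ∧ ∑ i, m i * n i = 0 := by
  classical
  have hN : 0 ≤ N := le_trans (mul_nonneg (abs_nonneg _) (hl 0).le) (hn 0)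
  set X : Finset (Fin 4 → ℤ) := Fintype.piFinset (fun i => Finset.Icc 0 ⌊S * l i⌋) with hX
  have hXc : S ^ 4 * ∏ i, l i ≤ (X.card : ℝ) := by
    rw [hX, Fintype.card_piFinset]
    have h1 : S ^ 4 * ∏ i, l i = ∏ i, (S * l i) := by
      rw [Finset.prod_mul_distrib]; simp
    rw [h1]
    push_cast
    refine Finset.prod_le_prod (fun i _ => (mul_pos hS (hl i)).le) (fun i _ => ?_)
    rw [Int.card_Icc]
    have h0 : 0 ≤ ⌊S * l i⌋ := Int.floor_nonneg.mpr (mul_pos hS (hl i)).le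
    have h2 : (((⌊S * l i⌋ + 1 - 0).toNat : ℕ) : ℤ) = ⌊S * l i⌋ + 1 := by
      rw [Int.toNat_of_nonneg (by omega)]; ring
    have h3 : (((⌊S * l i⌋ + 1 - 0).toNat : ℕ) : ℝ) = (⌊S * l i⌋ : ℝ) + 1 := by exact_mod_cast h2
    rw [h3]
    exact (Int.lt_floor_add_one _).le
  have hB : 0 ≤ ⌊4 * S * N⌋ := Int.floor_nonneg.mpr (by positivity)
  set Y : Finset ℤ := Finset.Icc (-⌊4 * S * N⌋) ⌊4 * S * N⌋ with hY
  have hYc : (Y.card : ℝ) ≤ 8 * S * N + 1 := by
    rw [hY, Int.card_Icc]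
    have h2 : (((⌊4 * S * N⌋ + 1 - -⌊4 * S * N⌋).toNat : ℕ) : ℤ) = 2 * ⌊4 * S * N⌋ + 1 := by
      rw [Int.toNat_of_nonneg (by omega)]; ring
    have h3 : (((⌊4 * S * N⌋ + 1 - -⌊4 * S * N⌋).toNat : ℕ) : ℝ) = 2 * (⌊4 * S * N⌋ : ℝ) + 1 := by
      exact_mod_cast h2
    rw [h3]
    have := Int.floor_le (4 * S * N)
    linarith
  have hlt : Y.card < X.card := by
    have : (Y.card : ℝ) < (X.card : ℝ) := lt_of_le_of_lt hYc (lt_of_lt_of_le h hXc)
    exact_mod_cast this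
  have hmap : ∀ m ∈ X, (∑ i, m i * n i) ∈ Y := by
    intro m hm
    rw [hX, Fintype.mem_piFinset] at hm
    have h1 : |∑ i, (m i : ℝ) * n i| ≤ 4 * S * N := by
      refine (Finset.abs_sum_le_sum_abs _ _).trans ?_
      have h2 : ∀ i ∈ (Finset.univ : Finset (Fin 4)), |(m i : ℝ) * n i| ≤ S * N := by
        intro i _
        have h3 := Finset.mem_Icc.mp (hm i)
        have h4 : (0 : ℝ) ≤ m i := by exact_mod_cast h3.1
        have h5 : (m i : ℝ) ≤ S * l i := by
          have : (m i : ℝ) ≤ (⌊S * l i⌋ : ℝ) := by exact_mod_cast h3.2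
          exact this.trans (Int.floor_le _)
        rw [abs_mul, abs_of_nonneg h4]
        calc (m i : ℝ) * |(n i : ℝ)| ≤ (S * l i) * |(n i : ℝ)| :=
              mul_le_mul_of_nonneg_right h5 (abs_nonneg _)
          _ = S * (|(n i : ℝ)| * l i) := by ring
          _ ≤ S * N := mul_le_mul_of_nonneg_left (hn i) hS.le
      calc ∑ i, |(m i : ℝ) * n i| ≤ ∑ _i : Fin 4, S * N := Finset.sum_le_sum h2
        _ = 4 * S * N := by simp; ring
    have h6 : |(((∑ i, m i * n i : ℤ)) : ℝ)| ≤ 4 * S * N := by push_cast; exact h1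
    rw [hY, Finset.mem_Icc]
    rw [abs_le] at h6
    constructor
    · have : -((∑ i, m i * n i : ℤ) : ℝ) ≤ 4 * S * N := by linarith [h6.1]
      have h7 : (-(∑ i, m i * n i : ℤ)) ≤ ⌊4 * S * N⌋ := Int.le_floor.mpr (by push_cast; push_cast at this; linarith)
      linarith
    · exact Int.le_floor.mpr h6.2
  obtain ⟨a, ha, b, hb, hab, hfab⟩ :=
    Finset.exists_ne_map_eq_of_card_lt_of_maps_to hlt hmap
  have hne : a - b ≠ 0 := sub_ne_zero.mpr hab
  obtain ⟨d, m', hd, hdm, hpr⟩ := pig_prm (a - b) hne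
  refine ⟨m', hpr, fun i => ?_, ?_⟩
  · have h1 : |((a - b) i : ℝ)| ≤ S * l i := by
      rw [hX, Fintype.mem_piFinset] at ha hb
      have h3 := Finset.mem_Icc.mp (ha i)
      have h4 := Finset.mem_Icc.mp (hb i)
      have h5 : |a i - b i| ≤ ⌊S * l i⌋ := by rw [abs_le]; constructor <;> linarith [h3.1, h3.2, h4.1, h4.2]
      have h6 : |((a i - b i : ℤ) : ℝ)| ≤ (⌊S * l i⌋ : ℝ) := by exact_mod_cast h5
      have h7 := Int.floor_le (S * l i)
      simp only [Pi.sub_apply]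
      push_cast at h6 ⊢
      linarith
    have h2 : |(m' i : ℝ)| ≤ |((a - b) i : ℝ)| := by
      have h3 : (((a - b) i : ℤ) : ℝ) = (d : ℝ) * (m' i : ℝ) := by exact_mod_cast congrArg (fun z : ℤ => (z : ℝ)) (hdm i)
      rw [h3, abs_mul]
      have h4 : (1 : ℝ) ≤ |(d : ℝ)| := by
        rw [abs_of_pos (by exact_mod_cast (by omega : 0 < d))]; exact_mod_cast hd
      nlinarith [abs_nonneg (m' i : ℝ)]
    exact h2.trans h1
  · have h1 : ∑ i, (a - b) i * n i = 0 := by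
      simp only [Pi.sub_apply, sub_mul, Finset.sum_sub_distrib]
      linarith
    have h2 : d * ∑ i, m' i * n i = 0 := by
      rw [Finset.mul_sum, ← h1]
      refine Finset.sum_congr rfl (fun i _ => ?_)
      rw [hdm i]; ring
    rcases mul_eq_zero.mp h2 with h3 | h3
    · omega
    · exact h3

end Pool.Agent.PP5S
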