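import Pool.Agent.PP5S.DPd
import Pool.Agent.PP5S.Pig

/-!
# PP5S/Sel: the choice of `n` and `m` for a point `P` of `L_x` (for the assembly of (D'))
-/

set_option autoImplicit false

namespace Pool.Agent.PP5S

open Matrix Finset Pool.Agent.PP5B

theorem pr4_of_prm {m : Fin 4 → ℤ} (h : Prm m) : Pr4 m := by
  intro p hp hd
  have h1 := h p (fun i => hd i)
  rw [Int.isUnit_iff] at h1
  have := hp.two_le
  omega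

/-- the dual pigeonhole with `S = C1 (y / Λ) ^ (1/3)` -/
theorem pigS {Cx Cp : ℝ} (hCx : 1 ≤ Cx) (hCp : 1 ≤ Cp) : ∃ C1 : ℝ, Cp ≤ C1 ∧ 1 ≤ C1 ∧
    ∀ (y T : ℝ) (l : Fin 4 → ℝ) (n : Fin 4 → ℤ), 1 ≤ y → 0 < T → T ≤ Cp * y ^ (2 / 5 : ℝ) →
    (∀ i, 0 < l i) → ∏ i, l i ≤ Cx * T ^ 4 → (∀ i, |(n i : ℝ)| * l i ≤ 16 * Cx * y) →
    ∃ m : Fin 4 → ℤ, Pr4 m ∧ m ⬝ᵥ n = 0 ∧
      ∀ i, |(m i : ℝ)| ≤ C1 * (y / ∏ i, l i) ^ (1 / 3 : ℝ) * l i := by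
  refine ⟨129 * Cx * Cp ^ 4, ?_, ?_, ?_⟩
  · have h1 : Cp ≤ Cp ^ 4 := le_self_pow₀ hCp (by norm_num)
    have h2 : 0 ≤ Cp ^ 4 := by positivity
    nlinarith
  · have h1 : 1 ≤ Cp ^ 4 := one_le_pow₀ hCp
    nlinarith
  intro y T l n hy hT hTy hl hΛ hn
  have hy0 : 0 < y := by linarith
  have hCx0 : 0 < Cx := by linarith
  have hCp0 : 0 < Cp := by linarith
  set Λ : ℝ := ∏ i, l i with hΛd
  have hΛ0 : 0 < Λ := Finset.prod_pos fun i _ => hl i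
  set C1 : ℝ := 129 * Cx * Cp ^ 4 with hC1
  have hCp4 : 1 ≤ Cp ^ 4 := one_le_pow₀ hCp
  have hC1a : 129 * Cx ≤ C1 := by rw [hC1]; nlinarith
  have hC1b : 1 ≤ C1 := by linarith
  set z : ℝ := (y / Λ) ^ (1 / 3 : ℝ) with hz
  have hz0 : 0 < z := by positivity
  have hz3 : z ^ 3 * Λ = y := by
    rw [hz, ← Real.rpow_natCast, ← Real.rpow_mul (by positivity)]
    norm_num
    field_simp
  -- z y ≥ 1 / (Cx Cp ^ 4)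
  have hzy : 1 ≤ Cx * Cp ^ 4 * (z * y) := by
    have h1 : Λ ≤ Cx * Cp ^ 4 * (y ^ (2 / 5 : ℝ)) ^ 4 := by
      refine hΛ.trans ?_
      have : T ^ 4 ≤ (Cp * y ^ (2 / 5 : ℝ)) ^ 4 := pow_le_pow_left₀ hT.le hTy 4
      calc Cx * T ^ 4 ≤ Cx * (Cp * y ^ (2 / 5 : ℝ)) ^ 4 := mul_le_mul_of_nonneg_left this hCx0.le
        _ = _ := by ring
    have h2 : (y ^ (2 / 5 : ℝ)) ^ 4 ≤ y ^ 4 := by
      apply pow_le_pow_left₀ (by positivity)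
      calc y ^ (2 / 5 : ℝ) ≤ y ^ (1 : ℝ) := Real.rpow_le_rpow_of_exponent_le hy (by norm_num)
        _ = y := Real.rpow_one y
    have h3 : Λ ≤ Cx * Cp ^ 4 * y ^ 4 := h1.trans (mul_le_mul_of_nonneg_left h2 (by positivity))
    by_contra hc
    push Not at hc
    have h4 : (Cx * Cp ^ 4 * (z * y)) ^ 3 < 1 := pow_lt_one₀ (by positivity) hc (by norm_num)
    have h5 : (Cx * Cp ^ 4 * (z * y)) ^ 3 * Λ = (Cx * Cp ^ 4) ^ 3 * y ^ 4 := by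
      calc (Cx * Cp ^ 4 * (z * y)) ^ 3 * Λ = (Cx * Cp ^ 4) ^ 3 * y ^ 3 * (z ^ 3 * Λ) := by ring
        _ = _ := by rw [hz3]; ring
    have h6 : (Cx * Cp ^ 4) ^ 3 * y ^ 4 < Λ := by
      rw [← h5]
      calc (Cx * Cp ^ 4 * (z * y)) ^ 3 * Λ < 1 * Λ := mul_lt_mul_of_pos_right h4 hΛ0
        _ = Λ := one_mul _
    have h7 : Cx * Cp ^ 4 ≤ (Cx * Cp ^ 4) ^ 3 := le_self_pow₀ (by nlinarith) (by norm_num)
    have h8 : Cx * Cp ^ 4 * y ^ 4 ≤ (Cx * Cp ^ 4) ^ 3 * y ^ 4 :=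
      mul_le_mul_of_nonneg_right h7 (by positivity)
    linarith
  obtain ⟨m, h1, h2, h3⟩ := pig (N := 16 * Cx * y) (S := C1 * z) l n hl hn (by positivity) (by
    have e : (C1 * z) ^ 4 * Λ = C1 ^ 4 * z * (z ^ 3 * Λ) := by ring
    rw [← hΛd, e, hz3]
    have h4 : 8 * (C1 * z) * (16 * Cx * y) = 128 * Cx * (C1 * (z * y)) := by ring
    have h5 : C1 ^ 4 * z * y = C1 ^ 3 * (C1 * (z * y)) := by ring
    rw [h4, h5]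
    have h6 : 129 ≤ C1 * (z * y) := by
      have : C1 * (z * y) = 129 * (Cx * Cp ^ 4 * (z * y)) := by rw [hC1]; ring
      rw [this]; linarith
    have h7 : C1 ≤ C1 ^ 3 := le_self_pow₀ hC1b (by norm_num)
    have h8 : (1 : ℝ) ≤ C1 ^ 3 - 128 * Cx := by linarith
    nlinarith)
  refine ⟨m, pr4_of_prm h1, ?_, h2⟩
  rw [← h3]
  rfl

/-- the choice of `n` and `m` for a point `P` in `L_x` -/
theorem sel {Cx Cp : ℝ} (hCx : 1 ≤ Cx) (hCp : 1 ≤ Cp) : ∃ C1 : ℝ, Cp ≤ C1 ∧ 1 ≤ C1 ∧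
    ∀ (y t1 t2 T : ℝ) (x : Fin 10 → ℤ) (b : Fin 4 → PP5.Sp) (G : Matrix (Fin 4) (Fin 4) ℤ)
      (l : Fin 4 → ℝ) (k : ℕ) (P : PP5.Sp), 1 ≤ y → XD Cx t1 t2 T x b G l k →
    T ≤ Cp * y ^ (2 / 5 : ℝ) → PP5.InP 16 (y ^ 4) y t1 t2 P → PP5.InE P x →
    ∃ m n : Fin 4 → ℤ, (∀ a, P a = ∑ i, n i * b i a) ∧ (∀ i, |(n i : ℝ)| * l i ≤ 16 * Cx * y) ∧
      Pr4 n ∧ n ⬝ᵥ (G *ᵥ n) = 0 ∧ Pr4 m ∧ m ⬝ᵥ n = 0 ∧
      ∀ i, |(m i : ℝ)| ≤ C1 * (y / ∏ i, l i) ^ (1 / 3 : ℝ) * l i := by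
  obtain ⟨C1, h1, h2, h3⟩ := pigS hCx hCp
  refine ⟨C1, h1, h2, ?_⟩
  intro y t1 t2 T x b G l k P hy hX hT hP hE
  obtain ⟨n, hn1, hn2⟩ := hX.span P (16 * y) hE hP.bx
  have hn3 : ∀ i, |(n i : ℝ)| * l i ≤ 16 * Cx * y := fun i => (hn2 i).trans (le_of_eq (by ring))
  obtain ⟨m, m1, m2, m3⟩ := h3 y T l n hy hX.T0 hT hX.lp hX.prod hn3
  refine ⟨m, n, hn1, hn3, pr4_of hP.pr hn1, ?_, m1, m2, m3⟩
  apply hX.quad n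
  have e : (fun a => ∑ i, n i * b i a) = P := by funext a; exact (hn1 a).symm
  rw [e]; exact hP.qd

end Pool.Agent.PP5S
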