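import Pool.Agent.PP5S.Shl

/-!
# PP5 section (e): the bound for one `x` with its data, and the cells
-/

namespace Pool.Agent.PP5S

open Matrix Finset Pool.Agent.PP5B

/-- the constant of `fin_real` -/
noncomputable def Fc (C C1 : ℝ) : ℝ :=
  64 * (384 + C ^ 2) ^ (1 / 8 : ℝ) * (C1 ^ 3 / (16 * C) * (1 + (1 + C1 ^ 3 / (16 * C) *
    (√(24 * C ^ 4) * (24 * C ^ 4)) * C ^ 2 * (C1 ^ 5 / (256 * C ^ 2)))))

theorem det_G_le {C T : ℝ} {G : Matrix (Fin 4) (Fin 4) ℤ} {l : Fin 4 → ℝ} (hT : 0 < T)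
    (hG : ∀ i j, |(G i j : ℝ)| ≤ C * l i * l j / T) :
    |(G.det : ℝ)| ≤ 24 * C ^ 4 * (∏ i, l i) ^ 2 / T ^ 4 := by
  rw [det_cast]
  have h := det_scale (G.map (Int.cast : ℤ → ℝ)) (fun i => C * l i / T) l (by
    intro i j
    have := hG i j
    have e : C * l i / T * l j = C * l i * l j / T := by ring
    simp only [Matrix.map_apply]
    rw [e]; exact this)
  refine h.trans (le_of_eq ?_)
  rw [Finset.prod_div_distrib, Finset.prod_mul_distrib]
  simp
  field_simp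

/-- THE BOUND FOR ONE `x` -/
theorem one_x {C C1 K1 K2 δ δ1 c3 Cc c d0 A y κ K t1 t2 R T : ℝ} {h J0 J : ℕ}
    (hC : 1 ≤ C) (hC1 : 1 ≤ C1) (hK1 : 0 ≤ K1) (hK2 : 0 ≤ K2) (hcon : ConB C K1)
    (hcone : ConeB K2) (hbox : BoxB K2) {Θ : (Fin 10 → ℤ) → ℝ}
    (hCC : CC y δ δ1 A c3 Cc Θ) (hY : Yo C C1 δ δ1 c3 c d0 A y h J0 J κ K)
    (h1 : 0 < t1) (h2 : 0 < t2) {x : Fin 10 → ℤ} {b : Fin 4 → PP5.Sp}
    {G : Matrix (Fin 4) (Fin 4) ℤ} {l : Fin 4 → ℝ} {k : ℕ} (hX : XD C t1 t2 T x b G l k)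
    (hTR : T ≤ R) (hRT : R ≤ 2 * T) (Qs : Finset PP5.Sp) (mf nf : PP5.Sp → Fin 4 → ℤ)
    (hQ : ∀ P ∈ Qs, PP5.InP 16 (y ^ 4) y t1 t2 P ∧ GP y c C1 T x b G l k P (mf P) (nf P))
    (hne : Qs.Nonempty) :
    ∑ m ∈ Qs.image mf, ((((Qs.filter (fun P => mf P = m)).image nf).card : ℕ) : ℝ) ≤
      42 * K1 * K2 * Fc C C1 * ((k : ℝ) ^ (5 / 4 : ℝ) * Θ x *
        (R ^ 4 / |(((PP5L.SS x).det : ℤ) : ℝ)|) ^ (5 / 8 : ℝ)) * ((16 * C * y) ^ 2 / R ^ 3) := by
  classical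
  have hC0 : 0 < C := by linarith
  have hC10 : 0 < C1 := by linarith
  have hy1 := hY.y1
  have hy0 : 0 < y := by linarith
  obtain ⟨P0, hP0⟩ := hne
  obtain ⟨-, g0⟩ := hQ P0 hP0
  have hT := hX.T0
  set Λ : ℝ := ∏ i, l i with hΛ
  have hΛ0 : 0 < Λ := Finset.prod_pos fun i _ => hX.lp i
  set S : ℝ := C1 * (y / Λ) ^ (1 / 3 : ℝ) with hS
  have hS0 : 0 < S := by positivity
  have hdR : (0 : ℝ) < |(G.det : ℝ)| := abs_pos.2 (by exact_mod_cast hX.xg.det)
  have hDR : (0 : ℝ) < |(((PP5L.SS x).det : ℤ) : ℝ)| :=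
    abs_pos.2 (by exact_mod_cast g0.ok.dn)
  have hR0 : 0 < R := by linarith
  have hxR : ∀ j, |(x j : ℝ)| ≤ R * PP5.tx t1 t2 j := fun j =>
    (hX.Tle j).trans (mul_le_mul_of_nonneg_right hTR (tx_pos h1 h2 j).le)
  have hDup := det_up h1 h2 hxR
  have hYpos : 0 < 16 * C * y := by positivity
  -- the sum over m
  have main := per_x hC0 hK1 hK2 hcon hcone hbox G hX.xg.sym hX.xg.ev hX.xg.det T (16 * C * y) S
    (Θ x) κ l hT hYpos hS0 hX.lp (hCC.nn x) hY.κ0 hY.κ1 hX.gram h J0 J hY.hh (by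
      intro i
      have h3 := hY.a1 T Λ (l 0) g0.Tlo g0.Tup hΛ0 hX.prod g0.l0
      refine h3.trans ?_
      apply mul_le_mul_of_nonneg_left _ hY.κ0.le
      exact mul_le_mul_of_nonneg_left (hX.l_ge i) (by positivity)) (y ^ c3)
    (hY.a2 T Λ g0.Tlo g0.Tup hΛ0 hX.prod) hY.a3 (by
      intro B hB ha
      refine dic_C1 hX.xg (hCC.c1 x g0.ok.dn (by
        unfold PP5C.D2
        push_cast
        have e : ((PP5C.DX x).natAbs : ℝ) = |(((PP5L.SS x).det : ℤ) : ℝ)| := by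
          rw [DX_eq, ← Int.cast_abs, Int.abs_eq_natAbs]
          rfl
        rw [e]
        have h5 := hY.a5 R hR0 (by have := g0.Tup; linarith)
        linarith)) hY.hδ B ?_ ha
      intro m hm
      obtain ⟨b1, b2, b3, b4⟩ := hB m hm
      refine ⟨b1, b2, b3, ?_⟩
      exact (D2_le hC0 hT hS0 hX.lp hX.gram b4).trans
        (hY.a2' T Λ g0.Tlo g0.Tup hΛ0 hX.prod))
    (Qs.image mf) (by
      intro m hm
      obtain ⟨P, hP, rfl⟩ := Finset.mem_image.1 hm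
      obtain ⟨-, g⟩ := hQ P hP
      refine ⟨g.mp, g.D2n, g.slu.trans hY.cc, g.mup, ?_⟩
      obtain ⟨i, hi⟩ := g.mlo
      refine ⟨i, hi.trans ?_⟩
      exact mul_le_mul_of_nonneg_right hY.a4 (abs_nonneg _))
    (fun m => (Qs.filter (fun P => mf P = m)).image nf) (by
      intro m hm v hv
      obtain ⟨P, hP, rfl⟩ := Finset.mem_image.1 hv
      rw [Finset.mem_filter] at hP
      obtain ⟨hin, g⟩ := hQ P hP.1
      have hPn : (fun a => ∑ i, nf P i * b i a) = P := by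
        funext a; exact (g.sum a).symm
      refine ⟨pr4_of hin.pr g.sum, ?_, ?_, ?_⟩
      · apply hX.quad
        rw [hPn]
        exact hin.qd
      · rw [← hP.2]; exact g.mn
      · -- the size of the coordinates
        obtain ⟨n', hn', hsz⟩ := hX.span P (16 * y) g.inE (by
          intro i
          have := hin.bx i
          linarith)
        have hnn : nf P = n' := by
          have h3 := hX.ind (fun i => nf P i - n' i) (by
            intro a
            have h4 := g.sum a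
            rw [hn' a] at h4
            simp only [sub_mul, Finset.sum_sub_distrib]
            linarith)
          funext i
          have := congrFun h3 i
          simp only [Pi.zero_apply] at this
          linarith
        intro i
        rw [hnn]
        have := hsz i
        linarith)
  refine main.trans ?_
  -- the real inequality
  have hkd : (k : ℝ) ^ 2 * |(G.det : ℝ)| = |(((PP5L.SS x).det : ℤ) : ℝ)| := by
    rw [hX.kd]
    push_cast
    rw [abs_mul, abs_of_nonneg (show (0 : ℝ) ≤ (k : ℝ) ^ 2 by positivity)]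
  have hk1 : (1 : ℝ) ≤ (k : ℝ) := by exact_mod_cast hX.k1
  have hS3 : S ^ 3 * Λ = C1 ^ 3 / (16 * C) * (16 * C * y) := by
    have e : ((y / Λ) ^ (1 / 3 : ℝ)) ^ 3 = y / Λ := by
      rw [← Real.rpow_natCast, ← Real.rpow_mul (by positivity)]
      norm_num
    rw [hS, mul_pow, e]
    field_simp
  have hfin := fin_real (a := C1 ^ 3 / (16 * C)) (b := 24 * C ^ 4) (C3 := C)
    (C4 := C1 ^ 5 / (256 * C ^ 2)) (Y := 16 * C * y) (T := T) (S := S) (Λ := Λ)
    (d := |(G.det : ℝ)|) (D := |(((PP5L.SS x).det : ℤ) : ℝ)|) (k := (k : ℝ)) (R := R)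
    (by positivity) (by positivity) hYpos hT hS0 hΛ0 hdR hS3 (det_G_le hT hX.gram) hX.prod (by
      have h3 : T ^ 5 ≤ (C1 * y ^ (2 / 5 : ℝ)) ^ 5 := pow_le_pow_left₀ hT.le g0.Tup 5
      have e : (C1 * y ^ (2 / 5 : ℝ)) ^ 5 = C1 ^ 5 * y ^ 2 := by
        rw [mul_pow, ← Real.rpow_natCast (y ^ (2 / 5 : ℝ)), ← Real.rpow_mul hy0.le,
          ← Real.rpow_natCast y 2]
        norm_num
      rw [e] at h3
      refine h3.trans (le_of_eq ?_)
      field_simp
      ring) hDR hk1 hkd hDup hTR hRT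
  have hpos : 0 ≤ 42 * K1 * K2 * Θ x := by
    have := hCC.nn x
    positivity
  calc 42 * K1 * K2 * Θ x *
        (1 + Real.log (1 + Λ ^ 2 / (T ^ 4 * |(G.det : ℝ)|))) *
        ((S ^ 4 * Λ) * (1 + 16 * C * y / (T * S * √|(G.det : ℝ)|)))
      = 42 * K1 * K2 * Θ x * ((1 + Real.log (1 + Λ ^ 2 / (T ^ 4 * |(G.det : ℝ)|))) *
        ((S ^ 4 * Λ) * (1 + 16 * C * y / (T * S * √|(G.det : ℝ)|)))) := by ring
    _ ≤ 42 * K1 * K2 * Θ x * (Fc C C1 * ((k : ℝ) ^ (5 / 4 : ℝ) *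
        (R ^ 4 / |(((PP5L.SS x).det : ℤ) : ℝ)|) ^ (5 / 8 : ℝ) * ((16 * C * y) ^ 2 / R ^ 3))) :=
        mul_le_mul_of_nonneg_left hfin hpos
    _ = _ := by ring

/-- THE CELLS -/
theorem cells {C C1 δ δ1 c3 Cc c d0 A y κ K t1 t2 R : ℝ} {h J0 J : ℕ}
    {Θ : (Fin 10 → ℤ) → ℝ} (hCC : CC y δ δ1 A c3 Cc Θ)
    (hY : Yo C C1 δ δ1 c3 c d0 A y h J0 J κ K) (h1 : 1 ≤ t1) (h2 : 1 ≤ t2)
    (ht : t1 * t2 ≤ y ^ d0) (hR1 : y ^ (2 / 5 - c) ≤ R) (hR2 : R ≤ 2 * (C1 * y ^ (2 / 5 : ℝ)))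
    (X : Finset (Fin 10 → ℤ)) (kf : (Fin 10 → ℤ) → ℕ)
    (hX : ∀ x ∈ X, Xok x ∧ (∀ j, |(x j : ℝ)| ≤ R * PP5.tx t1 t2 j) ∧ 1 ≤ kf x ∧
      PP5K.RK (kf x) x ∧ (kf x : ℝ) ≤ y ^ c) (k0 : Fin 10 → ℤ) :
    ∑ x ∈ X with cell R K t1 t2 x = k0, (kf x : ℝ) ^ (5 / 4 : ℝ) * Θ x ≤
      (if ∃ j, K ≤ 4 * |(k0 j : ℝ)| then Cc * R ^ 8 / K ^ 9 else
        ∑ x ∈ X with cell R K t1 t2 x = k0, (kf x : ℝ) ^ (5 / 4 : ℝ) * Θ x) := by
  classical
  split_ifs with hj
  swap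
  · exact le_refl _
  obtain ⟨j, hj⟩ := hj
  have hK : 0 < K := by have := hY.k1; linarith
  have hy1 := hY.y1
  have hy0 : 0 < y := by linarith
  have hR : 0 < R := lt_of_lt_of_le (by positivity) hR1
  have h10 : 0 < t1 := by linarith
  have h20 : 0 < t2 := by linarith
  set ρ : ℝ := R / K with hρ
  have hρ0 : 0 < ρ := by positivity
  have key := hCC.c2 ρ R (PP5.tx t1 t2) (fun i => (k0 i : ℝ) * (ρ * PP5.tx t1 t2 i)) j (by
    refine ⟨?_, ?_, ?_, ?_, ?_⟩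
    · rw [hρ, le_div_iff₀ hK]; exact hY.k4.trans hR1
    · rw [hρ]; exact div_le_self hR.le (by have := hY.k1; linarith)
    · rw [hρ, mul_div_assoc', le_div_iff₀ hK, mul_comm]
      exact mul_le_mul_of_nonneg_right hY.k3 hR.le
    · intro i
      obtain ⟨a1, a2⟩ := tx_le h1 h2 i
      have h3 : (t1 * t2) ^ 2 ≤ y ^ δ1 := by
        have : (t1 * t2) ^ 2 ≤ (y ^ d0) ^ 2 := pow_le_pow_left₀ (by positivity) ht 2
        refine this.trans ?_
        have e : (y ^ d0) ^ 2 = y ^ (2 * d0) := by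
          rw [← Real.rpow_natCast, ← Real.rpow_mul hy0.le]
          congr 1; push_cast; ring
        rw [e]; exact hY.d1
      refine ⟨?_, a2.trans h3⟩
      refine le_trans ?_ a1
      rw [Real.rpow_neg hy0.le, ← one_div]
      exact one_div_le_one_div_of_le (by positivity) h3
    · refine ⟨?_, ?_, ?_, ?_, ?_⟩ <;> simp [PP5.tx] <;> field_simp)
    (X.filter (fun x => cell R K t1 t2 x = k0)) kf (by
      intro x hx
      rw [Finset.mem_filter] at hx
      obtain ⟨hxX, hxc⟩ := hx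
      obtain ⟨a1, a2, a3, a4, a5⟩ := hX x hxX
      have htx : ∀ i, 0 < PP5.tx t1 t2 i := tx_pos h10 h20
      have hfl : ∀ i, (k0 i : ℝ) * (ρ * PP5.tx t1 t2 i) ≤ (x i : ℝ) ∧
          (x i : ℝ) ≤ (k0 i : ℝ) * (ρ * PP5.tx t1 t2 i) + ρ * PP5.tx t1 t2 i := by
        intro i
        have hk : k0 i = ⌊(x i : ℝ) * K / (R * PP5.tx t1 t2 i)⌋ := by rw [← hxc]; rfl
        have f1 := Int.floor_le ((x i : ℝ) * K / (R * PP5.tx t1 t2 i))
        have f2 := Int.lt_floor_add_one ((x i : ℝ) * K / (R * PP5.tx t1 t2 i))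
        rw [← hk] at f1 f2
        have ht := htx i
        have e : (x i : ℝ) * K / (R * PP5.tx t1 t2 i) = (x i : ℝ) / (ρ * PP5.tx t1 t2 i) := by
          rw [hρ]; field_simp
        rw [e] at f1 f2
        have hρt : 0 < ρ * PP5.tx t1 t2 i := mul_pos hρ0 ht
        constructor
        · rwa [le_div_iff₀ hρt] at f1
        · rw [div_lt_iff₀ hρt] at f2
          linarith
      refine ⟨⟨?_, ?_, a1.ff, ?_, a1.dn, ?_⟩, a3, a4, a5.trans hY.cc⟩
      · intro i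
        refine ⟨(hfl i).1, (hfl i).2, (a2 i).trans ?_⟩
        have := htx i
        have : 0 ≤ R * PP5.tx t1 t2 i := by positivity
        linarith
      · -- big
        have ht := htx j
        have hρt : 0 < ρ * PP5.tx t1 t2 j := mul_pos hρ0 ht
        have hK16 := hY.k1
        have e : R * PP5.tx t1 t2 j / 16 = K / 16 * (ρ * PP5.tx t1 t2 j) := by
          rw [hρ]; field_simp
        rw [e]
        have h3 : (|(k0 j : ℝ)| - 1) * (ρ * PP5.tx t1 t2 j) ≤ |(x j : ℝ)| := by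
          obtain ⟨f1, f2⟩ := hfl j
          rcases le_or_gt 0 (k0 j : ℝ) with h4 | h4
          · rw [abs_of_nonneg h4]
            have := le_abs_self (x j : ℝ)
            nlinarith
          · rw [abs_of_neg h4]
            have := neg_abs_le (x j : ℝ)
            nlinarith
        refine le_trans ?_ h3
        apply mul_le_mul_of_nonneg_right _ hρt.le
        linarith
      · intro l hl
        exact a1.pr l hl
      · unfold PP5C.D2
        push_cast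
        have e : ((PP5C.DX x).natAbs : ℝ) = |(((PP5L.SS x).det : ℤ) : ℝ)| := by
          rw [DX_eq, ← Int.cast_abs, Int.abs_eq_natAbs]
          rfl
        rw [e]
        have h5 := hY.a5 R hR hR2
        have h6 := det_up h10 h20 a2
        linarith)
  refine key.trans (le_of_eq ?_)
  rw [hρ]
  field_simp

end Pool.Agent.PP5S
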