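import Pool.Agent.PP5S.Dat

/-!
# PP5 section (e): the points with a good pair `(x, m)`, `R / 2 ≤ |x| ≤ R`
-/

namespace Pool.Agent.PP5S

open Matrix Finset Pool.Agent.PP5B

/-- Theorem C at the parameter `y` (`c2` with the weight of the index) -/
structure CC (y δ δ1 A c3 Cc : ℝ) (Θ : (Fin 10 → ℤ) → ℝ) : Prop where
  nn : ∀ x, 0 ≤ Θ x
  c1 : ∀ x : Fin 10 → ℤ, PP5C.DX x ≠ 0 → (PP5C.D2 x : ℝ) ≤ y ^ A →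
      ∀ c : Matrix (Fin 4) (Fin 4) ℤ,
      (∀ l : ℕ, l.Prime → ¬ l ∣ PP5C.D2 x → ¬ (l : ℤ) ∣ (c + c.transpose).det) →
      (∀ n : ℕ, PP5C.Cn n c → PP5C.An n x) →
      ∀ (A0 : Fin 4 → ℤ) (H : ℕ), y ^ δ ≤ (H : ℝ) →
      ∀ (om : (Fin 4 → ℤ) → ℕ → ℝ) (ix : (Fin 4 → ℤ) → ℕ → ℕ) (S : Finset (Fin 4 → ℤ)),
      (∀ m ∈ S, m ∈ PP5C.bx A0 (fun _ => H) ∧ PP5C.Pm m ∧ PP5C.qf c m ≠ 0 ∧
        ((PP5C.qf c m).natAbs : ℝ) ≤ y ^ A ∧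
        PP5C.Wgt (PP5C.D2 x) (PP5C.qf c m).natAbs (PP5C.psx x) (om m) (ix m) ∧
        (PP5C.sx (PP5C.D2 x) (PP5C.qf c m).natAbs (ix m) : ℝ) ≤ y ^ c3) →
      ∑ m ∈ S, ∏ l ∈ (PP5C.qf c m).natAbs.primeFactors, om m l ≤ (H : ℝ) ^ 4 * Θ x
  c2 : ∀ (ρ R : ℝ) (τ Y : Fin 10 → ℝ) (j : Fin 10), PP5C.Scl y δ δ1 ρ R τ →
      ∀ (S : Finset (Fin 10 → ℤ)) (kf : (Fin 10 → ℤ) → ℕ),
      (∀ x ∈ S, PP5C.Cel y A ρ R τ Y j x ∧ 1 ≤ kf x ∧ PP5K.RK (kf x) x ∧ (kf x : ℝ) ≤ y ^ c3) →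
      ∑ x ∈ S, (kf x : ℝ) ^ (5 / 4 : ℝ) * Θ x ≤ Cc * (ρ ^ 9 / R)

/-- the choice of the parameters at `y` -/
structure Yo (C C1 δ δ1 c3 c d0 A y : ℝ) (h J0 J : ℕ) (κ K : ℝ) : Prop where
  y1 : 1 ≤ y
  hh : 0 < h
  hδ : y ^ δ ≤ (h : ℝ)
  κ0 : 0 < κ
  κ1 : κ ≤ 1
  a1 : ∀ T Λ l0 : ℝ, y ^ (2 / 5 - c) ≤ T → T ≤ C1 * y ^ (2 / 5 : ℝ) → 0 < Λ → Λ ≤ C * T ^ 4 →
    y ^ (2 / 5 - c) ≤ l0 → (h : ℝ) ≤ κ * (C1 * (y / Λ) ^ (1 / 3 : ℝ) / 2 ^ J0 * l0)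
  a2 : ∀ T Λ : ℝ, y ^ (2 / 5 - c) ≤ T → T ≤ C1 * y ^ (2 / 5 : ℝ) → 0 < Λ → Λ ≤ C * T ^ 4 →
    24 * C ^ 3 * Λ ^ 2 / T ^ 3 * (C1 * (y / Λ) ^ (1 / 3 : ℝ)) ^ 2 ≤ 2 ^ J
  a2' : ∀ T Λ : ℝ, y ^ (2 / 5 - c) ≤ T → T ≤ C1 * y ^ (2 / 5 : ℝ) → 0 < Λ → Λ ≤ C * T ^ 4 →
    16 * (24 * C ^ 3 * Λ ^ 2 / T ^ 3 * (C1 * (y / Λ) ^ (1 / 3 : ℝ)) ^ 2) ≤ y ^ A
  a3 : (J : ℝ) * √κ ≤ 1
  a4 : y ^ c ≤ 2 ^ J0
  a5 : ∀ R : ℝ, 0 < R → R ≤ 2 * (C1 * y ^ (2 / 5 : ℝ)) → 768 * R ^ 4 ≤ y ^ A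
  k1 : 16 ≤ K
  k2 : 16 * y ^ c ≤ K
  k3 : K ≤ y ^ δ1
  k4 : y ^ δ * K ≤ y ^ (2 / 5 - c)
  d1 : y ^ (2 * d0) ≤ y ^ δ1
  cc : y ^ c ≤ y ^ c3

/-- the bound for `D2 G m` -/
theorem D2_le {C T S : ℝ} {G : Matrix (Fin 4) (Fin 4) ℤ} {l : Fin 4 → ℝ} (hC : 0 < C)
    (hT : 0 < T) (hS : 0 < S) (hl : ∀ i, 0 < l i) (hG : ∀ i j, |(G i j : ℝ)| ≤ C * l i * l j / T)
    {m : Fin 4 → ℤ} (hm : ∀ i, |(m i : ℝ)| ≤ S * l i) :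
    |(D2 G m : ℝ)| ≤ 16 * (24 * C ^ 3 * (∏ i, l i) ^ 2 / T ^ 3 * S ^ 2) := by
  set A : Matrix (Fin 4) (Fin 4) ℝ := G.adjugate.map (Int.cast : ℤ → ℝ) with hA
  have hAa : A = (G.map (Int.cast : ℤ → ℝ)).adjugate := adj_cast G
  have hent : ∀ i j, |A i j| * (l i * l j) ≤ 24 * C ^ 3 * (∏ i, l i) ^ 2 / T ^ 3 := by
    intro i j
    have h1 := adj_scale (G.map (Int.cast : ℤ → ℝ)) (fun i => C * l i / T) l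
      (fun i => by have := hl i; positivity) hl (by
        intro i j
        have := hG i j
        have e : C * l i / T * l j = C * l i * l j / T := by ring
        rw [e]; exact this) i j
    rw [← hAa] at h1
    have h2 : ∏ i : Fin 4, C * l i / T = C ^ 4 * (∏ i, l i) / T ^ 4 := by
      rw [Finset.prod_div_distrib, Finset.prod_mul_distrib]
      simp
    rw [h2] at h1
    have h3 : |A i j| * (C * l j / T * l i) = C / T * (|A i j| * (l i * l j)) := by ring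
    rw [h3] at h1
    have h4 : 24 * (C ^ 4 * (∏ i, l i) / T ^ 4 * (∏ i, l i)) =
        C / T * (24 * C ^ 3 * (∏ i, l i) ^ 2 / T ^ 3) := by
      field_simp
    rw [h4] at h1
    exact le_of_mul_le_mul_left h1 (by positivity)
  rw [D2_cast, ← hA]
  have e : (fun i => (m i : ℝ)) ⬝ᵥ (A *ᵥ fun i => (m i : ℝ)) =
      ∑ i, ∑ j, (m i : ℝ) * (A i j * (m j : ℝ)) := by
    simp only [dotProduct, mulVec, Finset.mul_sum]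
  rw [e]
  refine (Finset.abs_sum_le_sum_abs _ _).trans ?_
  have h5 : ∀ i ∈ (Finset.univ : Finset (Fin 4)), |∑ j, (m i : ℝ) * (A i j * (m j : ℝ))| ≤
      4 * (24 * C ^ 3 * (∏ i, l i) ^ 2 / T ^ 3 * S ^ 2) := by
    intro i _
    refine (Finset.abs_sum_le_sum_abs _ _).trans ?_
    have h6 : ∀ j ∈ (Finset.univ : Finset (Fin 4)), |(m i : ℝ) * (A i j * (m j : ℝ))| ≤
        24 * C ^ 3 * (∏ i, l i) ^ 2 / T ^ 3 * S ^ 2 := by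
      intro j _
      rw [abs_mul, abs_mul]
      have h7 := hm i
      have h8 := hm j
      have h9 := hent i j
      have li := hl i
      have lj := hl j
      calc |(m i : ℝ)| * (|A i j| * |(m j : ℝ)|) ≤ (S * l i) * (|A i j| * (S * l j)) := by
            apply mul_le_mul h7 _ (by positivity) (by positivity)
            exact mul_le_mul_of_nonneg_left h8 (abs_nonneg _)
        _ = (|A i j| * (l i * l j)) * S ^ 2 := by ring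
        _ ≤ _ := mul_le_mul_of_nonneg_right h9 (by positivity)
    refine (Finset.sum_le_sum h6).trans (le_of_eq ?_)
    rw [Finset.sum_const, Finset.card_univ, Fintype.card_fin, nsmul_eq_mul]
    norm_num
  refine (Finset.sum_le_sum h5).trans (le_of_eq ?_)
  rw [Finset.sum_const, Finset.card_univ, Fintype.card_fin, nsmul_eq_mul]
  ring

theorem tx_le {t1 t2 : ℝ} (h1 : 1 ≤ t1) (h2 : 1 ≤ t2) (j : Fin 10) :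
    1 / (t1 * t2) ^ 2 ≤ PP5.tx t1 t2 j ∧ PP5.tx t1 t2 j ≤ (t1 * t2) ^ 2 := by
  have h10 : 0 < t1 := by linarith
  have h20 : 0 < t2 := by linarith
  have a1 : (1 : ℝ) ≤ t1 ^ 2 := one_le_pow₀ h1
  have a2 : (1 : ℝ) ≤ t2 ^ 2 := one_le_pow₀ h2
  have a3 : 1 ≤ t1 * t2 := by nlinarith
  have a4 : (t1 * t2) ^ 2 = t1 ^ 2 * t2 ^ 2 := by ring
  have a5 : t1 ≤ t1 ^ 2 := by nlinarith
  have a6 : t2 ≤ t2 ^ 2 := by nlinarith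
  rw [a4]
  have b1 : t1 ^ 2 ≤ t1 ^ 2 * t2 ^ 2 := le_mul_of_one_le_right (by positivity) a2
  have b2 : t2 ^ 2 ≤ t1 ^ 2 * t2 ^ 2 := le_mul_of_one_le_left (by positivity) a1
  have b3 : (1 : ℝ) ≤ t1 ^ 2 * t2 ^ 2 := a1.trans b1
  have b4 : t1 * t2 ≤ t1 ^ 2 * t2 ^ 2 := mul_le_mul a5 a6 h20.le (by positivity)
  have b5 : 1 / (t1 ^ 2 * t2 ^ 2) ≤ 1 := by rw [div_le_one (by positivity)]; exact b3
  have b6 : 1 / (t1 ^ 2 * t2 ^ 2) ≤ 1 / t1 ^ 2 := one_div_le_one_div_of_le (by positivity) b1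
  have b7 : 1 / (t1 ^ 2 * t2 ^ 2) ≤ 1 / t2 ^ 2 := one_div_le_one_div_of_le (by positivity) b2
  have b8 : 1 / (t1 ^ 2 * t2 ^ 2) ≤ 1 / (t1 * t2) := one_div_le_one_div_of_le (by positivity) b4
  have b9 : 1 / t1 ^ 2 ≤ 1 := by rw [div_le_one (by positivity)]; exact a1
  have b10 : 1 / t2 ^ 2 ≤ 1 := by rw [div_le_one (by positivity)]; exact a2
  have b11 : 1 / (t1 * t2) ≤ 1 := by rw [div_le_one (by positivity)]; exact a3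
  have c1 : 1 / (t1 ^ 2 * t2 ^ 2) ≤ t1 / t2 := by
    rw [div_le_div_iff₀ (by positivity) h20]
    nlinarith [mul_nonneg h10.le (show 0 ≤ t1 ^ 2 * t2 ^ 2 by positivity)]
  have c2 : 1 / (t1 ^ 2 * t2 ^ 2) ≤ t2 / t1 := by
    rw [div_le_div_iff₀ (by positivity) h10]
    nlinarith [mul_nonneg h20.le (show 0 ≤ t1 ^ 2 * t2 ^ 2 by positivity)]
  have c3 : t1 / t2 ≤ t1 ^ 2 * t2 ^ 2 := by
    rw [div_le_iff₀ h20]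
    nlinarith [mul_nonneg h10.le (show 0 ≤ t1 ^ 2 * t2 ^ 2 by positivity)]
  have c4 : t2 / t1 ≤ t1 ^ 2 * t2 ^ 2 := by
    rw [div_le_iff₀ h10]
    nlinarith [mul_nonneg h20.le (show 0 ≤ t1 ^ 2 * t2 ^ 2 by positivity)]
  fin_cases j
  · exact ⟨b6, b9.trans b3⟩
  · exact ⟨b7, b10.trans b3⟩
  · exact ⟨b5.trans a1, b1⟩
  · exact ⟨b5.trans a2, b2⟩
  · exact ⟨b5, b3⟩
  · exact ⟨b5, b3⟩
  · exact ⟨b8, b11.trans b3⟩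
  · exact ⟨c1, c3⟩
  · exact ⟨c2, c4⟩
  · exact ⟨b5.trans a3, b4⟩

end Pool.Agent.PP5S
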