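import Pool.Agent.PP5.LDefs

/-!
# PP5 section (e), the sum over `x`: Lipschitz bounds for `FF` and `det SS`
-/

namespace Pool.Agent.PP5S

open Matrix Finset Pool.Agent.PP5L

theorem prod4_lip {a δ : ℝ} {p q : Fin 4 → ℝ} (ha : 0 ≤ a)
    (hp : ∀ i, |p i| ≤ a) (hq : ∀ i, |q i| ≤ a) (h : ∀ i, |p i - q i| ≤ δ) :
    |∏ i, p i - ∏ i, q i| ≤ 4 * a ^ 3 * δ := by
  have hδ : 0 ≤ δ := (abs_nonneg _).trans (h 0)
  rw [Fin.prod_univ_four, Fin.prod_univ_four]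
  have e : p 0 * p 1 * p 2 * p 3 - q 0 * q 1 * q 2 * q 3 =
      (p 0 - q 0) * p 1 * p 2 * p 3 + q 0 * (p 1 - q 1) * p 2 * p 3 + q 0 * q 1 * (p 2 - q 2) * p 3
        + q 0 * q 1 * q 2 * (p 3 - q 3) := by ring
  rw [e]
  have b1 : |(p 0 - q 0) * p 1 * p 2 * p 3| ≤ δ * a * a * a := by
    rw [abs_mul, abs_mul, abs_mul]
    exact mul_le_mul (mul_le_mul (mul_le_mul (h 0) (hp 1) (abs_nonneg _) hδ) (hp 2) (abs_nonneg _)
      (by positivity)) (hp 3) (abs_nonneg _) (by positivity)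
  have b2 : |q 0 * (p 1 - q 1) * p 2 * p 3| ≤ a * δ * a * a := by
    rw [abs_mul, abs_mul, abs_mul]
    exact mul_le_mul (mul_le_mul (mul_le_mul (hq 0) (h 1) (abs_nonneg _) ha) (hp 2) (abs_nonneg _)
      (by positivity)) (hp 3) (abs_nonneg _) (by positivity)
  have b3 : |q 0 * q 1 * (p 2 - q 2) * p 3| ≤ a * a * δ * a := by
    rw [abs_mul, abs_mul, abs_mul]
    exact mul_le_mul (mul_le_mul (mul_le_mul (hq 0) (hq 1) (abs_nonneg _) ha) (h 2) (abs_nonneg _)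
      (by positivity)) (hp 3) (abs_nonneg _) (by positivity)
  have b4 : |q 0 * q 1 * q 2 * (p 3 - q 3)| ≤ a * a * a * δ := by
    rw [abs_mul, abs_mul, abs_mul]
    exact mul_le_mul (mul_le_mul (mul_le_mul (hq 0) (hq 1) (abs_nonneg _) ha) (hq 2) (abs_nonneg _)
      (by positivity)) (h 3) (abs_nonneg _) (by positivity)
  have t1 := abs_add_le ((p 0 - q 0) * p 1 * p 2 * p 3 + q 0 * (p 1 - q 1) * p 2 * p 3 +
    q 0 * q 1 * (p 2 - q 2) * p 3) (q 0 * q 1 * q 2 * (p 3 - q 3))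
  have t2 := abs_add_le ((p 0 - q 0) * p 1 * p 2 * p 3 + q 0 * (p 1 - q 1) * p 2 * p 3)
    (q 0 * q 1 * (p 2 - q 2) * p 3)
  have t3 := abs_add_le ((p 0 - q 0) * p 1 * p 2 * p 3) (q 0 * (p 1 - q 1) * p 2 * p 3)
  nlinarith

theorem det_lip (A B : Matrix (Fin 4) (Fin 4) ℝ) {a δ : ℝ} (ha : 0 ≤ a)
    (hA : ∀ i j, |A i j| ≤ a) (hB : ∀ i j, |B i j| ≤ a) (h : ∀ i j, |A i j - B i j| ≤ δ) :
    |A.det - B.det| ≤ 96 * a ^ 3 * δ := by
  rw [Matrix.det_apply, Matrix.det_apply, ← Finset.sum_sub_distrib]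
  refine (Finset.abs_sum_le_sum_abs _ _).trans ?_
  have h1 : ∀ σ ∈ (Finset.univ : Finset (Equiv.Perm (Fin 4))),
      |Equiv.Perm.sign σ • ∏ i, A (σ i) i - Equiv.Perm.sign σ • ∏ i, B (σ i) i| ≤ 4 * a ^ 3 * δ := by
    intro σ _
    have h2 := prod4_lip ha (fun i => hA (σ i) i) (fun i => hB (σ i) i) (fun i => h (σ i) i)
    rcases Int.units_eq_one_or (Equiv.Perm.sign σ) with h3 | h3
    · rw [h3, one_smul, one_smul]; exact h2
    · rw [h3, Units.neg_smul, one_smul, Units.neg_smul, one_smul]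
      rw [neg_sub_neg, abs_sub_comm]
      exact h2
  refine (Finset.sum_le_sum h1).trans ?_
  rw [Finset.sum_const, Finset.card_univ, Fintype.card_perm, Fintype.card_fin, nsmul_eq_mul]
  norm_num [Nat.factorial]
  linarith

theorem SS_le {y : Fin 10 → ℝ} {a : ℝ} (hy : ∀ j, |y j| ≤ a) (i j : Fin 4) :
    |SS y i j| ≤ 2 * a := by
  have ha : 0 ≤ a := (abs_nonneg _).trans (hy 0)
  have h0 := abs_le.1 (hy 0)
  have h1 := abs_le.1 (hy 1)
  have h2 := abs_le.1 (hy 2)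
  have h3 := abs_le.1 (hy 3)
  have h4 := abs_le.1 (hy 4)
  have h5 := abs_le.1 (hy 5)
  have h6 := abs_le.1 (hy 6)
  have h7 := abs_le.1 (hy 7)
  have h8 := abs_le.1 (hy 8)
  have h9 := abs_le.1 (hy 9)
  rw [abs_le]
  fin_cases i <;> fin_cases j <;> simp [SS] <;> constructor <;> linarith [h0.1, h0.2, h1.1, h1.2,
    h2.1, h2.2, h3.1, h3.2, h4.1, h4.2, h5.1, h5.2, h6.1, h6.2, h7.1, h7.2, h8.1, h8.2, h9.1, h9.2]

theorem SS_sub (y z : Fin 10 → ℝ) (i j : Fin 4) : SS y i j - SS z i j = SS (y - z) i j := by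
  fin_cases i <;> fin_cases j <;> simp [SS] <;> ring

theorem FF_lip {y z : Fin 10 → ℝ} {a : ℝ} (hy : ∀ j, |y j| ≤ a) (hz : ∀ j, |z j| ≤ a)
    (h : ∀ j, |y j - z j| ≤ 1) : |FF y - FF z| ≤ 10 * a := by
  have key : ∀ p q r s : ℝ, |p| ≤ a → |q| ≤ a → |p - r| ≤ 1 → |q - s| ≤ 1 → |r| ≤ a → |s| ≤ a →
      |p * q - r * s| ≤ 2 * a := by
    intro p q r s hp hq h1 h2 hr _
    have e : p * q - r * s = (p - r) * q + r * (q - s) := by ring
    rw [e]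
    have ha : 0 ≤ a := (abs_nonneg _).trans hp
    have b1 : |(p - r) * q| ≤ 1 * a := by
      rw [abs_mul]; exact mul_le_mul h1 hq (abs_nonneg _) (by norm_num)
    have b2 : |r * (q - s)| ≤ a * 1 := by
      rw [abs_mul]; exact mul_le_mul hr h2 (abs_nonneg _) ha
    have := abs_add_le ((p - r) * q) (r * (q - s))
    linarith
  have k1 := key (y 0) (y 2) (z 0) (z 2) (hy 0) (hy 2) (h 0) (h 2) (hz 0) (hz 2)
  have k2 := key (y 1) (y 3) (z 1) (z 3) (hy 1) (hy 3) (h 1) (h 3) (hz 1) (hz 3)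
  have k3 := key (y 4) (y 5) (z 4) (z 5) (hy 4) (hy 5) (h 4) (h 5) (hz 4) (hz 5)
  have k4 := key (y 6) (y 9) (z 6) (z 9) (hy 6) (hy 9) (h 6) (h 9) (hz 6) (hz 9)
  have k5 := key (y 7) (y 8) (z 7) (z 8) (hy 7) (hy 8) (h 7) (h 8) (hz 7) (hz 8)
  unfold FF
  rw [abs_le] at *
  constructor <;> linarith [k1.1, k1.2, k2.1, k2.2, k3.1, k3.2, k4.1, k4.2, k5.1, k5.2]

theorem FF_int (k : Fin 10 → ℤ) : ((FF k : ℤ) : ℝ) = FF (fun j => (k j : ℝ)) := by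
  unfold FF; push_cast; ring

theorem SS_int (k : Fin 10 → ℤ) : (((SS k).det : ℤ) : ℝ) = (SS (fun j => (k j : ℝ))).det := by
  have h := RingHom.map_det (Int.castRingHom ℝ) (SS k)
  have e : (Int.castRingHom ℝ).mapMatrix (SS k) = SS (fun j => (k j : ℝ)) := by
    ext i j
    fin_cases i <;> fin_cases j <;> simp [SS]
  rw [e] at h
  simpa using h

theorem det_SS_lip {y z : Fin 10 → ℝ} {a : ℝ} (hy : ∀ j, |y j| ≤ a) (hz : ∀ j, |z j| ≤ a)
    (h : ∀ j, |y j - z j| ≤ 1) : |(SS y).det - (SS z).det| ≤ 1536 * a ^ 3 := by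
  have ha : 0 ≤ a := (abs_nonneg _).trans (hy 0)
  have h1 := det_lip (SS y) (SS z) (a := 2 * a) (δ := 2) (by positivity) (SS_le hy) (SS_le hz) (by
    intro i j
    rw [SS_sub]
    have := SS_le (y := y - z) (a := 1) (fun j => by simpa using h j) i j
    linarith)
  have e : 96 * (2 * a) ^ 3 * 2 = 1536 * a ^ 3 := by ring
  linarith

end Pool.Agent.PP5S
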