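import Pool.Agent.PP5S.CeA
import Pool.Agent.PP5.EC

/-!
# PP5 section (e), the sum over `x`: the scales
-/

namespace Pool.Agent.PP5S

open Matrix Finset

theorem tx_pos {t1 t2 : ℝ} (h1 : 0 < t1) (h2 : 0 < t2) (j : Fin 10) : 0 < PP5.tx t1 t2 j := by
  fin_cases j <;> simp [PP5.tx] <;> positivity

theorem FF_scale {t1 t2 : ℝ} (h1 : 0 < t1) (h2 : 0 < t2) (x : Fin 10 → ℝ) :
    PP5L.FF (fun j => x j / PP5.tx t1 t2 j) = PP5L.FF x := by
  simp [PP5L.FF, PP5.tx]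
  field_simp

theorem det_SS_scale {t1 t2 : ℝ} (h1 : 0 < t1) (h2 : 0 < t2) (x : Fin 10 → ℝ) :
    (PP5L.SS (fun j => x j / PP5.tx t1 t2 j)).det = (PP5L.SS x).det := by
  have e : PP5L.SS (fun j => x j / PP5.tx t1 t2 j) =
      Matrix.diagonal ![t1, 1 / t1, t2, 1 / t2] * PP5L.SS x *
        Matrix.diagonal ![t1, 1 / t1, t2, 1 / t2] := by
    ext i j
    rw [Matrix.mul_diagonal, Matrix.diagonal_mul]
    fin_cases i <;> fin_cases j <;> simp [PP5L.SS, PP5.tx] <;> field_simp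
  rw [e, Matrix.det_mul, Matrix.det_mul, Matrix.det_diagonal]
  simp [Fin.prod_univ_four]
  field_simp

theorem FF_smul (r : ℝ) (x : Fin 10 → ℝ) : PP5L.FF (fun j => r * x j) = r ^ 2 * PP5L.FF x := by
  unfold PP5L.FF; ring

theorem det_SS_smul (r : ℝ) (x : Fin 10 → ℝ) :
    (PP5L.SS (fun j => r * x j)).det = r ^ 4 * (PP5L.SS x).det := by
  have e : PP5L.SS (fun j => r * x j) = r • PP5L.SS x := by
    ext i j
    fin_cases i <;> fin_cases j <;> simp [PP5L.SS] <;> ring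
  rw [e, Matrix.det_smul]
  simp

end Pool.Agent.PP5S
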