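import Pool.Agent.PP5S.CeB

/-!
# PP5 section (e), the sum over `x` in one dyadic shell
-/

namespace Pool.Agent.PP5S

open Matrix Finset

/-- (AC): the count of the cells -/
def ACB (C0 C1 : ℝ) : Prop :=
  ∀ K ε : ℝ, 1 ≤ K → 1 / K ≤ ε → ε ≤ 1 → ∀ Ns : Finset (Fin 10 → ℤ),
  (∀ k ∈ Ns, (∀ j, |(k j : ℝ)| ≤ C0 * K) ∧ (∃ j, K ≤ C0 * |(k j : ℝ)|) ∧
    |((PP5L.FF k : ℤ) : ℝ)| ≤ C0 * K ∧ |(((PP5L.SS k).det : ℤ) : ℝ)| ≤ C0 * ε * K ^ 4) →
  (Ns.card : ℝ) ≤ C1 * ε ^ (3 / 4 : ℝ) * K ^ 9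

/-- the cell of `x` -/
noncomputable def cell (R K t1 t2 : ℝ) (x : Fin 10 → ℤ) : Fin 10 → ℤ :=
  fun j => ⌊(x j : ℝ) * K / (R * PP5.tx t1 t2 j)⌋

/-- `2 ^ (1 / 8)` -/
noncomputable def th8 : ℝ := (2 : ℝ) ^ (1 / 8 : ℝ)

theorem th8_pow : th8 ^ 8 = 2 := by
  unfold th8
  rw [← Real.rpow_natCast, ← Real.rpow_mul (by norm_num)]
  norm_num

theorem th8_pos : 0 < th8 := by unfold th8; positivity

theorem th8_lo : (109 / 100 : ℝ) ≤ th8 := by
  by_contra h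
  push Not at h
  have h1 : th8 ^ 8 < (109 / 100 : ℝ) ^ 8 := pow_lt_pow_left₀ h th8_pos.le (by norm_num)
  rw [th8_pow] at h1
  norm_num at h1

theorem rpow_58 {r : ℝ} (hr : 0 ≤ r) (J : ℕ) (h : r ≤ 2 ^ J) :
    r ^ (5 / 8 : ℝ) ≤ 1 + ∑ j ∈ Finset.range J, (if (2 : ℝ) ^ j ≤ r then th8 ^ (5 * (j + 1)) else 0) := by
  have hpos : ∀ j, (0 : ℝ) ≤ (if (2 : ℝ) ^ j ≤ r then th8 ^ (5 * (j + 1)) else 0) := by
    intro j; split_ifs
    · exact pow_nonneg th8_pos.le _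
    · exact le_refl _
  have hup : ∀ j : ℕ, r ≤ 2 ^ j → r ^ (5 / 8 : ℝ) ≤ th8 ^ (5 * j) := by
    intro j hj
    calc r ^ (5 / 8 : ℝ) ≤ ((2 : ℝ) ^ j) ^ (5 / 8 : ℝ) := Real.rpow_le_rpow hr hj (by norm_num)
      _ = th8 ^ (5 * j) := by
        rw [← th8_pow, ← pow_mul, ← Real.rpow_natCast, ← Real.rpow_mul th8_pos.le,
          ← Real.rpow_natCast]
        congr 1
        push_cast
        ring
  induction J with
  | zero =>
    rw [Finset.range_zero, Finset.sum_empty]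
    have := hup 0 h
    simpa using this
  | succ J ih =>
    rw [Finset.sum_range_succ]
    rcases le_or_gt r (2 ^ J) with h1 | h1
    · have := ih h1
      have := hpos J
      linarith
    · rw [if_pos h1.le]
      have h2 := hup (J + 1) h
      have h3 : 0 ≤ ∑ j ∈ Finset.range J, (if (2 : ℝ) ^ j ≤ r then th8 ^ (5 * (j + 1)) else 0) :=
        Finset.sum_nonneg fun j _ => hpos j
      linarith

theorem geo8 (J : ℕ) : ∑ j ∈ Finset.range J, th8 ^ (5 * (j + 1)) * (1 / th8 ^ 6) ^ j ≤ 25 := by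
  have hθ := th8_lo
  have h0 := th8_pos
  have e : ∀ j, th8 ^ (5 * (j + 1)) * (1 / th8 ^ 6) ^ j = th8 ^ 5 * (1 / th8) ^ j := by
    intro j
    have e1 : th8 ^ (5 * (j + 1)) = th8 ^ 5 * (th8 ^ 5) ^ j := by rw [← pow_mul]; ring
    rw [e1, mul_assoc, ← mul_pow]
    congr 2
    field_simp
  simp_rw [e]
  rw [← Finset.mul_sum]
  have h1 : ∀ J : ℕ, ∑ j ∈ Finset.range J, (1 / th8) ^ j ≤ 12 + 1 / 2 := by
    intro J
    have h2 : (1 / th8) ≤ 100 / 109 := by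
      rw [div_le_div_iff₀ h0 (by norm_num)]; linarith
    have h3 : ∀ J : ℕ, ∑ j ∈ Finset.range J, (100 / 109 : ℝ) ^ j ≤
        (109 / 9) - (109 / 9) * (100 / 109) ^ J := by
      intro J
      induction J with
      | zero => simp
      | succ J ih =>
        rw [Finset.sum_range_succ, pow_succ]
        linarith
    calc ∑ j ∈ Finset.range J, (1 / th8) ^ j ≤ ∑ j ∈ Finset.range J, (100 / 109 : ℝ) ^ j :=
          Finset.sum_le_sum fun j _ => pow_le_pow_left₀ (by positivity) h2 j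
      _ ≤ (109 / 9) - (109 / 9) * (100 / 109) ^ J := h3 J
      _ ≤ 12 + 1 / 2 := by
        have : (0 : ℝ) ≤ (109 / 9) * (100 / 109) ^ J := by positivity
        linarith
  have h4 : th8 ^ 5 ≤ 2 := by
    have h5 : th8 ^ 5 ≤ th8 ^ 8 := pow_le_pow_right₀ (by linarith) (by norm_num)
    rwa [th8_pow] at h5
  have h6 : 0 ≤ ∑ j ∈ Finset.range J, (1 / th8) ^ j := Finset.sum_nonneg fun j _ => by positivity
  calc th8 ^ 5 * ∑ j ∈ Finset.range J, (1 / th8) ^ j ≤ 2 * (12 + 1 / 2) :=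
        mul_le_mul h4 (h1 J) h6 (by norm_num)
    _ = 25 := by norm_num

theorem cell_facts {R K t1 t2 : ℝ} (hR : 0 < R) (hK : 4 ≤ K) (h1 : 0 < t1) (h2 : 0 < t2)
    {x : Fin 10 → ℤ} (hF : PP5L.FF x = 0) (hx : ∀ j, |(x j : ℝ)| ≤ R * PP5.tx t1 t2 j)
    (hx' : ∃ j, R * PP5.tx t1 t2 j ≤ 2 * |(x j : ℝ)|) :
    (∀ j, |(cell R K t1 t2 x j : ℝ)| ≤ 2 * K) ∧ (∃ j, K ≤ 4 * |(cell R K t1 t2 x j : ℝ)|) ∧
    |((PP5L.FF (cell R K t1 t2 x) : ℤ) : ℝ)| ≤ 20 * K ∧
    |(((PP5L.SS (cell R K t1 t2 x)).det : ℤ) : ℝ)| ≤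
      K ^ 4 * (|(((PP5L.SS x).det : ℤ) : ℝ)| / R ^ 4) + 12288 * K ^ 3 := by
  have hK0 : 0 < K := by linarith
  set y : Fin 10 → ℝ := fun j => (x j : ℝ) * K / (R * PP5.tx t1 t2 j) with hy
  have htx : ∀ j, 0 < PP5.tx t1 t2 j := tx_pos h1 h2
  have hyK : ∀ j, |y j| ≤ K := by
    intro j
    have := hx j
    have ht := htx j
    simp only [hy]
    rw [abs_div, abs_mul, abs_of_pos hK0, abs_of_pos (mul_pos hR ht), div_le_iff₀ (mul_pos hR ht)]
    nlinarith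
  set k := cell R K t1 t2 x with hk
  have hfl : ∀ j, |y j - (k j : ℝ)| ≤ 1 := by
    intro j
    have a1 := Int.floor_le (y j)
    have a2 := Int.lt_floor_add_one (y j)
    have e : k j = ⌊y j⌋ := rfl
    rw [e, abs_le]
    constructor <;> linarith
  have hk2 : ∀ j, |(k j : ℝ)| ≤ 2 * K := by
    intro j
    have a1 := abs_le.1 (hyK j)
    have a2 := abs_le.1 (hfl j)
    rw [abs_le]
    constructor <;> linarith [a1.1, a1.2, a2.1, a2.2]
  have ey : y = fun j => (K / R) * ((fun j => (x j : ℝ) / PP5.tx t1 t2 j) j) := by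
    ext j
    have ht := htx j
    simp only [hy]
    field_simp
  have hFy : PP5L.FF y = 0 := by
    rw [ey, FF_smul, FF_scale h1 h2, ← FF_int, hF]
    simp
  have hDy : (PP5L.SS y).det = (K / R) ^ 4 * (((PP5L.SS x).det : ℤ) : ℝ) := by
    rw [ey, det_SS_smul, det_SS_scale h1 h2, ← SS_int]
  refine ⟨hk2, ?_, ?_, ?_⟩
  · obtain ⟨j, hj⟩ := hx'
    refine ⟨j, ?_⟩
    have ht := htx j
    have a0 : K ≤ 2 * |y j| := by
      simp only [hy]
      rw [abs_div, abs_mul, abs_of_pos hK0, abs_of_pos (mul_pos hR ht), mul_div_assoc',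
        le_div_iff₀ (mul_pos hR ht)]
      nlinarith
    have a1 : |y j| ≤ |(k j : ℝ)| + 1 := by
      have := hfl j
      have b := abs_sub_abs_le_abs_sub (y j) (k j : ℝ)
      linarith
    linarith
  · rw [FF_int]
    have := FF_lip (y := fun j => (k j : ℝ)) (z := y) (a := 2 * K) hk2
      (fun j => (hyK j).trans (by linarith)) (fun j => by rw [abs_sub_comm]; exact hfl j)
    rw [hFy, sub_zero] at this
    linarith
  · rw [SS_int]
    have := det_SS_lip (y := fun j => (k j : ℝ)) (z := y) (a := 2 * K) hk2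
      (fun j => (hyK j).trans (by linarith)) (fun j => by rw [abs_sub_comm]; exact hfl j)
    have b := abs_sub_abs_le_abs_sub (PP5L.SS fun j => (k j : ℝ)).det (PP5L.SS y).det
    have e1 : |(PP5L.SS y).det| = K ^ 4 * (|(((PP5L.SS x).det : ℤ) : ℝ)| / R ^ 4) := by
      rw [hDy, abs_mul, abs_of_nonneg (show 0 ≤ (K / R) ^ 4 by positivity)]
      rw [div_pow]
      ring
    have e2 : 1536 * (2 * K) ^ 3 = 12288 * K ^ 3 := by ring
    linarith

theorem det_up {R t1 t2 : ℝ} (h1 : 0 < t1) (h2 : 0 < t2)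
    {x : Fin 10 → ℤ} (hx : ∀ j, |(x j : ℝ)| ≤ R * PP5.tx t1 t2 j) :
    |(((PP5L.SS x).det : ℤ) : ℝ)| ≤ 384 * R ^ 4 := by
  rw [SS_int, ← det_SS_scale h1 h2]
  have h3 : ∀ i j, |PP5L.SS (fun j => (x j : ℝ) / PP5.tx t1 t2 j) i j| ≤ 2 * R := by
    apply SS_le
    intro j
    have ht := tx_pos h1 h2 j
    rw [abs_div, abs_of_pos ht, div_le_iff₀ ht]
    exact hx j
  have h4 := Matrix.det_le (abv := AbsoluteValue.abs) (A := PP5L.SS (fun j => (x j : ℝ) / PP5.tx t1 t2 j))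
    (x := 2 * R) (fun i j => h3 i j)
  simp only [Fintype.card_fin, nsmul_eq_mul] at h4
  have h5 : ((Nat.factorial 4 : ℕ) : ℝ) * (2 * R) ^ 4 = 384 * R ^ 4 := by
    norm_num [Nat.factorial]; ring
  rw [h5] at h4
  exact h4

/-- THE SUM OVER `x` IN ONE SHELL -/
theorem shell_x {C0 C1 Cw R K t1 t2 : ℝ} (hAC : ACB C0 C1) (hC0 : 13000 ≤ C0) (hC1 : 0 ≤ C1)
    (hCw : 0 ≤ Cw) (hR : 0 < R) (hK : 4 ≤ K) (h1 : 0 < t1) (h2 : 0 < t2)
    (X : Finset (Fin 10 → ℤ)) (W : (Fin 10 → ℤ) → ℝ) (hW0 : ∀ x ∈ X, 0 ≤ W x)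
    (hX : ∀ x ∈ X, PP5L.FF x = 0 ∧ (∀ j, |(x j : ℝ)| ≤ R * PP5.tx t1 t2 j) ∧
      (∃ j, R * PP5.tx t1 t2 j ≤ 2 * |(x j : ℝ)|) ∧
      R ^ 4 ≤ K * |(((PP5L.SS x).det : ℤ) : ℝ)|)
    (hW : ∀ k : Fin 10 → ℤ, ∑ x ∈ X with cell R K t1 t2 x = k, W x ≤ Cw * R ^ 8 / K ^ 9) :
    ∑ x ∈ X, W x * (R ^ 4 / |(((PP5L.SS x).det : ℤ) : ℝ)|) ^ (5 / 8 : ℝ) ≤ 26 * C1 * Cw * R ^ 8 := by
  classical
  have hK0 : 0 < K := by linarith
  set r : (Fin 10 → ℤ) → ℝ := fun x => R ^ 4 / |(((PP5L.SS x).det : ℤ) : ℝ)| with hr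
  have hdet : ∀ x ∈ X, 0 < |(((PP5L.SS x).det : ℤ) : ℝ)| := by
    intro x hx
    have h3 := (hX x hx).2.2.2
    rcases (abs_nonneg (((PP5L.SS x).det : ℤ) : ℝ)).lt_or_eq with h4 | h4
    · exact h4
    · rw [← h4, mul_zero] at h3
      have : 0 < R ^ 4 := by positivity
      linarith
  have hr0 : ∀ x ∈ X, 0 ≤ r x := fun x hx => by
    have := hdet x hx
    simp only [hr]; positivity
  -- the number of layers
  obtain ⟨J0, hJ0⟩ := pow_unbounded_of_one_lt K (show (1 : ℝ) < 2 by norm_num)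
  have hex : ∃ J : ℕ, K ≤ 2 ^ J := ⟨J0, hJ0.le⟩
  set J := Nat.find hex with hJ
  have hJ1 : K ≤ 2 ^ J := Nat.find_spec hex
  have hJ2 : ∀ j, j < J → (2 : ℝ) ^ j < K := fun j hj => by
    have := Nat.find_min hex hj
    push Not at this
    exact this
  have hrJ : ∀ x ∈ X, r x ≤ 2 ^ J := by
    intro x hx
    refine le_trans ?_ hJ1
    simp only [hr]
    rw [div_le_iff₀ (hdet x hx)]
    exact (hX x hx).2.2.2
  -- the sum of W over a set of x whose cells are counted by AC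
  have hset : ∀ B : Finset (Fin 10 → ℤ), B ⊆ X → ∀ ε : ℝ, 1 / K ≤ ε → ε ≤ 1 →
      (∀ x ∈ B, |(((PP5L.SS x).det : ℤ) : ℝ)| ≤ 384 * ε * R ^ 4) →
      ∑ x ∈ B, W x ≤ C1 * Cw * ε ^ (3 / 4 : ℝ) * R ^ 8 := by
    intro B hB ε hε hε1 hD
    have hε0 : 0 < ε := lt_of_lt_of_le (by positivity) hε
    have hcard := hAC K ε (by linarith) hε hε1 (B.image (cell R K t1 t2)) (by
      intro k hk
      rw [Finset.mem_image] at hk
      obtain ⟨x, hx, rfl⟩ := hk
      obtain ⟨a1, a2, a3, -⟩ := hX x (hB hx)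
      obtain ⟨b1, b2, b3, b4⟩ := cell_facts hR hK h1 h2 a1 a2 a3
      refine ⟨fun j => (b1 j).trans ?_, ?_, b3.trans ?_, b4.trans ?_⟩
      · exact mul_le_mul_of_nonneg_right (by linarith) hK0.le
      · obtain ⟨j, hj⟩ := b2
        refine ⟨j, hj.trans ?_⟩
        exact mul_le_mul_of_nonneg_right (by linarith) (abs_nonneg _)
      · exact mul_le_mul_of_nonneg_right (by linarith) hK0.le
      · have c1 : |(((PP5L.SS x).det : ℤ) : ℝ)| / R ^ 4 ≤ 384 * ε := by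
          rw [div_le_iff₀ (by positivity)]; exact hD x hx
        have c2 : K ^ 4 * (|(((PP5L.SS x).det : ℤ) : ℝ)| / R ^ 4) ≤ K ^ 4 * (384 * ε) :=
          mul_le_mul_of_nonneg_left c1 (by positivity)
        have c3 : K ^ 3 ≤ ε * K ^ 4 := by
          rw [div_le_iff₀ hK0] at hε
          have : ε * K ^ 4 = (ε * K) * K ^ 3 := by ring
          rw [this]
          have : (1 : ℝ) * K ^ 3 ≤ ε * K * K ^ 3 := mul_le_mul_of_nonneg_right hε (by positivity)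
          linarith
        have c4 : 0 ≤ ε * K ^ 4 := by positivity
        have c5 : 13000 * (ε * K ^ 4) ≤ C0 * (ε * K ^ 4) := mul_le_mul_of_nonneg_right hC0 c4
        calc K ^ 4 * (|(((PP5L.SS x).det : ℤ) : ℝ)| / R ^ 4) + 12288 * K ^ 3
            ≤ K ^ 4 * (384 * ε) + 12288 * (ε * K ^ 4) := by linarith
          _ ≤ 13000 * (ε * K ^ 4) := by nlinarith
          _ ≤ C0 * (ε * K ^ 4) := c5
          _ = C0 * ε * K ^ 4 := by ring)
    rw [← Finset.sum_fiberwise_of_maps_to (s := B) (t := B.image (cell R K t1 t2))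
      (g := cell R K t1 t2) (fun m hm => Finset.mem_image_of_mem _ hm) W]
    calc ∑ k ∈ B.image (cell R K t1 t2), ∑ x ∈ B with cell R K t1 t2 x = k, W x
        ≤ ∑ k ∈ B.image (cell R K t1 t2), Cw * R ^ 8 / K ^ 9 := by
          refine Finset.sum_le_sum (fun k _ => ?_)
          refine le_trans ?_ (hW k)
          refine Finset.sum_le_sum_of_subset_of_nonneg ?_ ?_
          · exact Finset.filter_subset_filter _ hB
          · intro x hx _
            exact hW0 x (Finset.mem_filter.1 hx).1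
      _ = ((B.image (cell R K t1 t2)).card : ℝ) * (Cw * R ^ 8 / K ^ 9) := by
          rw [Finset.sum_const, nsmul_eq_mul]
      _ ≤ C1 * ε ^ (3 / 4 : ℝ) * K ^ 9 * (Cw * R ^ 8 / K ^ 9) :=
          mul_le_mul_of_nonneg_right hcard (by positivity)
      _ = _ := by field_simp
  -- layer cake
  have hpt : ∀ x ∈ X, W x * r x ^ (5 / 8 : ℝ) ≤ W x + ∑ j ∈ Finset.range J,
      (if (2 : ℝ) ^ j ≤ r x then th8 ^ (5 * (j + 1)) * W x else 0) := by
    intro x hx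
    have := rpow_58 (hr0 x hx) J (hrJ x hx)
    refine (mul_le_mul_of_nonneg_left this (hW0 x hx)).trans (le_of_eq ?_)
    rw [mul_add, mul_one, Finset.mul_sum]
    congr 1
    refine Finset.sum_congr rfl fun j _ => ?_
    split_ifs <;> ring
  refine (Finset.sum_le_sum hpt).trans ?_
  rw [Finset.sum_add_distrib, Finset.sum_comm]
  have hA : ∑ x ∈ X, W x ≤ C1 * Cw * R ^ 8 := by
    have := hset X (Finset.Subset.refl _) 1 (by rw [div_le_one hK0]; linarith) (le_refl _) (fun x hx => by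
      have := det_up h1 h2 (hX x hx).2.1
      linarith)
    simpa using this
  have hBj : ∀ j ∈ Finset.range J, ∑ x ∈ X, (if (2 : ℝ) ^ j ≤ r x then th8 ^ (5 * (j + 1)) * W x else 0)
      ≤ C1 * Cw * R ^ 8 * (th8 ^ (5 * (j + 1)) * (1 / th8 ^ 6) ^ j) := by
    intro j hj
    rw [Finset.mem_range] at hj
    have h2j := hJ2 j hj
    have h2j0 : (0 : ℝ) < 2 ^ j := by positivity
    rw [← Finset.sum_filter, ← Finset.mul_sum]
    have h3 := hset (X.filter (fun x => (2 : ℝ) ^ j ≤ r x)) (Finset.filter_subset _ _) (1 / 2 ^ j)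
      (one_div_le_one_div_of_le h2j0 h2j.le)
      (by rw [div_le_one h2j0]; exact one_le_pow₀ (by norm_num)) (by
        intro x hx
        rw [Finset.mem_filter] at hx
        have h4 := hx.2
        simp only [hr] at h4
        rw [le_div_iff₀ (hdet x hx.1)] at h4
        have e : 384 * (1 / 2 ^ j) * R ^ 4 = 384 * R ^ 4 / 2 ^ j := by ring
        rw [e, le_div_iff₀ h2j0]
        have : 0 ≤ R ^ 4 := by positivity
        linarith)
    have e : ((1 : ℝ) / 2 ^ j) ^ (3 / 4 : ℝ) = (1 / th8 ^ 6) ^ j := by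
      rw [← th8_pow, ← pow_mul, _root_.one_div_pow, ← pow_mul, Real.div_rpow (by norm_num)
        (pow_nonneg th8_pos.le _), Real.one_rpow, ← Real.rpow_natCast th8 (8 * j),
        ← Real.rpow_mul th8_pos.le, ← Real.rpow_natCast th8 (6 * j)]
      congr 2
      push_cast
      ring
    rw [e] at h3
    have h5 : 0 ≤ th8 ^ (5 * (j + 1)) := pow_nonneg th8_pos.le _
    calc _ ≤ th8 ^ (5 * (j + 1)) * (C1 * Cw * (1 / th8 ^ 6) ^ j * R ^ 8) :=
          mul_le_mul_of_nonneg_left h3 h5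
      _ = _ := by ring
  have hBs := Finset.sum_le_sum hBj
  rw [← Finset.mul_sum] at hBs
  have h6 := geo8 J
  have h7 : 0 ≤ C1 * Cw * R ^ 8 := by positivity
  have h8 := mul_le_mul_of_nonneg_left h6 h7
  linarith

end Pool.Agent.PP5S
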