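import Pool.Agent.PP5S.Shl

/-!
# PP5S/DPd: the interface (D') with section (d), and the data attached to `x`

`DP Cx C1` is the conclusion of section (d): all but `Cd y ^ (4 - η)` of the points have a good pair.
`XDx Cx` is the existence of the data.
-/

set_option autoImplicit false

namespace Pool.Agent.PP5S

open Matrix Finset

/-- (D'): all but few points have a good pair `(x, m)` -/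
def DP (Cx C1 : ℝ) : Prop := ∀ c : ℝ, 0 < c → ∃ d0 η y0 Cd : ℝ, 0 < d0 ∧ 0 < η ∧ 1 ≤ y0 ∧
  0 ≤ Cd ∧ ∀ y t1 t2 : ℝ, y0 ≤ y → 1 ≤ t1 → 1 ≤ t2 → t1 * t2 ≤ y ^ d0 →
  ∀ (Tf : (Fin 10 → ℤ) → ℝ) (bf : (Fin 10 → ℤ) → Fin 4 → PP5.Sp)
    (Gf : (Fin 10 → ℤ) → Matrix (Fin 4) (Fin 4) ℤ) (lf : (Fin 10 → ℤ) → Fin 4 → ℝ)
    (kf : (Fin 10 → ℤ) → ℕ),
  (∀ x, Xok x → XD Cx t1 t2 (Tf x) x (bf x) (Gf x) (lf x) (kf x)) →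
  ∀ S : Finset PP5.Sp, (∀ P ∈ S, PP5.InP 16 (y ^ 4) y t1 t2 P) →
  ∃ Bad : Finset PP5.Sp, Bad ⊆ S ∧ (Bad.card : ℝ) ≤ Cd * y ^ (4 - η) ∧
    ∀ P ∈ S, P ∉ Bad → ∃ (x : Fin 10 → ℤ) (m n : Fin 4 → ℤ),
      GP y c C1 (Tf x) x (bf x) (Gf x) (lf x) (kf x) P m n

/-- the data exist -/
def XDx (Cx : ℝ) : Prop := ∀ t1 t2 : ℝ, 1 ≤ t1 → 1 ≤ t2 → ∀ x : Fin 10 → ℤ, Xok x →
  ∃ (T : ℝ) (b : Fin 4 → PP5.Sp) (G : Matrix (Fin 4) (Fin 4) ℤ) (l : Fin 4 → ℝ) (k : ℕ),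
    XD Cx t1 t2 T x b G l k

end Pool.Agent.PP5S
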