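import Mathlib

/-!
# PP5 section (e): the real inequality behind the bound for one `x`
-/

namespace Pool.Agent.PP5S

theorem log_le8 {z : ℝ} (hz : 0 ≤ z) : 1 + Real.log (1 + z) ≤ 8 * (1 + z) ^ (1 / 8 : ℝ) := by
  have h1 : 0 < (1 + z) ^ (1 / 8 : ℝ) := by positivity
  have h2 := Real.log_le_sub_one_of_pos h1
  rw [Real.log_rpow (by linarith)] at h2
  linarith

/-- the scale `S ^ 3 * Λ = a * Y` -/
theorem scale_x {a b C3 C4 Y T S Λ d : ℝ} (ha : 0 < a) (hb : 0 ≤ b) (hY : 0 < Y)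
    (hT : 0 < T) (hS : 0 < S) (hΛ : 0 < Λ) (hd : 0 < d) (hS3 : S ^ 3 * Λ = a * Y)
    (hdb : d ≤ b * Λ ^ 2 / T ^ 4) (hΛT : Λ ≤ C3 * T ^ 4) (hTY : T ^ 5 ≤ C4 * Y ^ 2) :
    (S ^ 4 * Λ) * (1 + Y / (T * S * √d)) ≤
      a * (1 + (1 + a * (√b * b) * C3 ^ 2 * C4)) * (Y ^ 2 / (T * √d)) := by
  have hsd : 0 < √d := Real.sqrt_pos.2 hd
  have hC4 : 0 ≤ C4 := by
    by_contra h
    push Not at h
    have : C4 * Y ^ 2 < 0 := mul_neg_of_neg_of_pos h (by positivity)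
    have : 0 < T ^ 5 := by positivity
    linarith
  set K6 := 1 + a * (√b * b) * C3 ^ 2 * C4 with hK6
  have hK61 : 1 ≤ K6 := by
    have : 0 ≤ a * (√b * b) * C3 ^ 2 * C4 := by positivity
    linarith
  -- `S T √d ≤ K6 Y`
  have hkey : S * T * √d ≤ K6 * Y := by
    by_contra hc
    push Not at hc
    have h1 : (K6 * Y) ^ 3 < (S * T * √d) ^ 3 := pow_lt_pow_left₀ hc (by positivity) (by norm_num)
    have h2 : (S * T * √d) ^ 3 * Λ = a * Y * T ^ 3 * d * √d := by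
      have : √d ^ 3 = d * √d := by
        have := Real.sq_sqrt hd.le
        calc √d ^ 3 = √d ^ 2 * √d := by ring
          _ = _ := by rw [this]
      calc (S * T * √d) ^ 3 * Λ = (S ^ 3 * Λ) * T ^ 3 * √d ^ 3 := by ring
        _ = _ := by rw [hS3, this]; ring
    have h3 : √d ≤ √b * Λ / T ^ 2 := by
      apply Real.sqrt_le_iff.2
      refine ⟨by positivity, ?_⟩
      have : (√b * Λ / T ^ 2) ^ 2 = b * Λ ^ 2 / T ^ 4 := by
        rw [div_pow, mul_pow, Real.sq_sqrt hb]; ring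
      rw [this]; exact hdb
    have h4 : a * Y * T ^ 3 * d * √d ≤ a * Y * T ^ 3 * (b * Λ ^ 2 / T ^ 4) * (√b * Λ / T ^ 2) := by
      apply mul_le_mul _ h3 hsd.le (by positivity)
      exact mul_le_mul_of_nonneg_left hdb (by positivity)
    have h5 : a * Y * T ^ 3 * (b * Λ ^ 2 / T ^ 4) * (√b * Λ / T ^ 2) =
        a * (√b * b) * Y * Λ ^ 2 / T ^ 3 * Λ := by field_simp
    have h6 : (S * T * √d) ^ 3 ≤ a * (√b * b) * Y * Λ ^ 2 / T ^ 3 := by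
      rw [h5, ← h2] at h4
      exact le_of_mul_le_mul_right h4 hΛ
    have h7 : Λ ^ 2 ≤ (C3 * T ^ 4) ^ 2 := pow_le_pow_left₀ hΛ.le hΛT 2
    have h8 : a * (√b * b) * Y * Λ ^ 2 / T ^ 3 ≤ a * (√b * b) * C3 ^ 2 * Y * T ^ 5 := by
      rw [div_le_iff₀ (by positivity)]
      calc a * (√b * b) * Y * Λ ^ 2 ≤ a * (√b * b) * Y * (C3 * T ^ 4) ^ 2 :=
            mul_le_mul_of_nonneg_left h7 (by positivity)
        _ = _ := by ring
    have h9 : a * (√b * b) * C3 ^ 2 * Y * T ^ 5 ≤ a * (√b * b) * C3 ^ 2 * Y * (C4 * Y ^ 2) :=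
      mul_le_mul_of_nonneg_left hTY (by positivity)
    have h10 : a * (√b * b) * C3 ^ 2 * Y * (C4 * Y ^ 2) ≤ K6 ^ 3 * Y ^ 3 := by
      have e : a * (√b * b) * C3 ^ 2 * Y * (C4 * Y ^ 2) = (a * (√b * b) * C3 ^ 2 * C4) * Y ^ 3 := by
        ring
      rw [e]
      apply mul_le_mul_of_nonneg_right _ (by positivity)
      calc a * (√b * b) * C3 ^ 2 * C4 ≤ K6 := by linarith
        _ ≤ K6 ^ 3 := le_self_pow₀ hK61 (by norm_num)
    rw [mul_pow] at h1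
    linarith
  have e1 : (S ^ 4 * Λ) * (1 + Y / (T * S * √d)) = a * Y * S + a * (Y ^ 2 / (T * √d)) := by
    have : S ^ 4 * Λ = a * Y * S := by
      calc S ^ 4 * Λ = (S ^ 3 * Λ) * S := by ring
        _ = _ := by rw [hS3]
    rw [this]
    field_simp
  rw [e1]
  have h11 : a * Y * S ≤ a * K6 * (Y ^ 2 / (T * √d)) := by
    have : a * K6 * (Y ^ 2 / (T * √d)) = a * (K6 * Y) * Y / (T * √d) := by ring
    rw [this, le_div_iff₀ (by positivity)]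
    calc a * Y * S * (T * √d) = a * (S * T * √d) * Y := by ring
      _ ≤ a * (K6 * Y) * Y := by
        apply mul_le_mul_of_nonneg_right _ hY.le
        exact mul_le_mul_of_nonneg_left hkey ha.le
  calc a * Y * S + a * (Y ^ 2 / (T * √d)) ≤ a * K6 * (Y ^ 2 / (T * √d)) + a * (Y ^ 2 / (T * √d)) := by
        linarith
    _ = _ := by ring

/-- the final real inequality -/
theorem fin_real {a b C3 C4 Y T S Λ d D k R : ℝ} (ha : 0 < a) (hb : 0 ≤ b) (hY : 0 < Y)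
    (hT : 0 < T) (hS : 0 < S) (hΛ : 0 < Λ) (hd : 0 < d) (hS3 : S ^ 3 * Λ = a * Y)
    (hdb : d ≤ b * Λ ^ 2 / T ^ 4) (hΛT : Λ ≤ C3 * T ^ 4) (hTY : T ^ 5 ≤ C4 * Y ^ 2)
    (hD : 0 < D) (hk : 1 ≤ k) (hkd : k ^ 2 * d = D) (hDR : D ≤ 384 * R ^ 4)
    (hTR : T ≤ R) (hRT : R ≤ 2 * T) :
    (1 + Real.log (1 + Λ ^ 2 / (T ^ 4 * d))) * ((S ^ 4 * Λ) * (1 + Y / (T * S * √d))) ≤
      64 * (384 + C3 ^ 2) ^ (1 / 8 : ℝ) * (a * (1 + (1 + a * (√b * b) * C3 ^ 2 * C4))) *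
        (k ^ (5 / 4 : ℝ) * (R ^ 4 / D) ^ (5 / 8 : ℝ) * (Y ^ 2 / R ^ 3)) := by
  have hR : 0 < R := by linarith
  have hk0 : 0 < k := by linarith
  have hsD : 0 < √D := Real.sqrt_pos.2 hD
  have hC4 : 0 ≤ C4 := by
    by_contra h
    push Not at h
    have : C4 * Y ^ 2 < 0 := mul_neg_of_neg_of_pos h (by positivity)
    have : 0 < T ^ 5 := by positivity
    linarith
  set z : ℝ := R ^ 4 * k ^ 2 / D with hz
  have hz0 : 0 < z := by positivity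
  have hz1 : 1 ≤ 384 * z := by
    rw [hz, mul_div_assoc', le_div_iff₀ hD, one_mul]
    have : (1 : ℝ) ≤ k ^ 2 := one_le_pow₀ hk
    have h2 : 0 ≤ 384 * R ^ 4 := by positivity
    nlinarith
  have hρ : Λ ^ 2 / (T ^ 4 * d) ≤ C3 ^ 2 * z := by
    have hd' : d = D / k ^ 2 := by rw [← hkd]; field_simp
    rw [div_le_iff₀ (by positivity)]
    have h7 : Λ ^ 2 ≤ (C3 * T ^ 4) ^ 2 := pow_le_pow_left₀ hΛ.le hΛT 2
    refine h7.trans ?_
    have e : C3 ^ 2 * z * (T ^ 4 * d) = C3 ^ 2 * T ^ 4 * R ^ 4 := by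
      rw [hz, hd']; field_simp
    rw [e]
    have h8 : T ^ 4 ≤ R ^ 4 := pow_le_pow_left₀ hT.le hTR 4
    calc (C3 * T ^ 4) ^ 2 = C3 ^ 2 * T ^ 4 * T ^ 4 := by ring
      _ ≤ _ := mul_le_mul_of_nonneg_left h8 (by positivity)
  have hlog : 1 + Real.log (1 + Λ ^ 2 / (T ^ 4 * d)) ≤
      8 * (384 + C3 ^ 2) ^ (1 / 8 : ℝ) * z ^ (1 / 8 : ℝ) := by
    have h0 : 0 ≤ Λ ^ 2 / (T ^ 4 * d) := by positivity
    refine (log_le8 h0).trans ?_
    rw [mul_assoc, ← Real.mul_rpow (by positivity) hz0.le]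
    apply mul_le_mul_of_nonneg_left _ (by norm_num)
    apply Real.rpow_le_rpow (by positivity) _ (by norm_num)
    linarith
  have hlog0 : 0 ≤ 1 + Real.log (1 + Λ ^ 2 / (T ^ 4 * d)) := by
    have h0 : 0 ≤ Λ ^ 2 / (T ^ 4 * d) := by positivity
    have := Real.log_nonneg (show (1 : ℝ) ≤ 1 + Λ ^ 2 / (T ^ 4 * d) by linarith)
    linarith
  have hsc := scale_x ha hb hY hT hS hΛ hd hS3 hdb hΛT hTY
  set A := a * (1 + (1 + a * (√b * b) * C3 ^ 2 * C4)) with hA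
  have hA0 : 0 ≤ A := by positivity
  have hsd : √d = √D / k := by
    rw [← hkd, Real.sqrt_mul (by positivity), Real.sqrt_sq hk0.le]
    field_simp
  have h12 : Y ^ 2 / (T * √d) ≤ 8 * (k * (R ^ 4 / D) ^ (1 / 2 : ℝ) * (Y ^ 2 / R ^ 3)) := by
    rw [hsd]
    have e1 : (R ^ 4 / D) ^ (1 / 2 : ℝ) = R ^ 2 / √D := by
      rw [← Real.sqrt_eq_rpow, Real.sqrt_div (by positivity)]
      congr 1
      rw [show R ^ 4 = (R ^ 2) ^ 2 by ring, Real.sqrt_sq (by positivity)]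
    rw [e1]
    have e2 : Y ^ 2 / (T * (√D / k)) = k * Y ^ 2 / (T * √D) := by field_simp
    have e3 : 8 * (k * (R ^ 2 / √D) * (Y ^ 2 / R ^ 3)) = 8 * k * Y ^ 2 / (R * √D) := by
      field_simp
    rw [e2, e3, div_le_div_iff₀ (by positivity) (by positivity)]
    have h13 : R ≤ 8 * T := by linarith
    have h14 : 0 ≤ k * Y ^ 2 * √D := by positivity
    nlinarith
  calc (1 + Real.log (1 + Λ ^ 2 / (T ^ 4 * d))) * ((S ^ 4 * Λ) * (1 + Y / (T * S * √d)))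
      ≤ (1 + Real.log (1 + Λ ^ 2 / (T ^ 4 * d))) * (A * (Y ^ 2 / (T * √d))) :=
        mul_le_mul_of_nonneg_left hsc hlog0
    _ ≤ (8 * (384 + C3 ^ 2) ^ (1 / 8 : ℝ) * z ^ (1 / 8 : ℝ)) *
        (A * (8 * (k * (R ^ 4 / D) ^ (1 / 2 : ℝ) * (Y ^ 2 / R ^ 3)))) := by
        apply mul_le_mul hlog _ (by positivity) (by positivity)
        exact mul_le_mul_of_nonneg_left h12 hA0
    _ = 64 * (384 + C3 ^ 2) ^ (1 / 8 : ℝ) * A *
        ((z ^ (1 / 8 : ℝ) * (k * (R ^ 4 / D) ^ (1 / 2 : ℝ))) * (Y ^ 2 / R ^ 3)) := by ring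
    _ = _ := by
        have e4 : z ^ (1 / 8 : ℝ) * (k * (R ^ 4 / D) ^ (1 / 2 : ℝ)) =
            k ^ (5 / 4 : ℝ) * (R ^ 4 / D) ^ (5 / 8 : ℝ) := by
          have hRD : 0 < R ^ 4 / D := by positivity
          have e5 : z = (R ^ 4 / D) * k ^ 2 := by rw [hz]; ring
          rw [e5, Real.mul_rpow hRD.le (by positivity)]
          have e6 : (k ^ 2) ^ (1 / 8 : ℝ) = k ^ (1 / 4 : ℝ) := by
            rw [← Real.rpow_natCast, ← Real.rpow_mul hk0.le]; norm_num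
          have e7 : k ^ (5 / 4 : ℝ) = k ^ (1 / 4 : ℝ) * k := by
            rw [show (5 / 4 : ℝ) = 1 / 4 + 1 by norm_num, Real.rpow_add hk0, Real.rpow_one]
          have e8 : (R ^ 4 / D) ^ (5 / 8 : ℝ) = (R ^ 4 / D) ^ (1 / 8 : ℝ) * (R ^ 4 / D) ^ (1 / 2 : ℝ) := by
            rw [← Real.rpow_add hRD]; norm_num
          rw [e6, e7, e8]
          ring
        rw [e4]

end Pool.Agent.PP5S
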