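import Pool.Agent.PP5S.Dic
import Pool.Agent.PP5S.CeC
import Pool.Agent.PP5S.Fre
import Pool.Agent.PP5K.Kc
import Pool.Agent.PP5.DJ

/-!
# PP5 section (e): the data attached to `x`, good pairs, and the fibres
-/

namespace Pool.Agent.PP5S

open Matrix Finset Pool.Agent.PP5B

/-- the data attached to `x` (`T` is the scaled norm of `x`) -/
structure XD (C t1 t2 T : ℝ) (x : Fin 10 → ℤ) (b : Fin 4 → PP5.Sp)
    (G : Matrix (Fin 4) (Fin 4) ℤ) (l : Fin 4 → ℝ) (k : ℕ) : Prop where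
  xg : XG x G
  T0 : 0 < T
  Tle : ∀ j, |(x j : ℝ)| ≤ T * PP5.tx t1 t2 j
  Tge : ∃ j, T * PP5.tx t1 t2 j ≤ |(x j : ℝ)|
  lp : ∀ i, 0 < l i
  mono : l 0 ≤ l 1 ∧ l 1 ≤ l 2 ∧ l 2 ≤ l 3
  gram : ∀ i j, |(G i j : ℝ)| ≤ C * l i * l j / T
  prod : ∏ i, l i ≤ C * T ^ 4
  span : ∀ (P : PP5.Sp) (Y : ℝ), PP5.InE P x → (∀ i, |(P i : ℝ)| ≤ Y * PP5.sg t1 t2 i) →
    ∃ n : Fin 4 → ℤ, (∀ a, P a = ∑ i, n i * b i a) ∧ ∀ i, |(n i : ℝ)| * l i ≤ C * Y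
  quad : ∀ n : Fin 4 → ℤ, PP5.Qd (fun a => ∑ i, n i * b i a) → n ⬝ᵥ (G *ᵥ n) = 0
  bE : ∀ i, PP5.InE (b i) x
  bl : ∀ i a, |(b i a : ℝ)| ≤ l i * PP5.sg t1 t2 a
  ind : ∀ n : Fin 4 → ℤ, (∀ a, ∑ i, n i * b i a = 0) → n = 0
  k1 : 1 ≤ k
  kd : (PP5L.SS x).det = (k : ℤ) ^ 2 * G.det
  rk : PP5K.RK k x
  pol : ∀ i j a, PP5L.Bd (PP5.emb (b i)) (PP5.emb (b j)) a = G i j * x a
  bas : ∃ B : Module.Basis (Fin 4) ℤ (PP5L.Lx x), ∀ i, (B i : Fin 16 → ℤ) = PP5.emb (b i)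

/-- `x` is primitive, isotropic and non degenerate -/
structure Xok (x : Fin 10 → ℤ) : Prop where
  pr : ∀ p : ℕ, p.Prime → ∃ j, ¬ (p : ℤ) ∣ x j
  ff : PP5L.FF x = 0
  dn : (PP5L.SS x).det ≠ 0

/-- a good pair `(x, m)` for `P`, `P = ∑ n i b i` -/
structure GP (y c C1 T : ℝ) (x : Fin 10 → ℤ) (b : Fin 4 → PP5.Sp)
    (G : Matrix (Fin 4) (Fin 4) ℤ) (l : Fin 4 → ℝ) (k : ℕ) (P : PP5.Sp) (m n : Fin 4 → ℤ) :
    Prop where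
  ok : Xok x
  inE : PP5.InE P x
  sum : ∀ a, P a = ∑ i, n i * b i a
  Tlo : y ^ (2 / 5 - c) ≤ T
  Tup : T ≤ C1 * y ^ (2 / 5 : ℝ)
  Dlo : T ^ 4 ≤ y ^ c * |(((PP5L.SS x).det : ℤ) : ℝ)|
  kup : (k : ℝ) ≤ y ^ c
  l0 : y ^ (2 / 5 - c) ≤ l 0
  mp : Pr4 m
  mn : m ⬝ᵥ n = 0
  D2n : D2 G m ≠ 0
  slu : (sl G m : ℝ) ≤ y ^ c
  mup : ∀ i, |(m i : ℝ)| ≤ C1 * (y / ∏ i, l i) ^ (1 / 3 : ℝ) * l i
  mlo : ∃ i, C1 * (y / ∏ i, l i) ^ (1 / 3 : ℝ) * l i ≤ y ^ c * |(m i : ℝ)|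

theorem XD.l_ge {C t1 t2 T : ℝ} {x : Fin 10 → ℤ} {b : Fin 4 → PP5.Sp}
    {G : Matrix (Fin 4) (Fin 4) ℤ} {l : Fin 4 → ℝ} {k : ℕ} (h : XD C t1 t2 T x b G l k)
    (i : Fin 4) : l 0 ≤ l i := by
  obtain ⟨h1, h2, h3⟩ := h.mono
  fin_cases i
  · exact le_refl _
  · exact h1
  · exact h1.trans h2
  · exact (h1.trans h2).trans h3

/-- the fibres of `P ↦ (x, m)` -/
theorem fib {α β : Type} [DecidableEq α] [DecidableEq β] (Ps : Finset PP5.Sp)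
    (xf : PP5.Sp → α) (mf nf : PP5.Sp → β)
    (hinj : ∀ P ∈ Ps, ∀ Q ∈ Ps, xf P = xf Q → nf P = nf Q → P = Q) :
    Ps.card = ∑ x ∈ Ps.image xf, ∑ m ∈ (Ps.filter (fun P => xf P = x)).image mf,
      ((((Ps.filter (fun P => xf P = x)).filter (fun P => mf P = m)).image nf)).card := by
  classical
  rw [Finset.card_eq_sum_card_fiberwise (f := xf) (t := Ps.image xf)
    (fun P hP => Finset.mem_image_of_mem _ hP)]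
  refine Finset.sum_congr rfl fun x _ => ?_
  rw [Finset.card_eq_sum_card_fiberwise (s := Ps.filter (fun P => xf P = x)) (f := mf)
    (t := (Ps.filter (fun P => xf P = x)).image mf) (fun P hP => Finset.mem_image_of_mem _ hP)]
  refine Finset.sum_congr rfl fun m _ => ?_
  rw [Finset.card_image_of_injOn]
  intro P hP Q hQ hPQ
  rw [Finset.mem_coe, Finset.mem_filter, Finset.mem_filter] at hP hQ
  exact hinj P hP.1.1 Q hQ.1.1 (hP.1.2.trans hQ.1.2.symm) hPQ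

/-- the coordinate vector of a primitive point is primitive -/
theorem pr4_of {P : PP5.Sp} {b : Fin 4 → PP5.Sp} {n : Fin 4 → ℤ}
    (hP : ∀ l : ℕ, l.Prime → ¬ ∀ i : Fin 12, (l : ℤ) ∣ P i) (h : ∀ a, P a = ∑ i, n i * b i a) :
    Pr4 n := by
  intro p hp hn
  apply hP p hp
  intro a
  rw [h a]
  exact Finset.dvd_sum fun i _ => Dvd.dvd.mul_right (hn i) _

end Pool.Agent.PP5S
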