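import Pool.Agent.PP5S.Pxs
import Pool.Agent.PP5.LDefs
import Pool.Agent.PP5C.Defs

/-!
# PP5 section (e): the dictionary between the weights of (b) and of (c)
-/

namespace Pool.Agent.PP5S

open Matrix Finset Pool.Agent.PP5B

theorem pr4_single (i : Fin 4) : Pr4 (Pi.single i 1) := by
  intro p hp h
  have := h i
  rw [Pi.single_eq_same] at this
  have h2 := Int.isUnit_iff.1 (isUnit_of_dvd_one this)
  have h3 := hp.two_le
  omega

theorem adj_even {G : Matrix (Fin 4) (Fin 4) ℤ} (hsym : ∀ i j, G i j = G j i)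
    (hev : ∀ i, 2 ∣ G i i) (i : Fin 4) : 2 ∣ G.adjugate i i := by
  obtain ⟨U, hU⟩ := dat_exists hsym hev (pr4_single i)
  have h := D2_even hU
  have e : D2 G (Pi.single i 1) = G.adjugate i i := by
    unfold D2
    simp
  rw [e] at h
  exact ⟨_, h⟩

theorem adj_sym {G : Matrix (Fin 4) (Fin 4) ℤ} (hsym : ∀ i j, G i j = G j i) (i j : Fin 4) :
    G.adjugate i j = G.adjugate j i := by
  have hGs : Gᵀ = G := by ext a b; exact hsym b a
  have h1 : G.adjugateᵀ = G.adjugate := by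
    rw [Matrix.adjugate_transpose, hGs]
  conv_lhs => rw [← h1]
  rfl

/-- the coefficients of `F_x(m) = D2 G m / 2` -/
def cG (G : Matrix (Fin 4) (Fin 4) ℤ) : Matrix (Fin 4) (Fin 4) ℤ := Matrix.of fun i j =>
  if i = j then G.adjugate i i / 2 else if i < j then G.adjugate i j else 0

theorem cG_add {G : Matrix (Fin 4) (Fin 4) ℤ} (hsym : ∀ i j, G i j = G j i)
    (hev : ∀ i, 2 ∣ G i i) : cG G + (cG G).transpose = G.adjugate := by
  ext i j
  simp only [Matrix.add_apply, Matrix.transpose_apply, cG, Matrix.of_apply]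
  rcases lt_trichotomy i j with h | h | h
  · rw [if_neg (ne_of_lt h), if_pos h, if_neg (ne_of_gt h), if_neg (not_lt.2 h.le), add_zero]
  · subst h
    rw [if_pos rfl]
    have := adj_even hsym hev i
    omega
  · rw [if_neg (ne_of_gt h), if_neg (not_lt.2 h.le), if_neg (ne_of_lt h), if_pos h, zero_add,
      adj_sym hsym]

theorem qf_cG {G : Matrix (Fin 4) (Fin 4) ℤ} (hsym : ∀ i j, G i j = G j i)
    (hev : ∀ i, 2 ∣ G i i) (m : Fin 4 → ℤ) : 2 * PP5C.qf (cG G) m = D2 G m := by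
  have h1 : D2 G m = ∑ i, ∑ j, (cG G + (cG G).transpose) i j * m i * m j := by
    rw [cG_add hsym hev]
    unfold D2
    simp only [dotProduct, mulVec, Finset.mul_sum]
    refine Finset.sum_congr rfl fun i _ => Finset.sum_congr rfl fun j _ => ?_
    ring
  rw [h1]
  unfold PP5C.qf
  simp only [Matrix.add_apply, Matrix.transpose_apply, add_mul, Finset.sum_add_distrib]
  have h2 : ∑ i, ∑ j, cG G j i * m i * m j = ∑ i, ∑ j, cG G i j * m i * m j := by
    rw [Finset.sum_comm]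
    refine Finset.sum_congr rfl fun i _ => Finset.sum_congr rfl fun j _ => ?_
    ring
  rw [h2]
  ring

theorem qf_eq {G : Matrix (Fin 4) (Fin 4) ℤ} (hsym : ∀ i j, G i j = G j i)
    (hev : ∀ i, 2 ∣ G i i) (m : Fin 4 → ℤ) : PP5C.qf (cG G) m = D2 G m / 2 := by
  have := qf_cG hsym hev m
  omega

/-- the arithmetic facts relating `x` and the Gram matrix of `L_x` -/
structure XG (x : Fin 10 → ℤ) (G : Matrix (Fin 4) (Fin 4) ℤ) : Prop where
  sym : ∀ i j, G i j = G j i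
  ev : ∀ i, (2 : ℤ) ∣ G i i
  det : G.det ≠ 0
  sq : ∃ m : ℤ, m ≠ 0 ∧ G.det * (PP5L.SS x).det = m ^ 2
  pr : ∀ l : ℕ, l.Prime → (l : ℤ) ∣ G.det → (l : ℤ) ∣ (PP5L.SS x).det
  con : ∀ n : ℤ, (∀ i j, n ∣ G.adjugate i j) → ∀ i j, n ∣ (PP5L.SS x).adjugate i j

theorem SX_eq (x : Fin 10 → ℤ) : PP5C.SX x = PP5L.SS x := rfl

theorem DX_eq (x : Fin 10 → ℤ) : PP5C.DX x = (PP5L.SS x).det := rfl

theorem XG.D_ne {x : Fin 10 → ℤ} {G : Matrix (Fin 4) (Fin 4) ℤ} (h : XG x G) :
    (PP5L.SS x).det ≠ 0 := by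
  obtain ⟨m, h0, h1⟩ := h.sq
  intro h2
  rw [h2, mul_zero] at h1
  exact h0 (pow_eq_zero_iff two_ne_zero |>.1 h1.symm)

theorem XG.pr' {x : Fin 10 → ℤ} {G : Matrix (Fin 4) (Fin 4) ℤ} (h : XG x G) {l : ℕ}
    (hl : l.Prime) (h1 : ¬ l ∣ PP5C.D2 x) : ¬ (l : ℤ) ∣ G.det := by
  intro h2
  apply h1
  have h3 := h.pr l hl h2
  unfold PP5C.D2
  rw [DX_eq]
  exact Dvd.dvd.mul_left (Int.natCast_dvd.1 h3) 2

/-- the weights are admissible -/
theorem wgt_om {x : Fin 10 → ℤ} {G : Matrix (Fin 4) (Fin 4) ℤ} (h : XG x G) {m : Fin 4 → ℤ}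
    (hm : Pr4 m) (hD : D2 G m ≠ 0) :
    PP5C.Wgt (PP5C.D2 x) (D2 G m / 2).natAbs (PP5C.psx x)
      (fun l => (om G m l : ℝ) * (l : ℝ) ^ il G m l) (fun l => il G m l) := by
  classical
  have hprime : ∀ l ∈ (D2 G m / 2).natAbs.primeFactors, l.Prime := fun l hl =>
    Nat.prime_of_mem_primeFactors hl
  have hle : ∀ l, (om G m l : ℝ) ≤ (kx G m l : ℝ) + 1 := by
    intro l
    unfold om
    split_ifs
    · push_cast; positivity
    · push_cast; exact le_refl _
  refine ⟨?_, ?_, ?_, ?_, ?_, ?_⟩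
  · intro l _; positivity
  · intro l hl hlD hk
    have hp := hprime l hl
    have hdet := h.pr' hp hlD
    have hil : il G m l = 0 := il_zero h.sym h.ev hm hdet
    simp only [hil, pow_zero, mul_one]
    have hkx : kx G m l = 1 := hk
    unfold PP5C.psx
    by_cases hs : IsSquare ((G.det : ℤ) : ZMod l)
    · -- then `D(x)` is a square modulo `l`
      have hs2 : IsSquare ((PP5C.DX x : ℤ) : ZMod l) := by
        have : Fact l.Prime := ⟨hp⟩
        obtain ⟨mm, _, h1⟩ := h.sq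
        obtain ⟨r, hr⟩ := hs
        have hr0 : r ≠ 0 := by
          rintro rfl
          rw [mul_zero] at hr
          exact hdet ((ZMod.intCast_zmod_eq_zero_iff_dvd _ _).1 hr)
        have h2 : ((G.det : ℤ) : ZMod l) * ((PP5L.SS x).det : ℤ) = ((mm : ℤ) : ZMod l) ^ 2 := by
          have h3 := congrArg (Int.cast : ℤ → ZMod l) h1
          rw [Int.cast_mul, Int.cast_pow] at h3
          exact h3
        refine ⟨(mm : ZMod l) * r⁻¹, ?_⟩
        rw [DX_eq]
        rw [hr] at h2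
        field_simp
        linear_combination h2
      rw [if_pos hs2]
      have := hle l
      rw [hkx] at this
      norm_num at this ⊢
      exact this
    · have : om G m l = 0 := by
        unfold om
        rw [if_pos ⟨hkx, hdet, hs⟩]
      rw [this]
      split_ifs <;> norm_num
  · intro l hl hlD _
    have hdet := h.pr' (hprime l hl) hlD
    have hil : il G m l = 0 := il_zero h.sym h.ev hm hdet
    simp only [hil, pow_zero, mul_one]
    exact hle l
  · intro l _ _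
    exact mul_le_mul_of_nonneg_right (hle l) (by positivity)
  · intro l hl _ hl2
    have := il_le h.sym h.ev hm hD (hprime l hl)
    rw [if_neg hl2] at this
    exact this
  · intro _
    have := il_le h.sym h.ev hm hD Nat.prime_two
    rw [if_pos rfl] at this
    exact this

theorem sx_le {x : Fin 10 → ℤ} {G : Matrix (Fin 4) (Fin 4) ℤ} {m : Fin 4 → ℤ} :
    PP5C.sx (PP5C.D2 x) (D2 G m / 2).natAbs (fun l => il G m l) ≤ sl G m := by
  unfold PP5C.sx sl
  refine Finset.prod_le_prod_of_subset_of_one_le' (Finset.filter_subset _ _) ?_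
  intro l hl _
  exact Nat.one_le_pow _ _ (Nat.pos_of_mem_primeFactors hl)

theorem pm_iff {m : Fin 4 → ℤ} (h : Pr4 m) : PP5C.Pm m := by
  intro l hl
  have := h l hl
  push Not at this
  exact this

/-- THE DICTIONARY for (C1) -/
theorem dic_C1 {x : Fin 10 → ℤ} {G : Matrix (Fin 4) (Fin 4) ℤ} (h : XG x G) {T δ A c3 Th : ℝ}
    (hcc : ∀ c : Matrix (Fin 4) (Fin 4) ℤ,
      (∀ l : ℕ, l.Prime → ¬ l ∣ PP5C.D2 x → ¬ (l : ℤ) ∣ (c + c.transpose).det) →
      (∀ n : ℕ, PP5C.Cn n c → PP5C.An n x) →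
      ∀ (A0 : Fin 4 → ℤ) (H : ℕ), T ^ δ ≤ (H : ℝ) →
      ∀ (om : (Fin 4 → ℤ) → ℕ → ℝ) (ix : (Fin 4 → ℤ) → ℕ → ℕ) (S : Finset (Fin 4 → ℤ)),
      (∀ m ∈ S, m ∈ PP5C.bx A0 (fun _ => H) ∧ PP5C.Pm m ∧ PP5C.qf c m ≠ 0 ∧
        ((PP5C.qf c m).natAbs : ℝ) ≤ T ^ A ∧
        PP5C.Wgt (PP5C.D2 x) (PP5C.qf c m).natAbs (PP5C.psx x) (om m) (ix m) ∧
        (PP5C.sx (PP5C.D2 x) (PP5C.qf c m).natAbs (ix m) : ℝ) ≤ T ^ c3) →
      ∑ m ∈ S, ∏ l ∈ (PP5C.qf c m).natAbs.primeFactors, om m l ≤ (H : ℝ) ^ 4 * Th)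
    {H : ℕ} (hH : T ^ δ ≤ (H : ℝ)) (B : Finset (Fin 4 → ℤ))
    (hB : ∀ m ∈ B, Pr4 m ∧ D2 G m ≠ 0 ∧ (sl G m : ℝ) ≤ T ^ c3 ∧ |(D2 G m : ℝ)| ≤ T ^ A)
    (ha : ∃ a : Fin 4 → ℤ, ∀ m ∈ B, ∀ i, a i ≤ m i ∧ m i < a i + H) :
    ∑ m ∈ B, ((omA G m : ℝ) * (sl G m : ℝ)) ≤ (H : ℝ) ^ 4 * Th := by
  classical
  obtain ⟨a, ha⟩ := ha
  have key := hcc (cG G) (by
      intro l hl hlD
      rw [cG_add h.sym h.ev, Matrix.det_adjugate]
      intro h2
      exact h.pr' hl hlD ((Nat.prime_iff_prime_int.1 hl).dvd_of_dvd_pow h2)) (by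
      intro n hn
      have h2 : ∀ i j, (n : ℤ) ∣ G.adjugate i j := by
        intro i j
        have e : G.adjugate i j = cG G i j + cG G j i := by
          have := congrFun (congrFun (cG_add h.sym h.ev) i) j
          rw [← this]; rfl
        rw [e]
        by_cases hij : i = j
        · subst hij
          exact dvd_add (hn.1 i) (hn.1 i)
        · exact hn.2 i j hij
      intro i j
      exact Dvd.dvd.mul_left (h.con n h2 i j) 8) a H hH
    (fun m l => (om G m l : ℝ) * (l : ℝ) ^ il G m l) (fun m l => il G m l) B (by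
      intro m hm
      obtain ⟨b1, b2, b3, b4⟩ := hB m hm
      have hq := qf_eq h.sym h.ev m
      have h2q := qf_cG h.sym h.ev m
      refine ⟨?_, pm_iff b1, ?_, ?_, ?_, ?_⟩
      · unfold PP5C.bx
        rw [Fintype.mem_piFinset]
        intro i
        rw [Finset.mem_Ico]
        exact ha m hm i
      · intro h0
        rw [h0, mul_zero] at h2q
        exact b2 h2q.symm
      · refine le_trans ?_ b4
        have : |(D2 G m : ℝ)| = 2 * ((PP5C.qf (cG G) m).natAbs : ℝ) := by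
          rw [← h2q]
          push_cast
          rw [abs_mul, ← Int.cast_abs, Int.abs_eq_natAbs]
          norm_num
        rw [this]
        have : (0 : ℝ) ≤ ((PP5C.qf (cG G) m).natAbs : ℝ) := Nat.cast_nonneg _
        linarith
      · rw [hq]; exact wgt_om h b1 b2
      · rw [hq]
        refine le_trans ?_ b3
        exact_mod_cast sx_le)
  refine le_trans (le_of_eq ?_) key
  refine Finset.sum_congr rfl fun m _ => ?_
  rw [qf_eq h.sym h.ev, Finset.prod_mul_distrib]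
  unfold omA sl
  push_cast
  rfl

end Pool.Agent.PP5S
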