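import Mathlib

/-!
# PP5 section (e): bounds for determinants and adjugates with row and column scales
-/

namespace Pool.Agent.PP5S

open Matrix Finset

theorem det_scale (B : Matrix (Fin 4) (Fin 4) ℝ) (a b : Fin 4 → ℝ)
    (hB : ∀ i j, |B i j| ≤ a i * b j) : |B.det| ≤ 24 * ((∏ i, a i) * ∏ i, b i) := by
  rw [Matrix.det_apply]
  refine (Finset.abs_sum_le_sum_abs _ _).trans ?_
  have h1 : ∀ σ ∈ (Finset.univ : Finset (Equiv.Perm (Fin 4))),
      |Equiv.Perm.sign σ • ∏ i, B (σ i) i| ≤ (∏ i, a i) * ∏ i, b i := by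
    intro σ _
    have h2 : |Equiv.Perm.sign σ • ∏ i, B (σ i) i| = ∏ i, |B (σ i) i| := by
      rcases Int.units_eq_one_or (Equiv.Perm.sign σ) with h | h
      · rw [h, one_smul, Finset.abs_prod]
      · rw [h, Units.neg_smul, one_smul, abs_neg, Finset.abs_prod]
    rw [h2]
    calc ∏ i, |B (σ i) i| ≤ ∏ i, (a (σ i) * b i) :=
          Finset.prod_le_prod (fun i _ => abs_nonneg _) (fun i _ => hB _ _)
      _ = (∏ i, a (σ i)) * ∏ i, b i := Finset.prod_mul_distrib
      _ = _ := by rw [Equiv.prod_comp σ a]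
  refine (Finset.sum_le_sum h1).trans ?_
  rw [Finset.sum_const, Finset.card_univ, Fintype.card_perm, Fintype.card_fin, nsmul_eq_mul]
  norm_num [Nat.factorial]

theorem adj_scale (B : Matrix (Fin 4) (Fin 4) ℝ) (a b : Fin 4 → ℝ) (ha : ∀ i, 0 < a i)
    (hb : ∀ i, 0 < b i) (hB : ∀ i j, |B i j| ≤ a i * b j) (i j : Fin 4) :
    |B.adjugate i j| * (a j * b i) ≤ 24 * ((∏ i, a i) * ∏ i, b i) := by
  rw [Matrix.adjugate_apply]
  -- scale the row j by `a j * b i`
  have h0 : 0 < a j * b i := mul_pos (ha j) (hb i)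
  have h1 : |(B.updateRow j (Pi.single i 1)).det| * (a j * b i) =
      |(B.updateRow j (Pi.single i (a j * b i))).det| := by
    have h2 : (Pi.single i (a j * b i) : Fin 4 → ℝ) = (a j * b i) • (Pi.single i 1 : Fin 4 → ℝ) := by
      ext k
      by_cases hk : k = i
      · subst hk; simp
      · simp [hk]
    rw [h2, Matrix.det_updateRow_smul, abs_mul, abs_of_pos h0, mul_comm]
  rw [h1]
  apply det_scale
  intro r s
  by_cases hr : r = j
  · subst hr
    rw [Matrix.updateRow_self]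
    by_cases hs : s = i
    · subst hs
      rw [Pi.single_eq_same, abs_of_pos h0]
    · rw [Pi.single_eq_of_ne hs, abs_zero]
      exact (mul_pos (ha r) (hb s)).le
  · rw [Matrix.updateRow_ne hr]
    exact hB r s

/-- lower bound for the largest scaled entry of the adjugate -/
theorem adj_low (G : Matrix (Fin 4) (Fin 4) ℝ) (l : Fin 4 → ℝ) (hl : ∀ i, 0 < l i) (M : ℝ)
    (hM : ∀ i j, |G.adjugate i j| * (l i * l j) ≤ M) :
    |G.det| ^ 3 * (∏ i, l i) ^ 2 ≤ 24 * M ^ 4 := by
  have h1 : |G.adjugate.det| ≤ 24 * ((∏ i : Fin 4, M / l i) * ∏ i : Fin 4, 1 / l i) := by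
    apply det_scale
    intro i j
    have := hM i j
    have h2 : M / l i * (1 / l j) = M / (l i * l j) := by
      have := hl i; have := hl j; field_simp
    rw [h2, le_div_iff₀ (mul_pos (hl i) (hl j))]
    exact this
  rw [Matrix.det_adjugate] at h1
  have h3 : (∏ i : Fin 4, M / l i) * ∏ i : Fin 4, 1 / l i = M ^ 4 / (∏ i, l i) ^ 2 := by
    rw [Finset.prod_div_distrib, Finset.prod_div_distrib]
    simp only [Finset.prod_const, Finset.card_univ, Fintype.card_fin, one_pow]
    rw [div_mul_div_comm, mul_one, sq]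
  have hP : 0 < ∏ i, l i := Finset.prod_pos fun i _ => hl i
  rw [h3] at h1
  have h4 : |G.det ^ (Fintype.card (Fin 4) - 1)| = |G.det| ^ 3 := by
    rw [abs_pow]; simp
  rw [h4] at h1
  have h5 : (24 : ℝ) * (M ^ 4 / (∏ i, l i) ^ 2) = 24 * M ^ 4 / (∏ i, l i) ^ 2 := by ring
  rw [h5, le_div_iff₀ (by positivity)] at h1
  exact h1

end Pool.Agent.PP5S
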