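import Pool.Agent.PP5S.ShB
import Pool.Agent.PP5S.Dsc
import Pool.Agent.PP5B.Igl

/-!
# PP5 section (e), the sum over `m` for one `x`
-/

namespace Pool.Agent.PP5S

open Matrix Finset Pool.Agent.PP5B

/-- the conic bound with scales (E1c) -/
def ConB (C K1 : ℝ) : Prop :=
  ∀ (G : Matrix (Fin 4) (Fin 4) ℤ), (∀ i j, G i j = G j i) → (∀ i, 2 ∣ G i i) → G.det ≠ 0 →
  ∀ c : Fin 4 → ℤ, Pr4 c → D2 G c ≠ 0 → ∀ (T Y u : ℝ) (l : Fin 4 → ℝ),
  0 < T → 0 < Y → 0 < u → (∀ i, 0 < l i) →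
  (∀ i j, |(G i j : ℝ)| ≤ C * l i * l j / T) → (∀ i, |(c i : ℝ)| ≤ u * l i) →
  (∃ i, u * l i ≤ 2 * |(c i : ℝ)|) →
  ∀ S : Finset (Fin 4 → ℤ), (∀ v ∈ S, Pr4 v ∧ v ⬝ᵥ (G *ᵥ v) = 0 ∧ c ⬝ᵥ v = 0 ∧
    ∀ i, |(v i : ℝ)| * l i ≤ Y) →
  (S.card : ℝ) ≤ K1 * (omA G c : ℝ) *
    (1 + Real.log (1 + (∏ i, l i) ^ 2 / (T ^ 4 * |(G.det : ℝ)|)) +
      Real.log (1 + (∏ i, l i) ^ 2 * u ^ 2 / (T ^ 3 * |(D2 G c : ℝ)|))) *
    (1 + Y * (sl G c : ℝ) / (T * u * √|(G.det : ℝ)|))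

/-- the cubes near the cone of a quadratic form (E2) -/
def ConeB (K2 : ℝ) : Prop :=
  ∀ (A : Matrix (Fin 4) (Fin 4) ℝ) (l : Fin 4 → ℝ) (M u κ σ : ℝ) (h : ℕ) (N : Finset (Fin 4 → ℤ)),
  (∀ i j, A i j = A j i) → (∀ i, 0 < l i) → (∀ i j, |A i j| * (l i * l j) ≤ M) →
  (∃ i j, M = |A i j| * (l i * l j)) → 0 < M → 0 < u → 0 < κ → κ ≤ 1 → 0 ≤ σ → 0 < h →
  (∀ i, (h : ℝ) ≤ κ * (u * l i)) → (∀ m ∈ N, ∀ i, |(m i : ℝ)| ≤ u * l i) →
  (∀ m ∈ N, |(fun i => (m i : ℝ)) ⬝ᵥ (A *ᵥ fun i => (m i : ℝ))| ≤ σ * (M * u ^ 2)) →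
  ((N.image (cz h)).card : ℝ) * (h : ℝ) ^ 4 ≤ K2 * √(σ + κ) * (u ^ 4 * ∏ i, l i)

/-- all cubes of a box (E2) -/
def BoxB (K2 : ℝ) : Prop :=
  ∀ (l : Fin 4 → ℝ) (u : ℝ) (h : ℕ) (N : Finset (Fin 4 → ℤ)), (∀ i, 0 < l i) → 0 < u → 0 < h →
  (∀ i, (h : ℝ) ≤ u * l i) → (∀ m ∈ N, ∀ i, |(m i : ℝ)| ≤ u * l i) →
  ((N.image (cz h)).card : ℝ) * (h : ℝ) ^ 4 ≤ K2 * (u ^ 4 * ∏ i, l i)

theorem D2_cast (G : Matrix (Fin 4) (Fin 4) ℤ) (m : Fin 4 → ℤ) :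
    ((D2 G m : ℤ) : ℝ) = (fun i => (m i : ℝ)) ⬝ᵥ ((G.adjugate.map (Int.cast : ℤ → ℝ)) *ᵥ
      fun i => (m i : ℝ)) := by
  unfold D2
  simp only [dotProduct, mulVec, Matrix.map_apply]
  push_cast
  rfl

theorem adj_cast (G : Matrix (Fin 4) (Fin 4) ℤ) :
    G.adjugate.map (Int.cast : ℤ → ℝ) = (G.map (Int.cast : ℤ → ℝ)).adjugate := by
  have := RingHom.map_adjugate (Int.castRingHom ℝ) G
  simpa [RingHom.mapMatrix_apply] using this

theorem det_cast (G : Matrix (Fin 4) (Fin 4) ℤ) :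
    ((G.det : ℤ) : ℝ) = (G.map (Int.cast : ℤ → ℝ)).det := by
  have := RingHom.map_det (Int.castRingHom ℝ) G
  simpa [RingHom.mapMatrix_apply] using this

theorem log_RM {R M ρ : ℝ} (hR : 0 ≤ R) (hM : 0 < M) (hρ : 0 ≤ ρ) (h : R ^ 4 ≤ 24 * ρ ^ 3 * M ^ 4) :
    Real.log (1 + R / M) ≤ 2 + Real.log (1 + ρ) := by
  have h1 : R / M ≤ 3 * (1 + ρ) := by
    by_contra hc
    push Not at hc
    have h2 : (3 * (1 + ρ)) ^ 4 < (R / M) ^ 4 := pow_lt_pow_left₀ hc (by positivity) (by norm_num)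
    rw [div_pow] at h2
    rw [lt_div_iff₀ (by positivity)] at h2
    have h3 : 24 * ρ ^ 3 ≤ (3 * (1 + ρ)) ^ 4 := by
      have : (3 * (1 + ρ)) ^ 4 = 81 * (1 + 4 * ρ + 6 * ρ ^ 2 + 4 * ρ ^ 3 + ρ ^ 4) := by ring
      rw [this]
      have h4 : 0 ≤ ρ ^ 3 := by positivity
      have h5 : 0 ≤ ρ ^ 2 := by positivity
      have h6 : 0 ≤ ρ ^ 4 := by positivity
      linarith
    have h7 := mul_le_mul_of_nonneg_right h3 (show 0 ≤ M ^ 4 by positivity)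
    linarith
  have h2 : 1 + R / M ≤ 4 * (1 + ρ) := by linarith
  have h3 : 0 ≤ R / M := by positivity
  calc Real.log (1 + R / M) ≤ Real.log (4 * (1 + ρ)) := Real.log_le_log (by linarith) h2
    _ = Real.log 4 + Real.log (1 + ρ) := Real.log_mul (by norm_num) (by linarith)
    _ ≤ 2 + Real.log (1 + ρ) := by
      have h4 : Real.log 4 = 2 * Real.log 2 := by
        rw [show (4 : ℝ) = 2 ^ 2 by norm_num, Real.log_pow]; norm_num
      have := Real.log_two_lt_d9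
      linarith

/-- THE SUM OVER `m` FOR ONE `x` -/
theorem per_x {C K1 K2 : ℝ} (hC : 0 < C) (hK1 : 0 ≤ K1) (hK2 : 0 ≤ K2) (hcon : ConB C K1)
    (hcone : ConeB K2) (hbox : BoxB K2)
    (G : Matrix (Fin 4) (Fin 4) ℤ) (hsym : ∀ i j, G i j = G j i) (hev : ∀ i, 2 ∣ G i i)
    (hdet : G.det ≠ 0) (T Y S Th κ : ℝ) (l : Fin 4 → ℝ) (hT : 0 < T) (hY : 0 < Y) (hS : 0 < S)
    (hl : ∀ i, 0 < l i) (hTh : 0 ≤ Th) (hκ : 0 < κ) (hκ1 : κ ≤ 1)
    (hG : ∀ i j, |(G i j : ℝ)| ≤ C * l i * l j / T) (h J0 J : ℕ) (hh : 0 < h)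
    (hκl : ∀ i, (h : ℝ) ≤ κ * (S / 2 ^ J0 * l i)) (Cd : ℝ)
    (hJ : 24 * C ^ 3 * (∏ i, l i) ^ 2 / T ^ 3 * S ^ 2 ≤ 2 ^ J) (hJκ : (J : ℝ) * √κ ≤ 1)
    (hC1 : ∀ B : Finset (Fin 4 → ℤ), (∀ m ∈ B, Pr4 m ∧ D2 G m ≠ 0 ∧ (sl G m : ℝ) ≤ Cd ∧
        ∀ i, |(m i : ℝ)| ≤ S * l i) →
      (∃ a : Fin 4 → ℤ, ∀ m ∈ B, ∀ i, a i ≤ m i ∧ m i < a i + h) →
      ∑ m ∈ B, ((omA G m : ℝ) * (sl G m : ℝ)) ≤ (h : ℝ) ^ 4 * Th)
    (N : Finset (Fin 4 → ℤ))
    (hN : ∀ m ∈ N, Pr4 m ∧ D2 G m ≠ 0 ∧ (sl G m : ℝ) ≤ Cd ∧ (∀ i, |(m i : ℝ)| ≤ S * l i) ∧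
      ∃ i, S * l i ≤ 2 ^ J0 * |(m i : ℝ)|)
    (Zs : (Fin 4 → ℤ) → Finset (Fin 4 → ℤ))
    (hZs : ∀ m ∈ N, ∀ v ∈ Zs m, Pr4 v ∧ v ⬝ᵥ (G *ᵥ v) = 0 ∧ m ⬝ᵥ v = 0 ∧
      ∀ i, |(v i : ℝ)| * l i ≤ Y) :
    ∑ m ∈ N, ((Zs m).card : ℝ) ≤ 42 * K1 * K2 * Th *
      (1 + Real.log (1 + (∏ i, l i) ^ 2 / (T ^ 4 * |(G.det : ℝ)|))) *
      ((S ^ 4 * ∏ i, l i) * (1 + Y / (T * S * √|(G.det : ℝ)|))) := by
  classical
  set Λ : ℝ := ∏ i, l i with hΛ
  have hΛ0 : 0 < Λ := Finset.prod_pos fun i _ => hl i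
  set A : Matrix (Fin 4) (Fin 4) ℝ := G.adjugate.map (Int.cast : ℤ → ℝ) with hA
  have hAa : A = (G.map (Int.cast : ℤ → ℝ)).adjugate := adj_cast G
  have hdR : (0 : ℝ) < |(G.det : ℝ)| := abs_pos.2 (by exact_mod_cast hdet)
  -- the largest scaled entry
  obtain ⟨p, -, hp⟩ := Finset.exists_max_image (Finset.univ : Finset (Fin 4 × Fin 4))
    (fun p => |A p.1 p.2| * (l p.1 * l p.2)) ⟨(0, 0), Finset.mem_univ _⟩
  set M : ℝ := |A p.1 p.2| * (l p.1 * l p.2) with hMdef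
  have hMle : ∀ i j, |A i j| * (l i * l j) ≤ M := fun i j => hp (i, j) (Finset.mem_univ _)
  have hM0 : 0 ≤ M := mul_nonneg (abs_nonneg _) (mul_pos (hl _) (hl _)).le
  have hlow : |(G.det : ℝ)| ^ 3 * Λ ^ 2 ≤ 24 * M ^ 4 := by
    have := adj_low (G.map (Int.cast : ℤ → ℝ)) l hl M (by rw [← hAa]; exact hMle)
    rwa [← det_cast] at this
  have hM : 0 < M := by
    rcases hM0.lt_or_eq with h1 | h1
    · exact h1
    · exfalso
      rw [← h1] at hlow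
      have : 0 < |(G.det : ℝ)| ^ 3 * Λ ^ 2 := by positivity
      norm_num at hlow
      linarith
  have hAsym : ∀ i j, A i j = A j i := by
    intro i j
    have hGs : Gᵀ = G := by ext a b; exact hsym b a
    have h1 : G.adjugateᵀ = G.adjugate := by
      rw [Matrix.adjugate_transpose, hGs]
    have h2 : G.adjugate i j = G.adjugate j i := by
      conv_lhs => rw [← h1]
      rfl
    simp only [hA, Matrix.map_apply, h2]
  have hMup : M ≤ 24 * C ^ 3 * Λ ^ 2 / T ^ 3 := by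
    have h1 := adj_scale (G.map (Int.cast : ℤ → ℝ)) (fun i => C * l i / T) l
      (fun i => by have := hl i; positivity) hl (by
        intro i j
        have := hG i j
        have e : C * l i / T * l j = C * l i * l j / T := by ring
        rw [e]; exact this) p.1 p.2
    rw [← hAa] at h1
    have h2 : ∏ i : Fin 4, C * l i / T = C ^ 4 * Λ / T ^ 4 := by
      rw [Finset.prod_div_distrib, Finset.prod_mul_distrib]
      simp [hΛ]
    rw [h2] at h1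
    have h3 : |A p.1 p.2| * (C * l p.2 / T * l p.1) = C / T * M := by
      rw [hMdef]; ring
    rw [h3] at h1
    have h4 : 24 * (C ^ 4 * Λ / T ^ 4 * Λ) = C / T * (24 * C ^ 3 * Λ ^ 2 / T ^ 3) := by
      field_simp
    rw [h4] at h1
    exact le_of_mul_le_mul_left h1 (by positivity)
  set R : ℝ := Λ ^ 2 / T ^ 3 with hRdef
  set ρ : ℝ := Λ ^ 2 / (T ^ 4 * |(G.det : ℝ)|) with hρ
  have hρ0 : 0 ≤ ρ := by positivity
  set L : ℝ := 1 + Real.log (1 + ρ) with hL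
  have hlog0 : 0 ≤ Real.log (1 + ρ) := Real.log_nonneg (by linarith)
  set Q : ℝ := Y / (T * S * √|(G.det : ℝ)|) with hQ
  have hQ0 : 0 ≤ Q := by positivity
  have hsq : 0 < √|(G.det : ℝ)| := Real.sqrt_pos.2 hdR
  have main := sum_shells (h := h) hh (fun m => (omA G m : ℝ) * (sl G m : ℝ))
    (fun m => |(D2 G m : ℝ)|) (fun m => ((Zs m).card : ℝ)) l Th M S (S ^ 4 * Λ) κ K1 K2 L R Q N J0
    hTh hM hS (by positivity) hκ.le hK1 hK2 (by linarith) (by positivity) hQ0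
    (fun m _ => by positivity)
    (fun m hm => by
      have h1 := (hN m hm).2.1
      have h2 : (1 : ℤ) ≤ |D2 G m| := Int.one_le_abs h1
      exact_mod_cast h2)
    (fun m hm => (hN m hm).2.2.2)
    (by
      intro m hm u hu h1 h2
      have hm' := hN m hm
      have h3 := hcon G hsym hev hdet m hm'.1 hm'.2.1 T Y u l hT hY hu hl hG h1 h2 (Zs m)
        (fun v hv => hZs m hm v hv)
      refine h3.trans ?_
      have hD : (0 : ℝ) < |(D2 G m : ℝ)| := abs_pos.2 (by exact_mod_cast hm'.2.1)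
      have e1 : R * u ^ 2 / |(D2 G m : ℝ)| = Λ ^ 2 * u ^ 2 / (T ^ 3 * |(D2 G m : ℝ)|) := by
        rw [hRdef]; field_simp
      have e2 : Q * S / u = Y / (T * u * √|(G.det : ℝ)|) := by
        rw [hQ]; field_simp
      rw [e1, e2]
      have hs1 : (1 : ℝ) ≤ (sl G m : ℝ) := by
        have : 0 < sl G m := by
          unfold sl
          exact Finset.prod_pos fun l hl => pow_pos (Nat.pos_of_mem_primeFactors hl) _
        exact_mod_cast this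
      have h4 : 0 ≤ Y / (T * u * √|(G.det : ℝ)|) := by positivity
      have h5 : 1 + Y * (sl G m : ℝ) / (T * u * √|(G.det : ℝ)|) ≤
          (sl G m : ℝ) * (1 + Y / (T * u * √|(G.det : ℝ)|)) := by
        have : Y * (sl G m : ℝ) / (T * u * √|(G.det : ℝ)|) =
          (sl G m : ℝ) * (Y / (T * u * √|(G.det : ℝ)|)) := by ring
        rw [this]; linarith
      have h6 : 0 ≤ K1 * (omA G m : ℝ) * (1 + Real.log (1 + Λ ^ 2 / (T ^ 4 * |(G.det : ℝ)|)) +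
          Real.log (1 + Λ ^ 2 * u ^ 2 / (T ^ 3 * |(D2 G m : ℝ)|))) := by
        have h7 : 0 ≤ Real.log (1 + Λ ^ 2 * u ^ 2 / (T ^ 3 * |(D2 G m : ℝ)|)) :=
          Real.log_nonneg (by
            have : 0 ≤ Λ ^ 2 * u ^ 2 / (T ^ 3 * |(D2 G m : ℝ)|) := by positivity
            linarith)
        have h8 : 0 ≤ Real.log (1 + Λ ^ 2 / (T ^ 4 * |(G.det : ℝ)|)) := hlog0
        positivity
      refine (mul_le_mul_of_nonneg_left h5 h6).trans (le_of_eq ?_)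
      rw [hL, hρ]
      ring)
    (fun B hB ha => hC1 B (fun m hm => by
      have := hN m (hB hm)
      exact ⟨this.1, this.2.1, this.2.2.1, this.2.2.2.1⟩) ha)
    (by
      intro j hj B hB h1
      rw [Finset.mem_range] at hj
      have hu : 0 < S / 2 ^ j := by positivity
      have h2 := hbox l (S / 2 ^ j) h B hl hu hh (by
        intro i
        have h3 := hκl i
        have h4 : S / 2 ^ J0 * l i ≤ S / 2 ^ j * l i := by
          apply mul_le_mul_of_nonneg_right _ (hl i).le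
          apply div_le_div_of_nonneg_left hS.le (by positivity)
          exact pow_le_pow_right₀ (by norm_num) (by omega)
        have h5 : 0 ≤ S / 2 ^ J0 * l i := by have := hl i; positivity
        nlinarith) h1
      have e : (S / 2 ^ j) ^ 4 * ∏ i, l i = S ^ 4 * Λ / 16 ^ j := by
        rw [div_pow, ← pow_mul, mul_comm j 4, pow_mul]
        norm_num
        ring
      rwa [e] at h2)
    (by
      intro j hj σ hσ B hB h1 h2
      rw [Finset.mem_range] at hj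
      have hu : 0 < S / 2 ^ j := by positivity
      have h3 := hcone A l M (S / 2 ^ j) κ σ h B hAsym hl hMle ⟨p.1, p.2, rfl⟩ hM hu hκ hκ1 hσ hh (by
        intro i
        have h3 := hκl i
        have h4 : S / 2 ^ J0 * l i ≤ S / 2 ^ j * l i := by
          apply mul_le_mul_of_nonneg_right _ (hl i).le
          apply div_le_div_of_nonneg_left hS.le (by positivity)
          exact pow_le_pow_right₀ (by norm_num) (by omega)
        exact h3.trans (mul_le_mul_of_nonneg_left h4 hκ.le)) h1 (by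
        intro m hm
        rw [hA, ← D2_cast]
        exact h2 m hm)
      have e : (S / 2 ^ j) ^ 4 * ∏ i, l i = S ^ 4 * Λ / 16 ^ j := by
        rw [div_pow, ← pow_mul, mul_comm j 4, pow_mul]
        norm_num
        ring
      rwa [e] at h3)
    J (by
      refine le_trans ?_ hJ
      exact mul_le_mul_of_nonneg_right hMup (by positivity)) hJκ
  refine main.trans ?_
  have hRM : Real.log (1 + R / M) ≤ 2 + Real.log (1 + ρ) := by
    apply log_RM (by positivity) hM hρ0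
    -- R^4 = ρ^3 |det|^3 Λ^2
    have e2 : R ^ 4 = ρ ^ 3 * (|(G.det : ℝ)| ^ 3 * Λ ^ 2) := by
      rw [hRdef, hρ]; field_simp
    rw [e2]
    have h3 : 0 ≤ ρ ^ 3 := by positivity
    linarith [mul_le_mul_of_nonneg_left hlow h3]
  have h9 : L + Real.log (1 + R / M) ≤ 3 * (1 + Real.log (1 + ρ)) := by
    rw [hL]; linarith
  have h10 : 0 ≤ 14 * K1 * K2 * (S ^ 4 * Λ) * Th := by positivity
  have h11 : 0 ≤ 1 + Q := by linarith
  calc 14 * K1 * K2 * (S ^ 4 * Λ) * Th * (L + Real.log (1 + R / M)) * (1 + Q)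
      ≤ 14 * K1 * K2 * (S ^ 4 * Λ) * Th * (3 * (1 + Real.log (1 + ρ))) * (1 + Q) :=
        mul_le_mul_of_nonneg_right (mul_le_mul_of_nonneg_left h9 h10) h11
    _ = _ := by ring

end Pool.Agent.PP5S
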