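import Mathlib

/-!
# PP5 section (e), the sum over `m` for one `x`: cubes, near cone layers, shells

`w m` is the weight of `m`, `val m = |D2 G m|`; all the arithmetic enters through the hypothesis `hC`
(the sum of the weights over a cube of side `h` is at most `h ^ 4 * Th`).
-/

namespace Pool.Agent.PP5S

open Finset

/-- the index of the cube of side `h` containing `m` -/
def cz (h : ℕ) (m : Fin 4 → ℤ) : Fin 4 → ℤ := fun i => m i / (h : ℤ)

theorem cz_spec {h : ℕ} (hh : 0 < h) (m : Fin 4 → ℤ) (i : Fin 4) :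
    (h : ℤ) * cz h m i ≤ m i ∧ m i < (h : ℤ) * (cz h m i + 1) := by
  have h0 : (0 : ℤ) < (h : ℤ) := by exact_mod_cast hh
  constructor
  · exact Int.mul_ediv_self_le (ne_of_gt h0)
  · have := Int.lt_mul_ediv_self_add (x := m i) h0
    unfold cz
    linarith [mul_add (h : ℤ) (m i / (h : ℤ)) 1, mul_one (h : ℤ)]

theorem cube_sum {h : ℕ} (hh : 0 < h) (w : (Fin 4 → ℤ) → ℝ) (Th : ℝ) (N : Finset (Fin 4 → ℤ))
    (hC : ∀ B : Finset (Fin 4 → ℤ), B ⊆ N →
      (∃ a : Fin 4 → ℤ, ∀ m ∈ B, ∀ i, a i ≤ m i ∧ m i < a i + h) → ∑ m ∈ B, w m ≤ (h : ℝ) ^ 4 * Th) :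
    ∑ m ∈ N, w m ≤ ((N.image (cz h)).card : ℝ) * ((h : ℝ) ^ 4 * Th) := by
  classical
  rw [← Finset.sum_fiberwise_of_maps_to (s := N) (t := N.image (cz h)) (g := cz h)
    (fun m hm => Finset.mem_image_of_mem _ hm) w]
  calc ∑ z ∈ N.image (cz h), ∑ m ∈ N with cz h m = z, w m
      ≤ ∑ z ∈ N.image (cz h), (h : ℝ) ^ 4 * Th := by
        refine Finset.sum_le_sum (fun z _ => ?_)
        refine hC _ (Finset.filter_subset _ _) ⟨fun i => (h : ℤ) * z i, ?_⟩
        intro m hm i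
        rw [Finset.mem_filter] at hm
        have h1 := cz_spec hh m i
        rw [hm.2] at h1
        refine ⟨h1.1, ?_⟩
        have h2 := h1.2
        rw [mul_add, mul_one] at h2
        exact h2
    _ = _ := by rw [Finset.sum_const, nsmul_eq_mul]

theorem log_layers (J : ℕ) : ∀ r : ℝ, 0 ≤ r → r ≤ 2 ^ J →
    Real.log (1 + r) ≤ 2 + ∑ j ∈ Finset.range J, (if (2 : ℝ) ^ (j + 1) ≤ r then (1 : ℝ) else 0) := by
  induction J with
  | zero =>
    intro r h0 h1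
    rw [Finset.range_zero, Finset.sum_empty]
    have := Real.log_le_sub_one_of_pos (show (0 : ℝ) < 1 + r by linarith)
    norm_num at h1
    linarith
  | succ J ih =>
    intro r h0 h1
    rw [Finset.sum_range_succ]
    rcases le_or_gt r (2 ^ J) with h | h
    · have := ih r h0 h
      have h2 : (0 : ℝ) ≤ (if (2 : ℝ) ^ (J + 1) ≤ r then (1 : ℝ) else 0) := by
        split_ifs <;> norm_num
      linarith
    · have h3 : ∑ j ∈ Finset.range J, (if (2 : ℝ) ^ (j + 1) ≤ r then (1 : ℝ) else 0) = J := by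
        rw [Finset.sum_congr rfl (g := fun _ => (1 : ℝ))]
        · simp
        · intro j hj
          rw [Finset.mem_range] at hj
          rw [if_pos]
          refine le_trans ?_ h.le
          exact pow_le_pow_right₀ (by norm_num) (by omega)
      rw [h3]
      have h2 : (0 : ℝ) ≤ (if (2 : ℝ) ^ (J + 1) ≤ r then (1 : ℝ) else 0) := by
        split_ifs <;> norm_num
      have h4 : Real.log (1 + r) ≤ Real.log (2 ^ (J + 2)) := by
        apply Real.log_le_log (by linarith)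
        have h5 : (1 : ℝ) ≤ 2 ^ (J + 1) := one_le_pow₀ (by norm_num)
        have h6 : (2 : ℝ) ^ (J + 2) = 2 ^ (J + 1) + 2 ^ (J + 1) := by ring
        rw [h6]
        linarith
      rw [Real.log_pow] at h4
      have h7 : Real.log 2 ≤ 1 := by
        have := Real.log_two_lt_d9; linarith
      have h8 : ((J + 2 : ℕ) : ℝ) * Real.log 2 ≤ ((J + 2 : ℕ) : ℝ) * 1 :=
        mul_le_mul_of_nonneg_left h7 (Nat.cast_nonneg _)
      push_cast at h8 h4
      linarith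

theorem sum_sqrt_half (J : ℕ) : ∑ j ∈ Finset.range J, √((1 / 2 : ℝ) ^ (j + 1)) ≤ 3 := by
  have h1 : ∀ n : ℕ, √((1 / 2 : ℝ) ^ n) ≤ (3 / 4 : ℝ) ^ n := by
    intro n
    apply Real.sqrt_le_iff.2
    refine ⟨by positivity, ?_⟩
    rw [← pow_mul, mul_comm, pow_mul]
    apply pow_le_pow_left₀ (by norm_num)
    norm_num
  have h2 : ∀ J : ℕ, ∑ j ∈ Finset.range J, (3 / 4 : ℝ) ^ (j + 1) ≤ 3 - 3 * (3 / 4 : ℝ) ^ J := by
    intro J
    induction J with
    | zero => simp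
    | succ J ih =>
      rw [Finset.sum_range_succ]
      have : (3 / 4 : ℝ) ^ (J + 1) = 3 / 4 * (3 / 4 : ℝ) ^ J := by ring
      linarith
  calc _ ≤ ∑ j ∈ Finset.range J, (3 / 4 : ℝ) ^ (j + 1) := Finset.sum_le_sum fun j _ => h1 _
    _ ≤ 3 - 3 * (3 / 4 : ℝ) ^ J := h2 J
    _ ≤ 3 := by
      have : (0 : ℝ) ≤ (3 / 4 : ℝ) ^ J := by positivity
      linarith

theorem sqrt_add_le' {a b : ℝ} (ha : 0 ≤ a) (hb : 0 ≤ b) : √(a + b) ≤ √a + √b := by
  apply Real.sqrt_le_iff.2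
  refine ⟨by positivity, ?_⟩
  have h1 := Real.sq_sqrt ha
  have h2 := Real.sq_sqrt hb
  have h3 : 0 ≤ √a * √b := by positivity
  nlinarith

/-- one shell -/
theorem shell_sum {h : ℕ} (hh : 0 < h) (w val : (Fin 4 → ℤ) → ℝ) (Th M u V κ K2 : ℝ)
    (N : Finset (Fin 4 → ℤ)) (hTh : 0 ≤ Th) (hM : 0 < M) (hu : 0 < u) (hV : 0 ≤ V) (hκ : 0 ≤ κ)
    (hK2 : 0 ≤ K2)
    (hw : ∀ m ∈ N, 0 ≤ w m) (hval : ∀ m ∈ N, 1 ≤ val m)
    (hC : ∀ B : Finset (Fin 4 → ℤ), B ⊆ N →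
      (∃ a : Fin 4 → ℤ, ∀ m ∈ B, ∀ i, a i ≤ m i ∧ m i < a i + h) → ∑ m ∈ B, w m ≤ (h : ℝ) ^ 4 * Th)
    (htot : ((N.image (cz h)).card : ℝ) * (h : ℝ) ^ 4 ≤ K2 * V)
    (hcone : ∀ σ : ℝ, 0 ≤ σ → ∀ B : Finset (Fin 4 → ℤ), B ⊆ N → (∀ m ∈ B, val m ≤ σ * (M * u ^ 2)) →
      ((B.image (cz h)).card : ℝ) * (h : ℝ) ^ 4 ≤ K2 * √(σ + κ) * V)
    (J : ℕ) (hJ : M * u ^ 2 ≤ 2 ^ J) (hJκ : (J : ℝ) * √κ ≤ 1) :
    ∑ m ∈ N, w m * (1 + Real.log (1 + M * u ^ 2 / val m)) ≤ 7 * K2 * V * Th := by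
  classical
  have hMu : 0 < M * u ^ 2 := by positivity
  have step1 : ∑ m ∈ N, w m * (1 + Real.log (1 + M * u ^ 2 / val m)) ≤
      ∑ m ∈ N, (3 * w m + ∑ j ∈ Finset.range J,
        (if (2 : ℝ) ^ (j + 1) ≤ M * u ^ 2 / val m then w m else 0)) := by
    refine Finset.sum_le_sum (fun m hm => ?_)
    have hv := hval m hm
    have hv0 : 0 < val m := by linarith
    have hr : M * u ^ 2 / val m ≤ 2 ^ J := by
      refine le_trans ?_ hJ
      exact div_le_self hMu.le hv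
    have := log_layers J (M * u ^ 2 / val m) (by positivity) hr
    have h2 : w m * (1 + Real.log (1 + M * u ^ 2 / val m)) ≤
        w m * (1 + (2 + ∑ j ∈ Finset.range J,
          (if (2 : ℝ) ^ (j + 1) ≤ M * u ^ 2 / val m then (1 : ℝ) else 0))) :=
      mul_le_mul_of_nonneg_left (by linarith) (hw m hm)
    refine h2.trans (le_of_eq ?_)
    rw [mul_add, mul_add, Finset.mul_sum]
    simp only [mul_ite, mul_one, mul_zero]
    ring
  refine step1.trans ?_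
  rw [Finset.sum_add_distrib, ← Finset.mul_sum, Finset.sum_comm]
  have hA : ∑ m ∈ N, w m ≤ K2 * V * Th := by
    calc _ ≤ ((N.image (cz h)).card : ℝ) * ((h : ℝ) ^ 4 * Th) := cube_sum hh w Th N hC
      _ = ((N.image (cz h)).card : ℝ) * (h : ℝ) ^ 4 * Th := by ring
      _ ≤ _ := mul_le_mul_of_nonneg_right htot hTh
  have hB : ∀ j ∈ Finset.range J, ∑ m ∈ N, (if (2 : ℝ) ^ (j + 1) ≤ M * u ^ 2 / val m then w m else 0)
      ≤ K2 * V * Th * (√((1 / 2 : ℝ) ^ (j + 1)) + √κ) := by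
    intro j _
    rw [← Finset.sum_filter]
    set B := N.filter (fun m => (2 : ℝ) ^ (j + 1) ≤ M * u ^ 2 / val m) with hBdef
    have hBN : B ⊆ N := Finset.filter_subset _ _
    have h1 : ∑ m ∈ B, w m ≤ ((B.image (cz h)).card : ℝ) * ((h : ℝ) ^ 4 * Th) :=
      cube_sum hh w Th B (fun B' hB' ha => hC B' (hB'.trans hBN) ha)
    have h2 := hcone ((1 / 2 : ℝ) ^ (j + 1)) (by positivity) B hBN (by
      intro m hm
      rw [hBdef, Finset.mem_filter] at hm
      have hv := hval m hm.1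
      have hv0 : 0 < val m := by linarith
      have h3 := hm.2
      rw [le_div_iff₀ hv0] at h3
      rw [one_div, inv_pow, inv_mul_eq_div, le_div_iff₀ (by positivity)]
      linarith [mul_comm (val m) ((2 : ℝ) ^ (j + 1))])
    have h4 : √((1 / 2 : ℝ) ^ (j + 1) + κ) ≤ √((1 / 2 : ℝ) ^ (j + 1)) + √κ :=
      sqrt_add_le' (by positivity) hκ
    calc ∑ m ∈ B, w m ≤ ((B.image (cz h)).card : ℝ) * ((h : ℝ) ^ 4 * Th) := h1
      _ = ((B.image (cz h)).card : ℝ) * (h : ℝ) ^ 4 * Th := by ring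
      _ ≤ K2 * √((1 / 2 : ℝ) ^ (j + 1) + κ) * V * Th := mul_le_mul_of_nonneg_right h2 hTh
      _ = K2 * V * Th * √((1 / 2 : ℝ) ^ (j + 1) + κ) := by ring
      _ ≤ _ := mul_le_mul_of_nonneg_left h4 (by positivity)
  have hBs := Finset.sum_le_sum hB
  rw [← Finset.mul_sum, Finset.sum_add_distrib] at hBs
  have h5 := sum_sqrt_half J
  have h6 : ∑ _j ∈ Finset.range J, √κ ≤ 1 := by
    rw [Finset.sum_const, Finset.card_range, nsmul_eq_mul]; exact hJκ
  have h7 : 0 ≤ K2 * V * Th := by positivity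
  have h8 : K2 * V * Th * (∑ j ∈ Finset.range J, √((1 / 2 : ℝ) ^ (j + 1)) + ∑ _j ∈ Finset.range J, √κ)
      ≤ K2 * V * Th * 4 := mul_le_mul_of_nonneg_left (by linarith) h7
  nlinarith

end Pool.Agent.PP5S
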