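import Pool.Agent.PP5S.ShA

/-!
# PP5 section (e), the sum over `m` for one `x`: the sum over the shells
-/

namespace Pool.Agent.PP5S

open Finset

theorem shell_ex (l : Fin 4 → ℝ) (J : ℕ) : ∀ (S : ℝ) (m : Fin 4 → ℤ),
    (∀ i, |(m i : ℝ)| ≤ S * l i) → (∃ i, S * l i ≤ 2 ^ J * |(m i : ℝ)|) →
    ∃ j ∈ Finset.range (J + 1), (∀ i, |(m i : ℝ)| ≤ S / 2 ^ j * l i) ∧
      ∃ i, S / 2 ^ j * l i ≤ 2 * |(m i : ℝ)| := by
  induction J with
  | zero =>
    intro S m h1 h2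
    refine ⟨0, by simp, ?_, ?_⟩
    · intro i; simpa using h1 i
    · obtain ⟨i, hi⟩ := h2
      refine ⟨i, ?_⟩
      have := abs_nonneg (m i : ℝ)
      simp only [pow_zero, one_mul, div_one] at hi ⊢
      linarith
  | succ J ih =>
    intro S m h1 h2
    by_cases hc : ∃ i, S * l i ≤ 2 * |(m i : ℝ)|
    · refine ⟨0, by simp, ?_, ?_⟩
      · intro i; simpa using h1 i
      · obtain ⟨i, hi⟩ := hc
        exact ⟨i, by simpa using hi⟩
    · push Not at hc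
      obtain ⟨j, hj, h3, h4⟩ := ih (S / 2) m (fun i => by have := hc i; linarith) (by
        obtain ⟨i, hi⟩ := h2
        refine ⟨i, ?_⟩
        rw [pow_succ] at hi
        linarith)
      rw [Finset.mem_range] at hj
      refine ⟨j + 1, by rw [Finset.mem_range]; omega, ?_, ?_⟩
      · intro i
        have := h3 i
        rw [div_div, mul_comm (2 : ℝ) (2 ^ j), ← pow_succ] at this
        exact this
      · obtain ⟨i, hi⟩ := h4
        refine ⟨i, ?_⟩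
        rw [div_div, mul_comm (2 : ℝ) (2 ^ j), ← pow_succ] at hi
        exact hi

theorem log_split {L r a b : ℝ} (hL : 1 ≤ L) (ha : 0 ≤ a) (hb : 0 ≤ b) (hr : r = a * b) :
    L + Real.log (1 + r) ≤ (L + Real.log (1 + a)) * (1 + Real.log (1 + b)) := by
  have h1 : Real.log (1 + r) ≤ Real.log (1 + a) + Real.log (1 + b) := by
    rw [← Real.log_mul (by linarith) (by linarith)]
    apply Real.log_le_log
    · rw [hr]; positivity
    · rw [hr]; nlinarith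
  have h2 : 0 ≤ Real.log (1 + a) := Real.log_nonneg (by linarith)
  have h3 : 0 ≤ Real.log (1 + b) := Real.log_nonneg (by linarith)
  nlinarith [mul_nonneg h2 h3]

theorem geo_shell (Q : ℝ) (hQ : 0 ≤ Q) (J : ℕ) :
    ∑ j ∈ Finset.range J, (1 + Q * 2 ^ j) * (1 / 16 ^ j) ≤ 2 * (1 + Q) := by
  have h : ∀ J : ℕ, ∑ j ∈ Finset.range J, (1 + Q * 2 ^ j) * (1 / 16 ^ j) ≤
      2 * (1 + Q) - (1 + Q) * 2 * (1 / 2) ^ J := by
    intro J
    induction J with
    | zero => simp; linarith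
    | succ J ih =>
      rw [Finset.sum_range_succ]
      have h1 : (1 + Q * 2 ^ J) * (1 / 16 ^ J) ≤ (1 + Q) * (1 / 2) ^ J := by
        have e1 : (1 / 16 : ℝ) ^ J = (1 / 2) ^ J * (1 / 8) ^ J := by
          rw [← mul_pow]; norm_num
        have e2 : (1 : ℝ) / 16 ^ J = (1 / 16) ^ J := by rw [one_div_pow]
        have e3 : (2 : ℝ) ^ J * (1 / 8) ^ J = (1 / 4) ^ J := by rw [← mul_pow]; norm_num
        have e4 : (1 / 8 : ℝ) ^ J ≤ 1 := pow_le_one₀ (by norm_num) (by norm_num)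
        have e5 : (1 / 4 : ℝ) ^ J ≤ 1 := pow_le_one₀ (by norm_num) (by norm_num)
        have e6 : (0 : ℝ) ≤ (1 / 2) ^ J := by positivity
        rw [e2, e1]
        calc (1 + Q * 2 ^ J) * ((1 / 2) ^ J * (1 / 8) ^ J)
            = (1 / 2) ^ J * ((1 / 8) ^ J + Q * (2 ^ J * (1 / 8) ^ J)) := by ring
          _ = (1 / 2) ^ J * ((1 / 8) ^ J + Q * (1 / 4) ^ J) := by rw [e3]
          _ ≤ (1 / 2) ^ J * (1 + Q * 1) := by
              apply mul_le_mul_of_nonneg_left _ e6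
              have := mul_le_mul_of_nonneg_left e5 hQ
              linarith
          _ = _ := by ring
      have h2 : (1 / 2 : ℝ) ^ (J + 1) = 1 / 2 * (1 / 2) ^ J := by ring
      rw [h2]
      linarith
  have h2 : (0 : ℝ) ≤ (1 + Q) * 2 * (1 / 2) ^ J := by positivity
  linarith [h J]

/-- the sum over all shells for one `x` -/
theorem sum_shells {h : ℕ} (hh : 0 < h) (w val Z : (Fin 4 → ℤ) → ℝ) (l : Fin 4 → ℝ)
    (Th M S V κ K1 K2 L R Q : ℝ) (N : Finset (Fin 4 → ℤ)) (J0 : ℕ)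
    (hTh : 0 ≤ Th) (hM : 0 < M) (hS : 0 < S) (hV : 0 ≤ V) (hκ : 0 ≤ κ) (hK1 : 0 ≤ K1) (hK2 : 0 ≤ K2)
    (hL : 1 ≤ L) (hR : 0 ≤ R) (hQ : 0 ≤ Q)
    (hw : ∀ m ∈ N, 0 ≤ w m) (hval : ∀ m ∈ N, 1 ≤ val m)
    (hN : ∀ m ∈ N, (∀ i, |(m i : ℝ)| ≤ S * l i) ∧ ∃ i, S * l i ≤ 2 ^ J0 * |(m i : ℝ)|)
    (hZ : ∀ m ∈ N, ∀ u : ℝ, 0 < u → (∀ i, |(m i : ℝ)| ≤ u * l i) →
      (∃ i, u * l i ≤ 2 * |(m i : ℝ)|) →
      Z m ≤ K1 * w m * (L + Real.log (1 + R * u ^ 2 / val m)) * (1 + Q * S / u))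
    (hC : ∀ B : Finset (Fin 4 → ℤ), B ⊆ N →
      (∃ a : Fin 4 → ℤ, ∀ m ∈ B, ∀ i, a i ≤ m i ∧ m i < a i + h) → ∑ m ∈ B, w m ≤ (h : ℝ) ^ 4 * Th)
    (htot : ∀ j ∈ Finset.range (J0 + 1), ∀ B : Finset (Fin 4 → ℤ), B ⊆ N →
      (∀ m ∈ B, ∀ i, |(m i : ℝ)| ≤ S / 2 ^ j * l i) →
      ((B.image (cz h)).card : ℝ) * (h : ℝ) ^ 4 ≤ K2 * (V / 16 ^ j))
    (hcone : ∀ j ∈ Finset.range (J0 + 1), ∀ σ : ℝ, 0 ≤ σ → ∀ B : Finset (Fin 4 → ℤ), B ⊆ N →
      (∀ m ∈ B, ∀ i, |(m i : ℝ)| ≤ S / 2 ^ j * l i) →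
      (∀ m ∈ B, val m ≤ σ * (M * (S / 2 ^ j) ^ 2)) →
      ((B.image (cz h)).card : ℝ) * (h : ℝ) ^ 4 ≤ K2 * √(σ + κ) * (V / 16 ^ j))
    (J : ℕ) (hJ : M * S ^ 2 ≤ 2 ^ J) (hJκ : (J : ℝ) * √κ ≤ 1) :
    ∑ m ∈ N, Z m ≤ 14 * K1 * K2 * V * Th * (L + Real.log (1 + R / M)) * (1 + Q) := by
  classical
  set P : ℕ → (Fin 4 → ℤ) → Prop := fun j m => (∀ i, |(m i : ℝ)| ≤ S / 2 ^ j * l i) ∧
      ∃ i, S / 2 ^ j * l i ≤ 2 * |(m i : ℝ)| with hP
  have hcov : ∀ m ∈ N, ∃ j ∈ Finset.range (J0 + 1), P j m := fun m hm =>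
    shell_ex l J0 S m (hN m hm).1 (hN m hm).2
  -- the majorant
  set g : ℕ → (Fin 4 → ℤ) → ℝ := fun j m =>
    K1 * (L + Real.log (1 + R / M)) * (1 + Q * 2 ^ j) *
      (w m * (1 + Real.log (1 + M * (S / 2 ^ j) ^ 2 / val m))) with hg
  have hRM : 0 ≤ R / M := by positivity
  have hLL : 0 ≤ L + Real.log (1 + R / M) := by
    have := Real.log_nonneg (show (1 : ℝ) ≤ 1 + R / M by linarith)
    linarith
  have hg0 : ∀ j, ∀ m ∈ N, 0 ≤ g j m := by
    intro j m hm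
    have hv := hval m hm
    have h1 : 0 ≤ M * (S / 2 ^ j) ^ 2 / val m := by positivity
    have h2 : 0 ≤ Real.log (1 + M * (S / 2 ^ j) ^ 2 / val m) := Real.log_nonneg (by linarith)
    have h3 := hw m hm
    have h4 : (0 : ℝ) ≤ 1 + Q * 2 ^ j := by positivity
    simp only [hg]
    positivity
  have hpt : ∀ m ∈ N, Z m ≤ ∑ j ∈ Finset.range (J0 + 1), (if P j m then g j m else 0) := by
    intro m hm
    obtain ⟨j, hj, hPj⟩ := hcov m hm
    have hv := hval m hm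
    have hv0 : 0 < val m := by linarith
    have hu : 0 < S / 2 ^ j := by positivity
    have h1 := hZ m hm (S / 2 ^ j) hu hPj.1 hPj.2
    have h2 : Z m ≤ g j m := by
      refine h1.trans ?_
      have h3 : 1 + Q * S / (S / 2 ^ j) = 1 + Q * 2 ^ j := by field_simp
      rw [h3]
      have h4 := log_split (L := L) (r := R * (S / 2 ^ j) ^ 2 / val m) (a := R / M)
        (b := M * (S / 2 ^ j) ^ 2 / val m) hL hRM (by positivity) (by field_simp)
      have h5 : (0 : ℝ) ≤ 1 + Q * 2 ^ j := by positivity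
      have h6 := hw m hm
      simp only [hg]
      calc K1 * w m * (L + Real.log (1 + R * (S / 2 ^ j) ^ 2 / val m)) * (1 + Q * 2 ^ j)
          ≤ K1 * w m * ((L + Real.log (1 + R / M)) *
            (1 + Real.log (1 + M * (S / 2 ^ j) ^ 2 / val m))) * (1 + Q * 2 ^ j) := by
            apply mul_le_mul_of_nonneg_right _ h5
            exact mul_le_mul_of_nonneg_left h4 (by positivity)
        _ = _ := by ring
    calc Z m ≤ (if P j m then g j m else 0) := by rw [if_pos hPj]; exact h2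
      _ ≤ _ := Finset.single_le_sum (f := fun j => if P j m then g j m else 0)
          (fun j' _ => by split_ifs; exacts [hg0 j' m hm, le_refl _]) hj
  refine (Finset.sum_le_sum hpt).trans ?_
  rw [Finset.sum_comm]
  have hj1 : ∀ j ∈ Finset.range (J0 + 1), ∑ m ∈ N, (if P j m then g j m else 0) ≤
      7 * K1 * K2 * V * Th * (L + Real.log (1 + R / M)) * ((1 + Q * 2 ^ j) * (1 / 16 ^ j)) := by
    intro j hj
    rw [← Finset.sum_filter]
    set B := N.filter (P j) with hB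
    have hBN : B ⊆ N := Finset.filter_subset _ _
    have hBP : ∀ m ∈ B, P j m := fun m hm => (Finset.mem_filter.1 hm).2
    have h1 := shell_sum hh w val Th M (S / 2 ^ j) (V / 16 ^ j) κ K2 B hTh hM (by positivity)
      (by positivity) hκ hK2 (fun m hm => hw m (hBN hm)) (fun m hm => hval m (hBN hm))
      (fun B' hB' ha => hC B' (hB'.trans hBN) ha)
      (htot j hj B hBN (fun m hm => (hBP m hm).1))
      (fun σ hσ B' hB' hv => hcone j hj σ hσ B' (hB'.trans hBN) (fun m hm => (hBP m (hB' hm)).1) hv)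
      J (by
        refine le_trans ?_ hJ
        apply mul_le_mul_of_nonneg_left _ hM.le
        apply pow_le_pow_left₀ (by positivity)
        exact div_le_self hS.le (one_le_pow₀ (by norm_num))) hJκ
    have h2 : ∑ m ∈ B, g j m = K1 * (L + Real.log (1 + R / M)) * (1 + Q * 2 ^ j) *
        ∑ m ∈ B, w m * (1 + Real.log (1 + M * (S / 2 ^ j) ^ 2 / val m)) := by
      simp only [hg]; rw [← Finset.mul_sum]
    rw [h2]
    have h3 : (0 : ℝ) ≤ K1 * (L + Real.log (1 + R / M)) * (1 + Q * 2 ^ j) := by positivity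
    calc _ ≤ K1 * (L + Real.log (1 + R / M)) * (1 + Q * 2 ^ j) * (7 * K2 * (V / 16 ^ j) * Th) :=
          mul_le_mul_of_nonneg_left h1 h3
      _ = _ := by ring
  refine (Finset.sum_le_sum hj1).trans ?_
  rw [← Finset.mul_sum]
  have h4 := geo_shell Q hQ (J0 + 1)
  calc _ ≤ 7 * K1 * K2 * V * Th * (L + Real.log (1 + R / M)) * (2 * (1 + Q)) :=
        mul_le_mul_of_nonneg_left h4 (by positivity)
    _ = _ := by ring

end Pool.Agent.PP5S
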